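import Mathlib

set_option autoImplicit false

/-! Smooth dyadic decomposition and derivative bounds for `c(u) u^{-s}`. -/

namespace Pool.Agent.W5h65.MD

open Finset Filter Topology MeasureTheory

/-- smooth functions with support in `[1/2, 2]` -/
def SS (c : ℝ → ℂ) : Prop := ContDiff ℝ ((⊤ : ℕ∞) : WithTop ℕ∞) c ∧ ∀ u, c u ≠ 0 → 1 / 2 ≤ u ∧ u ≤ 2

lemma SS.zero {c : ℝ → ℂ} (h : SS c) {u : ℝ} (hu : u < 1 / 2 ∨ 2 < u) : c u = 0 := by
  by_contra h0
  have := h.2 u h0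
  rcases hu with h1 | h1 <;> linarith

lemma SS.ev_zero {c : ℝ → ℂ} (h : SS c) {u : ℝ} (hu : u < 1 / 2 ∨ 2 < u) : c =ᶠ[𝓝 u] fun _ => 0 := by
  rcases hu with h1 | h1
  · filter_upwards [Iio_mem_nhds h1] with v hv
    exact h.zero (Or.inl hv)
  · filter_upwards [Ioi_mem_nhds h1] with v hv
    exact h.zero (Or.inr hv)

lemma SS.deriv {c : ℝ → ℂ} (h : SS c) : SS (deriv c) := by
  refine ⟨(contDiff_infty_iff_deriv.1 h.1).2, fun u hu => ?_⟩
  by_contra h0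
  have h1 : u < 1 / 2 ∨ 2 < u := by
    by_contra h2
    push Not at h2
    exact h0 h2
  have := (h.ev_zero h1).deriv_eq
  rw [this] at hu
  simp at hu

lemma SS.mul_of {c g : ℝ → ℂ} (h : SS c)
    (hg : ∀ u : ℝ, 0 < u → ContDiffAt ℝ ((⊤ : ℕ∞) : WithTop ℕ∞) g u) : SS (fun u => c u * g u) := by
  refine ⟨contDiff_iff_contDiffAt.2 fun u => ?_, fun u hu => h.2 u (left_ne_zero_of_mul hu)⟩
  rcases lt_or_ge u (1 / 2) with h1 | h1
  · have h2 : (fun u => c u * g u) =ᶠ[𝓝 u] fun _ => 0 := by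
      filter_upwards [h.ev_zero (Or.inl h1)] with v hv
      rw [hv, zero_mul]
    exact contDiffAt_const.congr_of_eventuallyEq h2
  · exact h.1.contDiffAt.mul (hg u (by linarith))

lemma ofReal_smooth : ContDiff ℝ ((⊤ : ℕ∞) : WithTop ℕ∞) (fun u : ℝ => (u : ℂ)) :=
  Complex.ofRealCLM.contDiff

lemma cpow_eq {u : ℝ} (hu : 0 < u) (s : ℂ) : (u : ℂ) ^ (-s) = Complex.exp (-s * (Real.log u : ℂ)) := by
  rw [Complex.cpow_def_of_ne_zero (by exact_mod_cast hu.ne'), ← Complex.ofReal_log hu.le, mul_comm]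

lemma cpow_smooth (s : ℂ) (u : ℝ) (hu : 0 < u) :
    ContDiffAt ℝ ((⊤ : ℕ∞) : WithTop ℕ∞) (fun u : ℝ => (u : ℂ) ^ (-s)) u := by
  have h1 : (fun u : ℝ => (u : ℂ) ^ (-s)) =ᶠ[𝓝 u] fun u => Complex.exp (-s * (Real.log u : ℂ)) := by
    filter_upwards [Ioi_mem_nhds hu] with v hv
    exact cpow_eq hv s
  have h2 : ContDiffAt ℝ ((⊤ : ℕ∞) : WithTop ℕ∞) (fun u : ℝ => (Real.log u : ℂ)) u :=
    ofReal_smooth.contDiffAt.comp u (Real.contDiffAt_log.2 hu.ne')
  exact (contDiffAt_const.mul h2).cexp.congr_of_eventuallyEq h1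

lemma inv_smooth (u : ℝ) (hu : 0 < u) :
    ContDiffAt ℝ ((⊤ : ℕ∞) : WithTop ℕ∞) (fun u : ℝ => ((u : ℂ))⁻¹) u :=
  ofReal_smooth.contDiffAt.inv (by exact_mod_cast hu.ne')

lemma hasDeriv_cpow (s : ℂ) {u : ℝ} (hu : 0 < u) :
    HasDerivAt (fun u : ℝ => (u : ℂ) ^ (-s)) (-s * (u : ℂ)⁻¹ * (u : ℂ) ^ (-s)) u := by
  have h1 : HasDerivAt (fun u : ℝ => Complex.exp (-s * (Real.log u : ℂ)))
      (-s * (u : ℂ)⁻¹ * (u : ℂ) ^ (-s)) u := by
    have h2 : HasDerivAt (fun u : ℝ => (Real.log u : ℂ)) ((u⁻¹ : ℝ) : ℂ) u :=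
      (Real.hasDerivAt_log hu.ne').ofReal_comp
    have h3 := (h2.const_mul (-s)).cexp
    rw [cpow_eq hu]
    convert h3 using 1
    push_cast
    ring
  refine h1.congr_of_eventuallyEq ?_
  filter_upwards [Ioi_mem_nhds hu] with v hv
  exact cpow_eq hv s

/-- `c(u) u^{-s}` -/
noncomputable def cs (c : ℝ → ℂ) (s : ℂ) (u : ℝ) : ℂ := c u * (u : ℂ) ^ (-s)

lemma SS.cs {c : ℝ → ℂ} (h : SS c) (s : ℂ) : SS (cs c s) := h.mul_of (cpow_smooth s)

lemma SS.div {c : ℝ → ℂ} (h : SS c) : SS (fun u => c u * (u : ℂ)⁻¹) := h.mul_of inv_smooth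

lemma deriv_cs {c : ℝ → ℂ} (h : SS c) (s : ℂ) :
    _root_.deriv (cs c s) = fun u => cs (_root_.deriv c) s u - s * cs (fun u => c u * (u : ℂ)⁻¹) s u := by
  funext u
  rcases lt_or_ge u (1 / 2) with h1 | h1
  · have h2 : cs c s =ᶠ[𝓝 u] fun _ => 0 := (h.cs s).ev_zero (Or.inl h1)
    rw [h2.deriv_eq]
    unfold cs
    simp only [h.deriv.zero (Or.inl h1), h.zero (Or.inl h1)]
    simp
  · have hu : 0 < u := by linarith
    have h3 : HasDerivAt c (_root_.deriv c u) u :=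
      ((h.1.differentiable (by simp)) u).hasDerivAt
    have h4 := h3.mul (hasDeriv_cpow s hu)
    have h5 : _root_.deriv (cs c s) u = _ := h4.deriv
    rw [h5]
    unfold cs
    ring

lemma SS.bdd {c : ℝ → ℂ} (h : SS c) : ∃ C : ℝ, 0 ≤ C ∧ ∀ u, ‖c u‖ ≤ C := by
  obtain ⟨C, hC⟩ := (isCompact_Icc (a := (1 / 2 : ℝ)) (b := 2)).exists_bound_of_continuousOn
    h.1.continuous.continuousOn
  refine ⟨max C 0, le_max_right _ _, fun u => ?_⟩
  by_cases hu : 1 / 2 ≤ u ∧ u ≤ 2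
  · exact (hC u hu).trans (le_max_left _ _)
  · have : c u = 0 := by
      by_contra h0
      exact hu (h.2 u h0)
    rw [this, norm_zero]
    exact le_max_right _ _

lemma norm_cpow_le {B : ℝ} {s : ℂ} (hs : |s.re| ≤ B) {u : ℝ} (h1 : 1 / 2 ≤ u) (h2 : u ≤ 2) :
    ‖(u : ℂ) ^ (-s)‖ ≤ 2 ^ B := by
  have hu : 0 < u := by linarith
  rw [Complex.norm_cpow_eq_rpow_re_of_pos hu]
  rcases le_total 1 u with h | h
  · have h3 : -s.re ≤ B := by linarith [neg_abs_le s.re]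
    calc u ^ (-s).re ≤ u ^ B := Real.rpow_le_rpow_of_exponent_le h (by simpa using h3)
      _ ≤ 2 ^ B := Real.rpow_le_rpow hu.le h2 ((abs_nonneg _).trans hs)
  · have h3 : -s.re ≥ -B := by linarith [le_abs_self s.re]
    calc u ^ (-s).re ≤ u ^ (-B) := Real.rpow_le_rpow_of_exponent_ge hu h (by simpa using h3)
      _ = (u⁻¹) ^ B := by rw [Real.inv_rpow hu.le, Real.rpow_neg hu.le]
      _ ≤ 2 ^ B := by
        apply Real.rpow_le_rpow (by positivity) _ ((abs_nonneg _).trans hs)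
        rw [inv_le_comm₀ hu (by norm_num)]
        linarith

lemma deriv_bound (B : ℝ) : ∀ (n : ℕ) (c : ℝ → ℂ), SS c → ∃ C : ℝ, 0 ≤ C ∧ ∀ s : ℂ, |s.re| ≤ B →
    ∀ u, ‖iteratedDeriv n (cs c s) u‖ ≤ C * (1 + ‖s‖) ^ n := by
  intro n
  induction n with
  | zero =>
    intro c hc
    obtain ⟨C, hC0, hC⟩ := hc.bdd
    refine ⟨C * 2 ^ B, by positivity, fun s hs u => ?_⟩
    rw [iteratedDeriv_zero, pow_zero, mul_one]
    unfold cs
    rw [norm_mul]
    by_cases hu : 1 / 2 ≤ u ∧ u ≤ 2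
    · exact mul_le_mul (hC u) (norm_cpow_le hs hu.1 hu.2) (norm_nonneg _) hC0
    · have : c u = 0 := by
        by_contra h0
        exact hu (hc.2 u h0)
      rw [this, norm_zero, zero_mul]
      positivity
  | succ n ih =>
    intro c hc
    obtain ⟨C1, h10, h1⟩ := ih _ hc.deriv
    obtain ⟨C2, h20, h2⟩ := ih _ hc.div
    refine ⟨C1 + C2, by positivity, fun s hs u => ?_⟩
    rw [iteratedDeriv_succ', deriv_cs hc]
    have e : iteratedDeriv n (fun u => cs (_root_.deriv c) s u -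
        s * cs (fun u => c u * (u : ℂ)⁻¹) s u) u =
        iteratedDeriv n (cs (_root_.deriv c) s) u -
        s * iteratedDeriv n (cs (fun u => c u * (u : ℂ)⁻¹) s) u := by
      have ha : ContDiffAt ℝ (n : WithTop ℕ∞) (cs (_root_.deriv c) s) u :=
        (hc.deriv.cs s).1.contDiffAt.of_le (by exact_mod_cast le_top)
      have hb : ContDiffAt ℝ (n : WithTop ℕ∞) (cs (fun u => c u * (u : ℂ)⁻¹) s) u :=
        (hc.div.cs s).1.contDiffAt.of_le (by exact_mod_cast le_top)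
      rw [iteratedDeriv_fun_sub ha (contDiffAt_const.mul hb)]
      congr 1
      exact iteratedDeriv_const_mul s hb
    rw [e]
    have hs1 : ‖s‖ ≤ 1 + ‖s‖ := by linarith
    have hs0 : 1 ≤ 1 + ‖s‖ := by linarith [norm_nonneg s]
    calc _ ≤ ‖iteratedDeriv n (cs (_root_.deriv c) s) u‖ +
          ‖s * iteratedDeriv n (cs (fun u => c u * (u : ℂ)⁻¹) s) u‖ := norm_sub_le _ _
      _ ≤ C1 * (1 + ‖s‖) ^ n * (1 + ‖s‖) + (1 + ‖s‖) * (C2 * (1 + ‖s‖) ^ n) := by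
          rw [norm_mul]
          gcongr
          · calc _ ≤ C1 * (1 + ‖s‖) ^ n := h1 s hs u
              _ ≤ _ := le_mul_of_one_le_right (by positivity) hs0
          · exact h2 s hs u
      _ = _ := by ring

lemma deriv_bounds (B : ℝ) (A : ℕ) (c : ℝ → ℂ) (hc : SS c) : ∃ C : ℝ, 0 < C ∧ ∀ s : ℂ, |s.re| ≤ B →
    ∀ n ≤ A, ∀ u, ‖iteratedDeriv n (cs c s) u‖ ≤ C * (1 + ‖s‖) ^ A := by
  choose C h0 hC using fun n => deriv_bound B n c hc
  refine ⟨1 + ∑ n ∈ range (A + 1), C n, ?_, fun s hs n hn u => (hC n s hs u).trans ?_⟩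
  · have : 0 ≤ ∑ n ∈ range (A + 1), C n := sum_nonneg fun n _ => h0 n
    linarith
  · have h1 : C n ≤ ∑ n ∈ range (A + 1), C n :=
      single_le_sum (f := C) (fun n _ => h0 n) (mem_range.2 (by omega))
    have h2 : 1 ≤ 1 + ‖s‖ := by linarith [norm_nonneg s]
    have h3 : (1 + ‖s‖) ^ n ≤ (1 + ‖s‖) ^ A := pow_le_pow_right₀ h2 hn
    have h4 : 0 ≤ (1 + ‖s‖) ^ n := by positivity
    nlinarith [h0 n]

/-! ### the partition of unity -/

/-- `1` up to `1`, `0` from `2` on -/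
noncomputable def hh (x : ℝ) : ℝ := Real.smoothTransition (2 - x)

/-- the dyadic bump function -/
noncomputable def ph (x : ℝ) : ℝ := hh x - hh (2 * x)

lemma hh_one {x : ℝ} (hx : x ≤ 1) : hh x = 1 := Real.smoothTransition.one_of_one_le (by linarith)

lemma hh_zero {x : ℝ} (hx : 2 ≤ x) : hh x = 0 := Real.smoothTransition.zero_of_nonpos (by linarith)

lemma hh_smooth : ContDiff ℝ ((⊤ : ℕ∞) : WithTop ℕ∞) hh :=
  Real.smoothTransition.contDiff.comp (contDiff_const.sub contDiff_id)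

lemma ph_smooth : ContDiff ℝ ((⊤ : ℕ∞) : WithTop ℕ∞) ph :=
  hh_smooth.sub (hh_smooth.comp (contDiff_const.mul contDiff_id))

lemma ph_supp {x : ℝ} (hx : ph x ≠ 0) : 1 / 2 ≤ x ∧ x ≤ 2 := by
  constructor
  · by_contra h
    push Not at h
    apply hx
    unfold ph
    rw [hh_one (by linarith), hh_one (by linarith), sub_self]
  · by_contra h
    push Not at h
    apply hx
    unfold ph
    rw [hh_zero (by linarith), hh_zero (by linarith), sub_self]

lemma hh_mem (x : ℝ) : 0 ≤ hh x ∧ hh x ≤ 1 :=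
  ⟨Real.smoothTransition.nonneg _, Real.smoothTransition.le_one _⟩

lemma ph_abs (x : ℝ) : |ph x| ≤ 1 := by
  unfold ph
  have h1 := hh_mem x
  have h2 := hh_mem (2 * x)
  rw [abs_le]
  constructor <;> linarith

lemma ph_SS : SS (fun u => (ph u : ℂ)) :=
  ⟨ofReal_smooth.comp ph_smooth, fun u hu => ph_supp (by simpa using hu)⟩

lemma ph_partial (J : ℕ) (x : ℝ) : ∑ j ∈ range J, ph (x / 2 ^ j) = hh (2 * x / 2 ^ J) - hh (2 * x) := by
  induction J with
  | zero => simp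
  | succ J ih =>
    rw [sum_range_succ, ih]
    unfold ph
    have e1 : 2 * (x / 2 ^ J) = 2 * x / 2 ^ J := by ring
    have e2 : x / 2 ^ J = 2 * x / 2 ^ (J + 1) := by
      rw [pow_succ]
      field_simp
    rw [e1, ← e2]
    ring

lemma ph_tsum {x : ℝ} (hx : 1 ≤ x) : HasSum (fun j : ℕ => ph (x / 2 ^ j)) 1 := by
  obtain ⟨J, hJ⟩ := pow_unbounded_of_one_lt (2 * x) (by norm_num : (1 : ℝ) < 2)
  have h0 : ∀ j ∉ range J, ph (x / 2 ^ j) = 0 := by
    intro j hj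
    rw [mem_range, not_lt] at hj
    by_contra h
    have h1 := (ph_supp h).1
    have h2 : (2 : ℝ) ^ J ≤ 2 ^ j := pow_le_pow_right₀ (by norm_num) hj
    rw [le_div_iff₀ (by positivity)] at h1
    linarith
  have h1 : HasSum (fun j : ℕ => ph (x / 2 ^ j)) (∑ j ∈ range J, ph (x / 2 ^ j)) :=
    hasSum_sum_of_ne_finset_zero h0
  rw [ph_partial] at h1
  rwa [hh_one (by rw [div_le_one (by positivity)]; exact hJ.le), hh_zero (by linarith), sub_zero] at h1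

end Pool.Agent.W5h65.MD
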