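import Pool.Agent.W5h65.MD.A1

set_option autoImplicit false

/-! Sums of smooth functions against `8`-periodic coefficients. -/

namespace Pool.Agent.W5h65.MD

open Finset Filter Topology MeasureTheory

/-- mean value of an `8`-periodic function -/
noncomputable def mean (ρ : ℕ → ℂ) : ℂ := (∑ k ∈ range 8, ρ k) / 8

/-- `∫ c` -/
noncomputable def II (c : ℝ → ℂ) : ℂ := ∫ u in (0:ℝ)..3, c u

/-- `∫ |c'|` -/
noncomputable def VV (c : ℝ → ℂ) : ℝ := ∫ u in (0:ℝ)..3, ‖deriv c u‖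

lemma sum_blocks (ρ : ℕ → ℂ) (hρ : ∀ m, ρ (m + 8) = ρ m) (q r : ℕ) :
    ∑ k ∈ range (8 * q + r), ρ k = q * ∑ k ∈ range 8, ρ k + ∑ k ∈ range r, ρ k := by
  induction q with
  | zero => simp
  | succ q ih =>
    have e : 8 * (q + 1) + r = 8 + (8 * q + r) := by ring
    rw [e, sum_range_add]
    have : ∀ k, ρ (8 + k) = ρ k := fun k => by rw [add_comm]; exact hρ k
    simp only [this]
    rw [ih]
    push_cast
    ring

lemma sum_mean {ρ : ℕ → ℂ} (hρ : ∀ m, ρ (m + 8) = ρ m) (h1 : ∀ m, ‖ρ m‖ ≤ 1) (x : ℝ) (hx : 0 ≤ x) :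
    ‖∑ k ∈ Icc 0 ⌊x⌋₊, ρ k - mean ρ * x‖ ≤ 16 := by
  have e0 : Icc 0 ⌊x⌋₊ = range (⌊x⌋₊ + 1) := by
    ext k
    simp
  obtain ⟨N, hN⟩ : ∃ N, N = ⌊x⌋₊ + 1 := ⟨_, rfl⟩
  rw [e0, ← hN]
  have e1 : N = 8 * (N / 8) + N % 8 := (Nat.div_add_mod N 8).symm
  have e2 : ∑ k ∈ range N, ρ k = (N / 8 : ℕ) * ∑ k ∈ range 8, ρ k + ∑ k ∈ range (N % 8), ρ k := by
    conv_lhs => rw [e1]
    exact sum_blocks ρ hρ _ _
  have h2 : ∀ n, ‖∑ k ∈ range n, ρ k‖ ≤ n := by
    intro n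
    calc ‖∑ k ∈ range n, ρ k‖ ≤ ∑ k ∈ range n, ‖ρ k‖ := norm_sum_le _ _
      _ ≤ ∑ k ∈ range n, (1 : ℝ) := sum_le_sum fun k _ => h1 k
      _ = n := by simp
  have h3 : (∑ k ∈ range 8, ρ k) = mean ρ * 8 := by
    unfold mean
    field_simp
  have h4 : ‖mean ρ‖ ≤ 1 := by
    have := h2 8
    rw [h3, norm_mul] at this
    norm_num at this
    linarith
  have h5 : (x : ℝ) < N := by
    rw [hN]
    push_cast
    exact Nat.lt_floor_add_one x
  have h6 : (N : ℝ) ≤ x + 1 := by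
    rw [hN]
    push_cast
    have := Nat.floor_le hx
    linarith
  have h7 : (N : ℝ) = 8 * (N / 8 : ℕ) + (N % 8 : ℕ) := by
    have := congrArg (fun n : ℕ => (n : ℝ)) e1
    push_cast at this
    exact_mod_cast this
  have h8 : ((N % 8 : ℕ) : ℝ) ≤ 7 := by
    have : N % 8 ≤ 7 := by omega
    exact_mod_cast this
  have e3 : ∑ k ∈ range N, ρ k - mean ρ * x = ∑ k ∈ range (N % 8), ρ k +
      mean ρ * (((8 * (N / 8 : ℕ) : ℝ) - x : ℝ) : ℂ) := by
    rw [e2, h3]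
    push_cast
    ring
  rw [e3]
  have h9 : |(8 * (N / 8 : ℕ) : ℝ) - x| ≤ 8 := by
    rw [abs_le]
    constructor <;> linarith [(Nat.cast_nonneg (N % 8) : (0:ℝ) ≤ _)]
  calc _ ≤ ‖∑ k ∈ range (N % 8), ρ k‖ + ‖mean ρ * (((8 * (N / 8 : ℕ) : ℝ) - x : ℝ) : ℂ)‖ :=
        norm_add_le _ _
    _ ≤ 7 + 1 * 8 := by
        rw [norm_mul, Complex.norm_real, Real.norm_eq_abs]
        have := h2 (N % 8)
        gcongr
        linarith
    _ ≤ 16 := by norm_num

lemma cont_deriv {c : ℝ → ℂ} (hc : SS c) : Continuous (deriv c) := hc.deriv.1.continuous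

lemma tsum_eq_Icc {c : ℝ → ℂ} (hc : SS c) (ρ : ℕ → ℂ) {t : ℝ} (ht : 0 < t) :
    ∑' m : ℕ, ρ m * c (m / t) = ∑ k ∈ Icc 0 ⌊3 * t⌋₊, c (k / t) * ρ k := by
  rw [tsum_eq_sum (s := Icc 0 ⌊3 * t⌋₊)]
  · exact sum_congr rfl fun k _ => mul_comm _ _
  · intro m hm
    rw [mem_Icc, not_and_or, not_le, not_le] at hm
    have h1 : 3 * t < m := by
      rcases hm with h | h
      · omega
      · exact (Nat.floor_lt (by positivity)).1 h
    have h2 : c (m / t) = 0 := hc.zero (Or.inr (by rw [lt_div_iff₀ ht]; linarith))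
    rw [h2, mul_zero]

lemma summ_fin {c : ℝ → ℂ} (hc : SS c) (ρ : ℕ → ℂ) {t : ℝ} (ht : 0 < t) :
    Summable (fun m : ℕ => ρ m * c (m / t)) := by
  refine summable_of_ne_finset_zero (s := Icc 0 ⌊3 * t⌋₊) ?_
  intro m hm
  rw [mem_Icc, not_and_or, not_le, not_le] at hm
  have h1 : 3 * t < m := by
    rcases hm with h | h
    · omega
    · exact (Nat.floor_lt (by positivity)).1 h
  have h2 : c (m / t) = 0 := hc.zero (Or.inr (by rw [lt_div_iff₀ ht]; linarith))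
  rw [h2, mul_zero]

theorem per_sum {c : ℝ → ℂ} (hc : SS c) {ρ : ℕ → ℂ} (hρ : ∀ m, ρ (m + 8) = ρ m)
    (h1 : ∀ m, ‖ρ m‖ ≤ 1) {t : ℝ} (ht : 0 < t) :
    ‖∑' m : ℕ, ρ m * c (m / t) - mean ρ * t * II c‖ ≤ 16 * VV c := by
  have hdiff : Differentiable ℝ c := hc.1.differentiable (by simp)
  have hd : ∀ x : ℝ, HasDerivAt (fun x : ℝ => c (x / t)) ((t : ℂ)⁻¹ * deriv c (x / t)) x := by
    intro x
    have h2 : HasDerivAt (fun x : ℝ => x / t) t⁻¹ x := by
      simpa [div_eq_mul_inv] using (hasDerivAt_id x).mul_const t⁻¹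
    have h3 := (hdiff (x / t)).hasDerivAt.scomp x h2
    rw [Complex.real_smul, Complex.ofReal_inv] at h3
    exact h3
  have hderiv : deriv (fun x : ℝ => c (x / t)) = fun x => (t : ℂ)⁻¹ * deriv c (x / t) :=
    funext fun x => (hd x).deriv
  have hcd : Continuous (fun x : ℝ => (t : ℂ)⁻¹ * deriv c (x / t)) :=
    continuous_const.mul ((cont_deriv hc).comp (continuous_id.div_const t))
  have h3t : 0 ≤ 3 * t := by positivity
  rw [tsum_eq_Icc hc ρ ht]
  have key := sum_mul_eq_sub_integral_mul (f := fun x : ℝ => c (x / t)) ρ h3t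
    (fun x _ => (hd x).differentiableAt) (by
      rw [hderiv]
      exact hcd.integrableOn_Icc)
  rw [key]
  have hb : c (3 * t / t) = 0 := hc.zero (Or.inr (by rw [mul_div_assoc, div_self ht.ne']; norm_num))
  simp only [hb, zero_mul, zero_sub]
  rw [hderiv]
  -- integration by parts
  have hparts : ∫ x in (0:ℝ)..(3 * t), ((t : ℂ)⁻¹ * deriv c (x / t)) * (x : ℂ) = -(t * II c) := by
    have h4 := intervalIntegral.integral_deriv_mul_eq_sub (a := 0) (b := 3 * t)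
      (u := fun x : ℝ => c (x / t)) (v := fun x : ℝ => (x : ℂ))
      (u' := fun x : ℝ => (t : ℂ)⁻¹ * deriv c (x / t)) (v' := fun _ => 1)
      (fun x _ => hd x) (fun x _ => Complex.ofRealCLM.hasDerivAt)
      (hcd.intervalIntegrable _ _) (continuous_const.intervalIntegrable _ _)
    simp only [hb, zero_mul, mul_one, Complex.ofReal_zero, mul_zero, sub_self] at h4
    rw [intervalIntegral.integral_add] at h4
    · have h5 : ∫ x in (0:ℝ)..(3 * t), c (x / t) = t * II c := by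
        rw [intervalIntegral.integral_comp_div c ht.ne']
        unfold II
        rw [zero_div, mul_div_assoc, div_self ht.ne', mul_one]
        simp
      rw [h5] at h4
      exact eq_neg_of_add_eq_zero_left h4
    · exact (hcd.mul Complex.continuous_ofReal).intervalIntegrable _ _
    · exact (hc.1.continuous.comp (continuous_id.div_const t)).intervalIntegrable _ _
  rw [intervalIntegral.integral_of_le h3t] at hparts
  have hmeas : IntegrableOn (fun x : ℝ => ((t : ℂ)⁻¹ * deriv c (x / t)) * ∑ k ∈ Icc 0 ⌊x⌋₊, ρ k)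
      (Set.Ioc 0 (3 * t)) := by
    have := integrableOn_mul_sum_Icc (c := ρ) (m := 0) (a := 0) (b := 3 * t)
      (g := fun x : ℝ => (t : ℂ)⁻¹ * deriv c (x / t)) le_rfl hcd.integrableOn_Icc
    exact this.mono_set Set.Ioc_subset_Icc_self
  have hmeas2 : IntegrableOn (fun x : ℝ => ((t : ℂ)⁻¹ * deriv c (x / t)) * (x : ℂ)) (Set.Ioc 0 (3 * t)) :=
    (hcd.mul Complex.continuous_ofReal).integrableOn_Icc.mono_set Set.Ioc_subset_Icc_self
  have e1 : -(∫ x in Set.Ioc 0 (3 * t), ((t : ℂ)⁻¹ * deriv c (x / t)) * ∑ k ∈ Icc 0 ⌊x⌋₊, ρ k) -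
      mean ρ * t * II c = -(∫ x in Set.Ioc 0 (3 * t), ((t : ℂ)⁻¹ * deriv c (x / t)) *
        (∑ k ∈ Icc 0 ⌊x⌋₊, ρ k - mean ρ * x)) := by
    have e2 : ∀ x : ℝ, ((t : ℂ)⁻¹ * deriv c (x / t)) * (∑ k ∈ Icc 0 ⌊x⌋₊, ρ k - mean ρ * x) =
        ((t : ℂ)⁻¹ * deriv c (x / t)) * ∑ k ∈ Icc 0 ⌊x⌋₊, ρ k -
          mean ρ * (((t : ℂ)⁻¹ * deriv c (x / t)) * (x : ℂ)) := fun x => by ring
    simp only [e2]
    rw [integral_sub hmeas (hmeas2.const_mul _), integral_const_mul, hparts]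
    ring
  rw [e1, norm_neg]
  have hVV : ∫ x in Set.Ioc 0 (3 * t), ‖(t : ℂ)⁻¹ * deriv c (x / t)‖ = VV c := by
    rw [← intervalIntegral.integral_of_le h3t]
    have h6 := intervalIntegral.integral_comp_div (a := 0) (b := 3 * t) (fun u => ‖deriv c u‖) ht.ne'
    unfold VV
    rw [zero_div, mul_div_assoc, div_self ht.ne', mul_one] at h6
    have e3 : ∀ x : ℝ, ‖(t : ℂ)⁻¹ * deriv c (x / t)‖ = t⁻¹ * ‖deriv c (x / t)‖ := by
      intro x
      rw [norm_mul, norm_inv, Complex.norm_real, Real.norm_of_nonneg ht.le]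
    simp only [e3]
    rw [intervalIntegral.integral_const_mul, h6, smul_eq_mul, ← mul_assoc, inv_mul_cancel₀ ht.ne',
      one_mul]
  calc _ ≤ ∫ x in Set.Ioc 0 (3 * t), ‖((t : ℂ)⁻¹ * deriv c (x / t)) *
        (∑ k ∈ Icc 0 ⌊x⌋₊, ρ k - mean ρ * x)‖ := norm_integral_le_integral_norm _
    _ ≤ ∫ x in Set.Ioc 0 (3 * t), 16 * ‖(t : ℂ)⁻¹ * deriv c (x / t)‖ := by
        apply integral_mono_of_nonneg
        · exact Eventually.of_forall fun x => norm_nonneg _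
        · exact (hcd.norm.integrableOn_Icc.mono_set Set.Ioc_subset_Icc_self).const_mul 16
        · refine (ae_restrict_mem measurableSet_Ioc).mono fun x hx => ?_
          show ‖_‖ ≤ _
          rw [norm_mul, mul_comm]
          exact mul_le_mul_of_nonneg_right (sum_mean hρ h1 x hx.1.le) (norm_nonneg _)
    _ = 16 * VV c := by rw [integral_const_mul, hVV]

lemma VV_bound (B : ℝ) (c : ℝ → ℂ) (hc : SS c) : ∃ C : ℝ, 0 < C ∧ ∀ s : ℂ, |s.re| ≤ B →
    VV (cs c s) ≤ C * (1 + ‖s‖) ∧ ‖II (cs c s)‖ ≤ C := by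
  obtain ⟨C1, h10, h1⟩ := deriv_bounds B 1 c hc
  obtain ⟨C0, h00, h0⟩ := deriv_bounds B 0 c hc
  refine ⟨3 * C1 + 3 * C0, by positivity, fun s hs => ⟨?_, ?_⟩⟩
  · unfold VV
    have h3 : ∀ u, ‖deriv (cs c s) u‖ ≤ C1 * (1 + ‖s‖) := by
      intro u
      have := h1 s hs 1 le_rfl u
      rwa [iteratedDeriv_one, pow_one] at this
    have h4 : ‖∫ u in (0:ℝ)..3, ‖deriv (cs c s) u‖‖ ≤ (C1 * (1 + ‖s‖)) * |3 - 0| := by
      apply intervalIntegral.norm_integral_le_of_norm_le_const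
      intro u _
      rw [norm_norm]
      exact h3 u
    have h5 := (le_abs_self _).trans h4
    have h6 : |(3:ℝ) - 0| = 3 := by norm_num
    rw [h6] at h5
    refine h5.trans ?_
    have h7 : 0 ≤ ‖s‖ := norm_nonneg s
    nlinarith
  · unfold II
    have h4 : ‖∫ u in (0:ℝ)..3, cs c s u‖ ≤ C0 * |3 - 0| := by
      apply intervalIntegral.norm_integral_le_of_norm_le_const
      intro u _
      have := h0 s hs 0 le_rfl u
      rwa [iteratedDeriv_zero, pow_zero, mul_one] at this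
    have h6 : |(3:ℝ) - 0| = 3 := by norm_num
    rw [h6] at h4
    linarith

end Pool.Agent.W5h65.MD
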