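import Pool.Agent.W5h65.MD.A2
import Pool.Agent.H423R2.RZL.FM

set_option autoImplicit false

/-! Moments of smooth sums (from the fourth moment `NM4` of the library). -/

namespace Pool.Agent.W5h65.MD

open Finset Filter Topology MeasureTheory Pool.Agent.H306R2.RZ

/-- `∑_{m odd} ψ(m) (m | n) g(m / y)` -/
noncomputable def UU (ψ : ℕ → ℂ) (n : ℕ) (g : ℝ → ℂ) (y : ℝ) : ℂ :=
  ∑' m : ℕ, if Odd m then ψ m * (js m n : ℂ) * g (m / y) else 0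

/-- the bump function as a complex valued function -/
noncomputable def PH (u : ℝ) : ℂ := (ph u : ℂ)

lemma PH_SS : SS PH := ph_SS

theorem nm4 (ε B : ℝ) (hε : 0 < ε) : ∃ (C : ℝ) (A : ℕ), 0 < C ∧ ∀ (K : ℕ) (y : ℝ) (ψ : ℕ → ℂ)
    (s : ℂ), 1 ≤ K → 1 / 2 ≤ y → (∀ m, ‖ψ m‖ ≤ 1) → (∀ m, ψ (m + 8) = ψ m) → |s.re| ≤ B →
    ∑ κ ∈ (osf K).filter (fun κ => 1 < κ), ‖UU ψ κ (cs PH s) y‖ ^ 4 ≤
      C * (1 + ‖s‖) ^ A * ((K : ℝ) * y) ^ ε * (K * y ^ 2) := by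
  obtain ⟨C, A, hC, h⟩ := Pool.Agent.H423R2.RZL.NM4 ε hε
  obtain ⟨C1, hC1, h1⟩ := deriv_bounds B A PH PH_SS
  refine ⟨C * C1 ^ 4, 4 * A, by positivity, fun K y ψ s hK hy h2 h3 hs => ?_⟩
  refine (h K y (C1 * (1 + ‖s‖) ^ A) ψ (cs PH s) hK hy h2 h3 (PH_SS.cs s).1 (PH_SS.cs s).2
    (fun j hj u => h1 s hs j hj u)).trans (le_of_eq ?_)
  ring

theorem nm1 (ε B : ℝ) (hε : 0 < ε) : ∃ (C : ℝ) (A : ℕ), 0 < C ∧ ∀ (K : ℕ) (y : ℝ) (ψ : ℕ → ℂ)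
    (s : ℂ), 1 ≤ K → 1 / 2 ≤ y → (∀ m, ‖ψ m‖ ≤ 1) → (∀ m, ψ (m + 8) = ψ m) → |s.re| ≤ B →
    ∑ κ ∈ (osf K).filter (fun κ => 1 < κ), ‖UU ψ κ (cs PH s) y‖ ≤
      C * (1 + ‖s‖) ^ A * ((K : ℝ) ^ (1 + ε) * y ^ (1 / 2 + ε)) := by
  obtain ⟨C, A, hC, h⟩ := nm4 (4 * ε) B (by positivity)
  refine ⟨max 1 C, A, by positivity, fun K y ψ s hK hy h2 h3 hs => ?_⟩
  have h4 := h K y ψ s hK hy h2 h3 hs
  obtain ⟨T, hT⟩ : ∃ T, T = (osf K).filter (fun κ => 1 < κ) := ⟨_, rfl⟩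
  rw [← hT] at h4 ⊢
  have hcard : (T.card : ℝ) ≤ K := by
    have : T.card ≤ (Icc 1 K).card := by
      rw [hT]
      exact card_le_card ((filter_subset _ _).trans (filter_subset _ _))
    rw [Nat.card_Icc] at this
    exact_mod_cast this
  have hK0 : (0 : ℝ) < K := by exact_mod_cast hK
  have hy0 : 0 < y := by linarith
  have hs1 : 1 ≤ 1 + ‖s‖ := by linarith [norm_nonneg s]
  have hb0 : 0 ≤ max 1 C * (1 + ‖s‖) ^ A * ((K : ℝ) ^ (1 + ε) * y ^ (1 / 2 + ε)) := by positivity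
  refine (pow_le_pow_iff_left₀ (sum_nonneg fun _ _ => norm_nonneg _) hb0 (n := 4) (by norm_num)).1 ?_
  have h5 : (∑ κ ∈ T, ‖UU ψ κ (cs PH s) y‖) ^ 4 ≤
      (T.card : ℝ) ^ 3 * ∑ κ ∈ T, ‖UU ψ κ (cs PH s) y‖ ^ 4 := by
    rcases T.eq_empty_or_nonempty with h0 | h0
    · rw [h0]
      simp
    · have h6 := pow_sum_div_card_le_sum_pow (s := T) (f := fun κ => ‖UU ψ κ (cs PH s) y‖)
        (fun _ _ => norm_nonneg _) 3
      have h7 : (0 : ℝ) < (T.card : ℝ) ^ 3 := by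
        have : 0 < T.card := h0.card_pos
        positivity
      rw [div_le_iff₀ h7, mul_comm] at h6
      exact h6
  refine h5.trans ?_
  have e1 : (((K : ℝ) ^ (1 + ε)) * y ^ (1 / 2 + ε)) ^ 4 = (K : ℝ) ^ 3 *
      (((K : ℝ) * y) ^ (4 * ε) * (K * y ^ 2)) := by
    rw [mul_pow, ← Real.rpow_natCast ((K : ℝ) ^ (1 + ε)) 4, ← Real.rpow_natCast (y ^ (1 / 2 + ε)) 4,
      ← Real.rpow_mul hK0.le, ← Real.rpow_mul hy0.le, Real.mul_rpow hK0.le hy0.le]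
    have e2 : (K : ℝ) ^ ((1 + ε) * (4 : ℕ)) = (K : ℝ) ^ 4 * (K : ℝ) ^ (4 * ε) := by
      rw [← Real.rpow_natCast (K : ℝ) 4, ← Real.rpow_add hK0]
      congr 1
      push_cast
      ring
    have e3 : y ^ ((1 / 2 + ε) * (4 : ℕ)) = y ^ 2 * y ^ (4 * ε) := by
      rw [← Real.rpow_natCast y 2, ← Real.rpow_add hy0]
      congr 1
      push_cast
      ring
    rw [e2, e3]
    ring
  have h8 : C * (1 + ‖s‖) ^ A ≤ (max 1 C * (1 + ‖s‖) ^ A) ^ 4 := by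
    have h9 : C * (1 + ‖s‖) ^ A ≤ max 1 C * (1 + ‖s‖) ^ A :=
      mul_le_mul_of_nonneg_right (le_max_right _ _) (by positivity)
    have h10 : 1 ≤ max 1 C * (1 + ‖s‖) ^ A :=
      one_le_mul_of_one_le_of_one_le (le_max_left _ _) (one_le_pow₀ hs1)
    refine h9.trans ?_
    calc _ = (max 1 C * (1 + ‖s‖) ^ A) ^ 1 := (pow_one _).symm
      _ ≤ _ := pow_le_pow_right₀ h10 (by norm_num)
  rw [mul_pow, e1]
  calc (T.card : ℝ) ^ 3 * ∑ κ ∈ T, ‖UU ψ κ (cs PH s) y‖ ^ 4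
      ≤ (K : ℝ) ^ 3 * (C * (1 + ‖s‖) ^ A * ((K : ℝ) * y) ^ (4 * ε) * (K * y ^ 2)) := by
        gcongr
    _ = C * (1 + ‖s‖) ^ A * ((K : ℝ) ^ 3 * (((K : ℝ) * y) ^ (4 * ε) * (K * y ^ 2))) := by ring
    _ ≤ _ := mul_le_mul_of_nonneg_right h8 (by positivity)

/-- dyadic summation with weights -/
theorem wsum (α β : ℝ) (h0 : 0 ≤ β) (hαβ : α < β) : ∃ C1 : ℝ, 0 < C1 ∧ ∀ (a : ℕ → ℝ), (∀ n, 0 ≤ a n) →
    ∀ C0 : ℝ, (∀ K : ℕ, 1 ≤ K → ∑ n ∈ Icc 1 K, a n ≤ C0 * (K : ℝ) ^ α) →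
    ∀ N : ℕ, ∑ n ∈ Icc 1 N, (n : ℝ) ^ (-β) * a n ≤ C1 * C0 := by
  have hq0 : (0 : ℝ) < 2 ^ (α - β) := by positivity
  have hq1 : (2 : ℝ) ^ (α - β) < 1 := Real.rpow_lt_one_of_one_lt_of_neg (by norm_num) (by linarith)
  refine ⟨2 ^ α * (1 - 2 ^ (α - β))⁻¹, mul_pos (by positivity) (inv_pos.2 (by linarith)), ?_⟩
  intro a ha C0 hC N
  have hC0 : 0 ≤ C0 := by
    have := hC 1 le_rfl
    simp only [Nat.cast_one, Real.one_rpow, mul_one] at this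
    exact (sum_nonneg fun n _ => ha n).trans this
  have h1 : ∑ n ∈ Icc 1 N, (n : ℝ) ^ (-β) * a n ≤
      ∑ n ∈ Icc 1 N, ((2 : ℝ) ^ (Nat.log 2 n)) ^ (-β) * a n := by
    refine sum_le_sum fun n hn => mul_le_mul_of_nonneg_right ?_ (ha n)
    rw [mem_Icc] at hn
    have h2 : 2 ^ Nat.log 2 n ≤ n := Nat.pow_log_le_self 2 (by omega)
    have h3 : (2 : ℝ) ^ Nat.log 2 n ≤ n := by exact_mod_cast h2
    exact Real.rpow_le_rpow_of_nonpos (by positivity) h3 (by linarith)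
  have h2 : ∑ n ∈ Icc 1 N, ((2 : ℝ) ^ (Nat.log 2 n)) ^ (-β) * a n =
      ∑ j ∈ range (N + 1), ∑ n ∈ (Icc 1 N).filter (fun n => Nat.log 2 n = j),
        ((2 : ℝ) ^ (Nat.log 2 n)) ^ (-β) * a n := by
    rw [sum_fiberwise_of_maps_to]
    intro n hn
    rw [mem_Icc] at hn
    rw [mem_range]
    have := Nat.log_lt_self 2 (x := n) (by omega)
    omega
  have h3 : ∀ j ∈ range (N + 1), ∑ n ∈ (Icc 1 N).filter (fun n => Nat.log 2 n = j),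
        ((2 : ℝ) ^ (Nat.log 2 n)) ^ (-β) * a n ≤ C0 * 2 ^ α * ((2 : ℝ) ^ (α - β)) ^ j := by
    intro j _
    have h4 : ∑ n ∈ (Icc 1 N).filter (fun n => Nat.log 2 n = j),
        ((2 : ℝ) ^ (Nat.log 2 n)) ^ (-β) * a n = ((2 : ℝ) ^ j) ^ (-β) *
        ∑ n ∈ (Icc 1 N).filter (fun n => Nat.log 2 n = j), a n := by
      rw [mul_sum]
      refine sum_congr rfl fun n hn => ?_
      rw [(mem_filter.1 hn).2]
    have h5 : ∑ n ∈ (Icc 1 N).filter (fun n => Nat.log 2 n = j), a n ≤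
        ∑ n ∈ Icc 1 (2 ^ (j + 1)), a n := by
      refine sum_le_sum_of_subset_of_nonneg ?_ fun n _ _ => ha n
      intro n hn
      rw [mem_filter, mem_Icc] at hn
      rw [mem_Icc]
      refine ⟨hn.1.1, ?_⟩
      have := Nat.lt_pow_succ_log_self (b := 2) (by norm_num) n
      rw [hn.2] at this
      exact this.le
    rw [h4]
    calc ((2 : ℝ) ^ j) ^ (-β) * ∑ n ∈ (Icc 1 N).filter (fun n => Nat.log 2 n = j), a n
        ≤ ((2 : ℝ) ^ j) ^ (-β) * (C0 * ((2 ^ (j + 1) : ℕ) : ℝ) ^ α) := by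
          apply mul_le_mul_of_nonneg_left _ (by positivity)
          exact h5.trans (hC _ Nat.one_le_two_pow)
      _ = C0 * 2 ^ α * ((2 : ℝ) ^ (α - β)) ^ j := by
          push_cast
          rw [← Real.rpow_natCast 2 j, ← Real.rpow_natCast 2 (j + 1), ← Real.rpow_mul (by norm_num),
            ← Real.rpow_mul (by norm_num), ← Real.rpow_natCast _ j, ← Real.rpow_mul (by norm_num)]
          have : (2 : ℝ) ^ ((j : ℝ) * -β) * (C0 * 2 ^ (((j + 1 : ℕ) : ℝ) * α)) =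
              C0 * (2 ^ ((j : ℝ) * -β) * 2 ^ (((j + 1 : ℕ) : ℝ) * α)) := by ring
          rw [this, mul_assoc, ← Real.rpow_add (by norm_num), ← Real.rpow_add (by norm_num)]
          congr 2
          push_cast
          ring
  refine h1.trans ?_
  rw [h2]
  refine (sum_le_sum h3).trans ?_
  rw [← mul_sum]
  have h6 : ∑ j ∈ range (N + 1), ((2 : ℝ) ^ (α - β)) ^ j ≤ (1 - 2 ^ (α - β))⁻¹ := by
    rw [← tsum_geometric_of_lt_one hq0.le hq1]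
    exact (summable_geometric_of_lt_one hq0.le hq1).sum_le_tsum _ fun j _ => by positivity
  calc C0 * 2 ^ α * ∑ j ∈ range (N + 1), ((2 : ℝ) ^ (α - β)) ^ j
      ≤ C0 * 2 ^ α * (1 - 2 ^ (α - β))⁻¹ := mul_le_mul_of_nonneg_left h6 (by positivity)
    _ = _ := by ring

end Pool.Agent.W5h65.MD
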