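import Pool.Agent.W5h65.MD.A3
import Pool.Agent.H143R3.RZ5_FMa

set_option autoImplicit false

/-! Squarefree variables and square factors of the modulus. -/

namespace Pool.Agent.W5h65.MD

open Finset Filter Topology MeasureTheory Pool.Agent.H306R2.RZ Pool.Agent.H143R3.FM

/-- the sum over odd squarefree numbers -/
noncomputable def QQ (ρ : ℕ → ℂ) (n : ℕ) (g : ℝ → ℂ) (y : ℝ) : ℂ :=
  ∑' κ : ℕ, if Odd κ ∧ Squarefree κ then ρ κ * (js κ n : ℂ) * g (κ / y) else 0

lemma per_mod {ρ : ℕ → ℂ} (hρ : ∀ m, ρ (m + 8) = ρ m) (m : ℕ) : ρ (m % 8) = ρ m := by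
  have h1 : ∀ q r : ℕ, ρ (r + 8 * q) = ρ r := by
    intro q
    induction q with
    | zero => intro r; simp
    | succ q ih =>
      intro r
      have : r + 8 * (q + 1) = (r + 8 * q) + 8 := by ring
      rw [this, hρ, ih]
  have h2 := h1 (m / 8) (m % 8)
  rw [Nat.mod_add_div] at h2
  exact h2.symm

lemma per_congr {ρ : ℕ → ℂ} (hρ : ∀ m, ρ (m + 8) = ρ m) {a b : ℕ} (h : a % 8 = b % 8) : ρ a = ρ b := by
  rw [← per_mod hρ a, ← per_mod hρ b, h]

lemma odd_sq_mod {l : ℕ} (hl : Odd l) : l ^ 2 % 8 = 1 := by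
  have : l % 8 = 1 ∨ l % 8 = 3 ∨ l % 8 = 5 ∨ l % 8 = 7 := by
    rw [Nat.odd_iff] at hl
    omega
  rw [Nat.pow_mod]
  rcases this with h | h | h | h <;> rw [h]

lemma per_sq {ρ : ℕ → ℂ} (hρ : ∀ m, ρ (m + 8) = ρ m) {l : ℕ} (hl : Odd l) (m : ℕ) :
    ρ (l ^ 2 * m) = ρ m := by
  apply per_congr hρ
  rw [Nat.mul_mod, odd_sq_mod hl, one_mul, Nat.mod_mod]

lemma sq_dvd_iff {a b l : ℕ} (ha : Squarefree a) (hb : b ≠ 0) : l ^ 2 ∣ b ^ 2 * a ↔ l ∣ b := by
  constructor
  · intro h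
    have ha0 : a ≠ 0 := ha.ne_zero
    have hl : l ≠ 0 := by
      rintro rfl
      rw [zero_pow (by norm_num), zero_dvd_iff] at h
      exact (mul_ne_zero (pow_ne_zero 2 hb) ha0) h
    rw [← Nat.factorization_le_iff_dvd hl hb]
    rw [← Nat.factorization_le_iff_dvd (pow_ne_zero 2 hl) (mul_ne_zero (pow_ne_zero 2 hb) ha0)] at h
    intro p
    have h1 := h p
    rw [Nat.factorization_mul (pow_ne_zero 2 hb) ha0, Nat.factorization_pow,
      Nat.factorization_pow] at h1
    simp only [Finsupp.smul_apply, Finsupp.add_apply, smul_eq_mul] at h1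
    have h2 := ha.natFactorization_le_one p
    omega
  · intro h
    exact dvd_mul_of_dvd_left (pow_dvd_pow_of_dvd h 2) a

open ArithmeticFunction in
lemma sqf_ind {κ X : ℕ} (hκ : κ ≠ 0) (hX : κ ≤ X) :
    ∑ l ∈ (Icc 1 X).filter (fun l => l ^ 2 ∣ κ), (moebius l : ℤ) = if Squarefree κ then 1 else 0 := by
  obtain ⟨a, b, hab, ha⟩ := Nat.sq_mul_squarefree κ
  have hb : b ≠ 0 := by
    rintro rfl
    simp at hab
    exact hκ hab.symm
  have ha0 : a ≠ 0 := ha.ne_zero
  have hbX : b ≤ X := by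
    have h1 : b ≤ b ^ 2 * a := by
      calc b = b * 1 := (mul_one b).symm
        _ ≤ b ^ 2 * a := by
          have : 1 ≤ a := Nat.one_le_iff_ne_zero.2 ha0
          have h2 : 1 ≤ b := Nat.one_le_iff_ne_zero.2 hb
          nlinarith [Nat.mul_le_mul h2 this]
    omega
  have h1 : (Icc 1 X).filter (fun l => l ^ 2 ∣ κ) = b.divisors := by
    ext l
    rw [mem_filter, mem_Icc, Nat.mem_divisors, ← hab, sq_dvd_iff ha hb]
    constructor
    · rintro ⟨_, h⟩
      exact ⟨h, hb⟩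
    · rintro ⟨h, _⟩
      exact ⟨⟨Nat.pos_of_dvd_of_pos h (Nat.pos_of_ne_zero hb),
        (Nat.le_of_dvd (Nat.pos_of_ne_zero hb) h).trans hbX⟩, h⟩
  rw [h1]
  have h2 : ∑ l ∈ b.divisors, (moebius l : ℤ) = if b = 1 then 1 else 0 := by
    have h3 := congrArg (fun f : ArithmeticFunction ℤ => f b) moebius_mul_coe_zeta
    simp only [coe_mul_zeta_apply, one_apply] at h3
    exact h3
  rw [h2]
  have h3 : b = 1 ↔ Squarefree κ := by
    constructor
    · rintro rfl
      rw [← hab, one_pow, one_mul]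
      exact ha
    · intro h
      rw [← hab] at h
      have := h b (by rw [pow_two]; exact dvd_mul_right _ _)
      exact Nat.isUnit_iff.1 this
  simp only [h3]

lemma js_sq_mul (l m n : ℕ) : js ((l ^ 2 * m : ℕ) : ℤ) n = js l n ^ 2 * js m n := by
  push_cast
  rw [js_mul, pow_two, js_mul]
  ring

lemma js_sq_le (l n : ℕ) : js l n ^ 2 ≤ 1 := by
  have := js_abs l n
  rw [← sq_abs]
  exact pow_le_one₀ (abs_nonneg _) this

lemma g_zero {g : ℝ → ℂ} (hg : SS g) {y : ℝ} (hy : 0 < y) {m : ℕ} (h : 2 * y < m) :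
    g (m / y) = 0 := hg.zero (Or.inr (by rw [lt_div_iff₀ hy]; exact h))

/-- the coefficient of the square `l²` -/
noncomputable def cl (n l : ℕ) : ℂ :=
  if Odd l then ((ArithmeticFunction.moebius l : ℤ) : ℂ) * ((js l n ^ 2 : ℝ) : ℂ) else 0

lemma cl_norm (n l : ℕ) : ‖cl n l‖ ≤ 1 := by
  unfold cl
  split_ifs
  · rw [norm_mul, Complex.norm_real, Real.norm_of_nonneg (by positivity)]
    have h1 : ‖((ArithmeticFunction.moebius l : ℤ) : ℂ)‖ ≤ 1 := by
      rw [Complex.norm_intCast]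
      exact_mod_cast ArithmeticFunction.abs_moebius_le_one
    exact mul_le_one₀ h1 (by positivity) (js_sq_le l n)
  · simp

theorem QQ_eq {ρ : ℕ → ℂ} (hρ : ∀ m, ρ (m + 8) = ρ m) (n : ℕ) {g : ℝ → ℂ} (hg : SS g) {y : ℝ}
    (hy : 0 < y) {X : ℕ} (hX : 2 * y ≤ X) :
    QQ ρ n g y = ∑ l ∈ Icc 1 X, cl n l * UU ρ n g (y / l ^ 2) := by
  have hz : ∀ κ : ℕ, κ ∉ Icc 1 X → (if Odd κ ∧ Squarefree κ then ρ κ * (js κ n : ℂ) * g (κ / y)
      else 0) = 0 := by
    intro κ hκ
    rw [mem_Icc, not_and_or, not_le, not_le] at hκ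
    rcases hκ with h | h
    · have : κ = 0 := by omega
      subst this
      simp
    · have : (X : ℝ) < κ := by exact_mod_cast h
      rw [g_zero hg hy (by linarith)]
      simp
  unfold QQ
  rw [tsum_eq_sum hz]
  have h1 : ∀ κ ∈ Icc 1 X, (if Odd κ ∧ Squarefree κ then ρ κ * (js κ n : ℂ) * g (κ / y) else 0) =
      ∑ l ∈ Icc 1 X, if l ^ 2 ∣ κ then ((ArithmeticFunction.moebius l : ℤ) : ℂ) *
        (if Odd κ then ρ κ * (js κ n : ℂ) * g (κ / y) else 0) else 0 := by
    intro κ hκ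
    rw [mem_Icc] at hκ
    rw [← sum_filter, ← sum_mul, ← Int.cast_sum, sqf_ind (by omega) hκ.2]
    by_cases h2 : Odd κ <;> by_cases h3 : Squarefree κ <;> simp [h2, h3]
  rw [sum_congr rfl h1, sum_comm]
  refine sum_congr rfl fun l hl => ?_
  rw [mem_Icc] at hl
  have hl0 : (0 : ℝ) < l := by exact_mod_cast hl.1
  -- back to an infinite sum
  have h2 : ∑ κ ∈ Icc 1 X, (if l ^ 2 ∣ κ then ((ArithmeticFunction.moebius l : ℤ) : ℂ) *
      (if Odd κ then ρ κ * (js κ n : ℂ) * g (κ / y) else 0) else 0) =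
      ∑' κ : ℕ, (if l ^ 2 ∣ κ then ((ArithmeticFunction.moebius l : ℤ) : ℂ) *
      (if Odd κ then ρ κ * (js κ n : ℂ) * g (κ / y) else 0) else 0) := by
    symm
    apply tsum_eq_sum
    intro κ hκ
    rw [mem_Icc, not_and_or, not_le, not_le] at hκ
    rcases hκ with h | h
    · have : κ = 0 := by omega
      subst this
      simp
    · have : (X : ℝ) < κ := by exact_mod_cast h
      rw [g_zero hg hy (by linarith)]
      simp
  rw [h2]
  have hinj : Function.Injective (fun m : ℕ => l ^ 2 * m) := by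
    intro a b hab
    exact Nat.eq_of_mul_eq_mul_left (pow_pos hl.1 2) hab
  have h3 := hinj.tsum_eq (f := fun κ : ℕ => (if l ^ 2 ∣ κ then
      ((ArithmeticFunction.moebius l : ℤ) : ℂ) *
      (if Odd κ then ρ κ * (js κ n : ℂ) * g (κ / y) else 0) else 0)) (by
    intro κ hκ
    rw [Function.mem_support] at hκ
    by_contra h4
    apply hκ
    rw [if_neg]
    rintro ⟨m, rfl⟩
    exact h4 ⟨m, rfl⟩)
  rw [← h3]
  unfold cl UU
  by_cases ho : Odd l
  · rw [if_pos ho, ← tsum_mul_left]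
    refine tsum_congr fun m => ?_
    rw [if_pos (dvd_mul_right _ _)]
    by_cases hm : Odd m
    · rw [if_pos hm, if_pos ((ho.pow).mul hm), per_sq hρ ho, js_sq_mul]
      have e : ((l ^ 2 * m : ℕ) : ℝ) / y = m / (y / l ^ 2) := by
        push_cast
        field_simp
      rw [e]
      push_cast
      ring
    · rw [if_neg hm, if_neg (fun h => hm (Nat.odd_mul.1 h).2), mul_zero, mul_zero]
  · rw [if_neg ho, zero_mul]
    convert tsum_zero with m
    rw [if_pos (dvd_mul_right _ _), if_neg (fun h => ho ((Nat.odd_pow_iff (by norm_num)).1 (Nat.odd_mul.1 h).1)),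
      mul_zero]

lemma js_sq_ind {m r : ℕ} (hr : r ≠ 0) :
    js (m : ℤ) r ^ 2 = ∑ e ∈ r.divisors.filter (fun e => e ∣ m), ((ArithmeticFunction.moebius e : ℤ) : ℝ) := by
  have h1 : r.divisors.filter (fun e => e ∣ m) = (Nat.gcd m r).divisors := by
    ext e
    rw [mem_filter, Nat.mem_divisors, Nat.mem_divisors, Nat.dvd_gcd_iff]
    constructor
    · rintro ⟨⟨h1, _⟩, h2⟩
      exact ⟨⟨h2, h1⟩, (Nat.gcd_pos_of_pos_right _ (Nat.pos_of_ne_zero hr)).ne'⟩
    · rintro ⟨⟨h1, h2⟩, _⟩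
      exact ⟨⟨h2, hr⟩, h1⟩
  rw [h1]
  have h2 : ∑ l ∈ (Nat.gcd m r).divisors, (ArithmeticFunction.moebius l : ℤ) =
      if Nat.gcd m r = 1 then 1 else 0 := by
    have h3 := congrArg (fun f : ArithmeticFunction ℤ => f (Nat.gcd m r))
      ArithmeticFunction.moebius_mul_coe_zeta
    simp only [ArithmeticFunction.coe_mul_zeta_apply, ArithmeticFunction.one_apply] at h3
    exact h3
  rw [← Int.cast_sum, h2]
  unfold js
  by_cases h : Nat.gcd m r = 1
  · rw [if_pos h]
    have h4 : jacobiSym m r ^ 2 = 1 := by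
      have : ((m : ℤ)).gcd r = 1 := by
        rw [Int.gcd_natCast_natCast]
        exact h
      exact jacobiSym.sq_one this
    push_cast
    exact_mod_cast h4
  · rw [if_neg h]
    have h4 : jacobiSym m r = 0 := by
      have : NeZero r := ⟨hr⟩
      rw [jacobiSym.eq_zero_iff_not_coprime, Int.gcd_natCast_natCast]
      exact h
    rw [h4]
    simp

lemma js_mul_sq (m n0 r : ℕ) (hn : n0 ≠ 0) (hr : r ≠ 0) :
    js (m : ℤ) (n0 * r ^ 2) = js m n0 * js m r ^ 2 := by
  have : NeZero n0 := ⟨hn⟩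
  have : NeZero r := ⟨hr⟩
  have : NeZero (r ^ 2) := ⟨pow_ne_zero 2 hr⟩
  unfold js
  rw [jacobiSym.mul_right, jacobiSym.pow_right]
  push_cast
  ring

lemma UU_summable (ρ : ℕ → ℂ) (n : ℕ) {g : ℝ → ℂ} (hg : SS g) {y : ℝ} (hy : 0 < y) :
    Summable (fun m : ℕ => if Odd m then ρ m * (js m n : ℂ) * g (m / y) else 0) := by
  refine summable_of_ne_finset_zero (s := range (⌊2 * y⌋₊ + 1)) ?_
  intro m hm
  rw [mem_range, not_lt] at hm
  have h1 : 2 * y < m := by
    have h2 : ⌊2 * y⌋₊ < m := by omega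
    exact (Nat.floor_lt (by positivity)).1 h2
  rw [g_zero hg hy h1]
  simp

theorem UU_sq {ρ : ℕ → ℂ} (n0 r : ℕ) (hn : n0 ≠ 0) (hr : Odd r) {g : ℝ → ℂ} (hg : SS g)
    {y : ℝ} (hy : 0 < y) :
    UU ρ (n0 * r ^ 2) g y = ∑ e ∈ r.divisors, ((ArithmeticFunction.moebius e : ℤ) : ℂ) *
      (js e n0 : ℂ) * UU (fun m => ρ (e * m)) n0 g (y / e) := by
  have hr0 : r ≠ 0 := by rintro rfl; simp at hr
  have h1 : ∀ m : ℕ, (if Odd m then ρ m * (js m (n0 * r ^ 2) : ℂ) * g (m / y) else 0) =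
      ∑ e ∈ r.divisors, if e ∣ m then ((ArithmeticFunction.moebius e : ℤ) : ℂ) *
        (if Odd m then ρ m * (js m n0 : ℂ) * g (m / y) else 0) else 0 := by
    intro m
    rw [← sum_filter, ← sum_mul, ← Int.cast_sum]
    split_ifs with h
    · rw [js_mul_sq m n0 r hn hr0, js_sq_ind hr0]
      push_cast
      ring
    · rw [mul_zero]
  unfold UU
  rw [tsum_congr h1, Summable.tsum_finsetSum]
  · refine sum_congr rfl fun e he => ?_
    rw [Nat.mem_divisors] at he
    have heo : Odd e := Odd.of_dvd_nat hr he.1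
    have he0 : 0 < e := heo.pos
    have he1 : (0 : ℝ) < e := by exact_mod_cast he0
    have hinj : Function.Injective (fun m : ℕ => e * m) := fun a b hab =>
      Nat.eq_of_mul_eq_mul_left he0 hab
    have h3 := hinj.tsum_eq (f := fun m : ℕ => (if e ∣ m then
        ((ArithmeticFunction.moebius e : ℤ) : ℂ) *
        (if Odd m then ρ m * (js m n0 : ℂ) * g (m / y) else 0) else 0)) (by
      intro κ hκ
      rw [Function.mem_support] at hκ
      by_contra h4
      apply hκ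
      rw [if_neg]
      rintro ⟨m, rfl⟩
      exact h4 ⟨m, rfl⟩)
    rw [← h3, ← tsum_mul_left]
    refine tsum_congr fun m => ?_
    rw [if_pos (dvd_mul_right _ _)]
    by_cases hm : Odd m
    · rw [if_pos hm, if_pos (heo.mul hm)]
      have e1 : ((e * m : ℕ) : ℝ) / y = m / (y / e) := by
        push_cast
        field_simp
      have e2 : js ((e * m : ℕ) : ℤ) n0 = js e n0 * js m n0 := by
        push_cast
        exact js_mul _ _ _
      rw [e1, e2]
      push_cast
      ring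
    · rw [if_neg hm, if_neg (fun h => hm (Nat.odd_mul.1 h).2), mul_zero, mul_zero]
  · intro e _
    refine Summable.of_norm_bounded_eventually_nat
      (g := fun m => ‖(if Odd m then ρ m * (js m n0 : ℂ) * g (m / y) else 0)‖)
      (UU_summable ρ n0 hg hy).norm ?_
    refine Eventually.of_forall fun m => ?_
    split_ifs
    · rw [norm_mul]
      have : ‖((ArithmeticFunction.moebius e : ℤ) : ℂ)‖ ≤ 1 := by
        rw [Complex.norm_intCast]
        exact_mod_cast ArithmeticFunction.abs_moebius_le_one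
      exact mul_le_of_le_one_left (norm_nonneg _) this
    · simp
    · rw [norm_zero]
      exact norm_nonneg _
    · simp

end Pool.Agent.W5h65.MD
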