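import Pool.Agent.W5h65.MD.A4

set_option autoImplicit false

/-! The sums over odd squarefree numbers: average bounds, and the main term for square moduli. -/

namespace Pool.Agent.W5h65.MD

open Finset Filter Topology MeasureTheory Pool.Agent.H306R2.RZ Pool.Agent.H143R3.FM

lemma UU_zero (ρ : ℕ → ℂ) (n : ℕ) {g : ℝ → ℂ} (hg : SS g) {y : ℝ} (hy : 0 < y) (h : y < 1 / 2) :
    UU ρ n g y = 0 := by
  unfold UU
  convert tsum_zero with m
  split_ifs with hm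
  · have h1 : (1 : ℝ) ≤ m := by exact_mod_cast hm.pos
    rw [g_zero hg hy (by linarith), mul_zero]
  · rfl

lemma card_div_le (r : ℕ) : (r.divisors.card : ℝ) ≤ r := by exact_mod_cast Nat.card_divisors_le_self r

lemma sum_rpow_le {ε : ℝ} (hε : 0 < ε) (X : ℕ) :
    ∑ l ∈ Icc 1 X, (l : ℝ) ^ (-(1 + ε)) ≤ ∑' l : ℕ, (l : ℝ) ^ (-(1 + ε)) :=
  (Real.summable_nat_rpow.2 (by linarith)).sum_le_tsum _ fun l _ => by positivity

lemma UU_sq_norm {ρ : ℕ → ℂ} (n0 r : ℕ) (hn : n0 ≠ 0) (hr : Odd r) {g : ℝ → ℂ} (hg : SS g)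
    {y : ℝ} (hy : 0 < y) :
    ‖UU ρ (n0 * r ^ 2) g y‖ ≤ ∑ e ∈ r.divisors, ‖UU (fun m => ρ (e * m)) n0 g (y / e)‖ := by
  rw [UU_sq n0 r hn hr hg hy]
  refine (norm_sum_le _ _).trans (sum_le_sum fun e _ => ?_)
  rw [norm_mul, norm_mul, Complex.norm_real]
  have h1 : ‖((ArithmeticFunction.moebius e : ℤ) : ℂ)‖ ≤ 1 := by
    rw [Complex.norm_intCast]
    exact_mod_cast ArithmeticFunction.abs_moebius_le_one
  have h2 : ‖js e n0‖ ≤ 1 := js_abs _ _
  have h3 : ‖((ArithmeticFunction.moebius e : ℤ) : ℂ)‖ * ‖js e n0‖ ≤ 1 :=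
    mul_le_one₀ h1 (norm_nonneg _) h2
  exact mul_le_of_le_one_left (norm_nonneg _) h3

theorem ns_bound (ε B : ℝ) (hε : 0 < ε) : ∃ (C : ℝ) (A : ℕ), 0 < C ∧ ∀ (ρ : ℕ → ℂ) (r N : ℕ) (y : ℝ)
    (s : ℂ), (∀ m, ‖ρ m‖ ≤ 1) → (∀ m, ρ (m + 8) = ρ m) → Odd r → 0 < y → |s.re| ≤ B →
    ∑ n0 ∈ (osf N).filter (fun n => 1 < n), (n0 : ℝ) ^ (-(1 + ε)) *
      ‖QQ ρ (n0 * r ^ 2) (cs PH s) y‖ ≤ C * (1 + ‖s‖) ^ A * (r * y ^ (1 / 2 + ε / 2)) := by
  obtain ⟨C, A, hC, h⟩ := nm1 (ε / 2) B (by positivity)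
  obtain ⟨C1, hC1, h1⟩ := wsum (1 + ε / 2) (1 + ε) (by positivity) (by linarith)
  set Z := ∑' l : ℕ, (l : ℝ) ^ (-(1 + ε)) with hZ
  have hZ0 : 0 ≤ Z := tsum_nonneg fun l => by positivity
  refine ⟨C1 * C * (Z + 1), A, by positivity, ?_⟩
  intro ρ r N y s hρ1 hρ hr hy hs
  have hg : SS (cs PH s) := PH_SS.cs s
  obtain ⟨X, hX⟩ := exists_nat_ge (2 * y)
  have hr0 : 0 < r := hr.pos
  -- the basic estimate
  have key : ∀ (ρ' : ℕ → ℂ) (y' : ℝ), (∀ m, ‖ρ' m‖ ≤ 1) → (∀ m, ρ' (m + 8) = ρ' m) → 0 < y' →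
      ∑ n0 ∈ (osf N).filter (fun n => 1 < n), (n0 : ℝ) ^ (-(1 + ε)) * ‖UU ρ' n0 (cs PH s) y'‖ ≤
        C1 * (C * (1 + ‖s‖) ^ A * y' ^ (1 / 2 + ε / 2)) := by
    intro ρ' y' h2 h3 hy'
    rcases lt_or_ge y' (1 / 2) with h4 | h4
    · have : ∀ n0 ∈ (osf N).filter (fun n => 1 < n), (n0 : ℝ) ^ (-(1 + ε)) *
          ‖UU ρ' n0 (cs PH s) y'‖ = 0 := by
        intro n0 _
        rw [UU_zero ρ' n0 hg hy' h4, norm_zero, mul_zero]
      rw [sum_congr rfl this, sum_const_zero]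
      positivity
    · have h5 := h1 (fun n => if (Odd n ∧ Squarefree n) ∧ 1 < n then ‖UU ρ' n (cs PH s) y'‖ else 0)
        (fun n => by split_ifs <;> positivity) (C * (1 + ‖s‖) ^ A * y' ^ (1 / 2 + ε / 2))
        (fun K hK => by
          have h6 := h K y' ρ' s hK h4 h2 h3 hs
          rw [osf, filter_filter, sum_filter] at h6
          refine h6.trans (le_of_eq ?_)
          ring) N
      refine le_trans (le_of_eq ?_) h5
      rw [osf, filter_filter, sum_filter]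
      refine sum_congr rfl fun n _ => ?_
      split_ifs <;> simp
  -- the decomposition
  have h2 : ∀ n0 ∈ (osf N).filter (fun n => 1 < n), (n0 : ℝ) ^ (-(1 + ε)) *
      ‖QQ ρ (n0 * r ^ 2) (cs PH s) y‖ ≤ ∑ l ∈ Icc 1 X, ∑ e ∈ r.divisors,
        (n0 : ℝ) ^ (-(1 + ε)) * ‖UU (fun m => ρ (e * m)) n0 (cs PH s) (y / l ^ 2 / e)‖ := by
    intro n0 hn0
    have hn1 : n0 ≠ 0 := by
      have := (mem_filter.1 hn0).2
      omega
    rw [QQ_eq hρ _ hg hy hX]
    have h3 : ‖∑ l ∈ Icc 1 X, cl (n0 * r ^ 2) l * UU ρ (n0 * r ^ 2) (cs PH s) (y / l ^ 2)‖ ≤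
        ∑ l ∈ Icc 1 X, ∑ e ∈ r.divisors, ‖UU (fun m => ρ (e * m)) n0 (cs PH s) (y / l ^ 2 / e)‖ := by
      refine (norm_sum_le _ _).trans (sum_le_sum fun l hl => ?_)
      rw [mem_Icc] at hl
      have hl0 : (0 : ℝ) < l := by exact_mod_cast hl.1
      rw [norm_mul]
      exact (mul_le_of_le_one_left (norm_nonneg _) (cl_norm _ _)).trans
        (UU_sq_norm n0 r hn1 hr hg (by positivity))
    calc _ ≤ (n0 : ℝ) ^ (-(1 + ε)) * (∑ l ∈ Icc 1 X, ∑ e ∈ r.divisors,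
          ‖UU (fun m => ρ (e * m)) n0 (cs PH s) (y / l ^ 2 / e)‖) :=
          mul_le_mul_of_nonneg_left h3 (by positivity)
      _ = _ := by
          rw [mul_sum]
          exact sum_congr rfl fun l _ => mul_sum _ _ _
  refine (sum_le_sum h2).trans ?_
  rw [sum_comm]
  have h3 : ∀ l ∈ Icc 1 X, ∑ n0 ∈ (osf N).filter (fun n => 1 < n), ∑ e ∈ r.divisors,
      (n0 : ℝ) ^ (-(1 + ε)) * ‖UU (fun m => ρ (e * m)) n0 (cs PH s) (y / l ^ 2 / e)‖ ≤
      (r : ℝ) * (C1 * (C * (1 + ‖s‖) ^ A * (y ^ (1 / 2 + ε / 2) * (l : ℝ) ^ (-(1 + ε))))) := by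
    intro l hl
    rw [mem_Icc] at hl
    have hl0 : (0 : ℝ) < l := by exact_mod_cast hl.1
    rw [sum_comm]
    have h4 : ∀ e ∈ r.divisors, ∑ n0 ∈ (osf N).filter (fun n => 1 < n),
        (n0 : ℝ) ^ (-(1 + ε)) * ‖UU (fun m => ρ (e * m)) n0 (cs PH s) (y / l ^ 2 / e)‖ ≤
        C1 * (C * (1 + ‖s‖) ^ A * (y ^ (1 / 2 + ε / 2) * (l : ℝ) ^ (-(1 + ε)))) := by
      intro e he
      have he0 : 0 < e := Nat.pos_of_mem_divisors he
      have he1 : (1 : ℝ) ≤ e := by exact_mod_cast he0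
      refine (key _ _ (fun m => hρ1 _) (fun m => ?_) (by positivity)).trans ?_
      · have : e * (m + 8) = e * m + 8 * e := by ring
        rw [this]
        apply per_congr hρ
        omega
      · gcongr
        have h5 : y / l ^ 2 / e ≤ y / l ^ 2 := div_le_self (by positivity) he1
        calc (y / l ^ 2 / e) ^ (1 / 2 + ε / 2) ≤ (y / l ^ 2) ^ (1 / 2 + ε / 2) :=
              Real.rpow_le_rpow (by positivity) h5 (by positivity)
          _ = y ^ (1 / 2 + ε / 2) * (l : ℝ) ^ (-(1 + ε)) := by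
              rw [Real.div_rpow hy.le (by positivity), ← Real.rpow_natCast (l : ℝ) 2,
                ← Real.rpow_mul hl0.le, Real.rpow_neg hl0.le, div_eq_mul_inv]
              congr 3
              push_cast
              ring
    refine (sum_le_sum h4).trans ?_
    rw [sum_const, nsmul_eq_mul]
    exact mul_le_mul_of_nonneg_right (card_div_le r) (by positivity)
  refine (sum_le_sum h3).trans ?_
  have e1 : ∀ l : ℕ, (r : ℝ) * (C1 * (C * (1 + ‖s‖) ^ A * (y ^ (1 / 2 + ε / 2) *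
      (l : ℝ) ^ (-(1 + ε))))) = (r * C1 * C * (1 + ‖s‖) ^ A * y ^ (1 / 2 + ε / 2)) *
      (l : ℝ) ^ (-(1 + ε)) := fun l => by ring
  simp only [e1]
  rw [← mul_sum]
  calc (r * C1 * C * (1 + ‖s‖) ^ A * y ^ (1 / 2 + ε / 2)) * ∑ l ∈ Icc 1 X, (l : ℝ) ^ (-(1 + ε))
      ≤ (r * C1 * C * (1 + ‖s‖) ^ A * y ^ (1 / 2 + ε / 2)) * (Z + 1) := by
        apply mul_le_mul_of_nonneg_left _ (by positivity)
        have := sum_rpow_le hε X
        linarith
    _ = _ := by ring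

/-! ### square moduli -/

/-- restriction to odd numbers -/
noncomputable def od (ρ : ℕ → ℂ) (m : ℕ) : ℂ := if Odd m then ρ m else 0

lemma od_per {ρ : ℕ → ℂ} (hρ : ∀ m, ρ (m + 8) = ρ m) (m : ℕ) : od ρ (m + 8) = od ρ m := by
  unfold od
  rw [hρ]
  have : Odd (m + 8) ↔ Odd m := by
    rw [Nat.odd_add]
    simp [show Even 8 by decide]
  simp only [this]

lemma od_norm {ρ : ℕ → ℂ} (h : ∀ m, ‖ρ m‖ ≤ 1) (m : ℕ) : ‖od ρ m‖ ≤ 1 := by
  unfold od
  split_ifs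
  · exact h m
  · simp

lemma mean_od (ρ : ℕ → ℂ) : mean (od ρ) = (ρ 1 + ρ 3 + ρ 5 + ρ 7) / 8 := by
  unfold mean od
  simp only [sum_range_succ, sum_range_zero]
  norm_num [show ¬ Odd 0 by decide, show Odd 1 by decide, show ¬ Odd 2 by decide,
    show Odd 3 by decide, show ¬ Odd 4 by decide, show Odd 5 by decide, show ¬ Odd 6 by decide,
    show Odd 7 by decide]

lemma mean_mul {ρ : ℕ → ℂ} (hρ : ∀ m, ρ (m + 8) = ρ m) {e : ℕ} (he : Odd e) :
    mean (od (fun m => ρ (e * m))) = mean (od ρ) := by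
  rw [mean_od, mean_od]
  have h : e % 8 = 1 ∨ e % 8 = 3 ∨ e % 8 = 5 ∨ e % 8 = 7 := by
    rw [Nat.odd_iff] at he
    omega
  have hc : ∀ a b : ℕ, (e % 8 * a) % 8 = b % 8 → ρ (e * a) = ρ b := by
    intro a b hab
    apply per_congr hρ
    rw [Nat.mul_mod, ← hab, Nat.mul_mod (e % 8) a, Nat.mod_mod]
  rcases h with h | h | h | h
  · rw [hc 1 1 (by rw [h]), hc 3 3 (by rw [h]), hc 5 5 (by rw [h]), hc 7 7 (by rw [h])]
  · rw [hc 1 3 (by rw [h]), hc 3 1 (by rw [h]), hc 5 7 (by rw [h]), hc 7 5 (by rw [h])]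
    ring
  · rw [hc 1 5 (by rw [h]), hc 3 7 (by rw [h]), hc 5 1 (by rw [h]), hc 7 3 (by rw [h])]
    ring
  · rw [hc 1 7 (by rw [h]), hc 3 5 (by rw [h]), hc 5 3 (by rw [h]), hc 7 1 (by rw [h])]
    ring

lemma mean_norm {ρ : ℕ → ℂ} (h : ∀ m, ‖ρ m‖ ≤ 1) : ‖mean (od ρ)‖ ≤ 1 := by
  unfold mean
  rw [norm_div]
  have h1 : ‖∑ k ∈ range 8, od ρ k‖ ≤ 8 := by
    calc _ ≤ ∑ k ∈ range 8, ‖od ρ k‖ := norm_sum_le _ _
      _ ≤ ∑ k ∈ range 8, (1 : ℝ) := sum_le_sum fun k _ => od_norm h k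
      _ = 8 := by simp
  have h2 : ‖(8 : ℂ)‖ = 8 := by norm_num
  rw [h2, div_le_one (by norm_num)]
  exact h1

lemma UU_one (ρ : ℕ → ℂ) (g : ℝ → ℂ) (y : ℝ) : UU ρ 1 g y = ∑' m : ℕ, od ρ m * g (m / y) := by
  unfold UU od
  refine tsum_congr fun m => ?_
  have : js m 1 = 1 := by
    unfold js
    rw [jacobiSym.one_right]
    norm_num
  split_ifs <;> simp [this]

/-- `∑_{e | r} μ(e)/e` -/
noncomputable def tt (r : ℕ) : ℂ := ∑ e ∈ r.divisors, ((ArithmeticFunction.moebius e : ℤ) : ℂ) / e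

/-- the arithmetic constant of the main term -/
noncomputable def cS (r : ℕ) : ℂ := (∑' l : ℕ, cl (r ^ 2) l / (l : ℂ) ^ 2) * tt r

lemma tt_norm (r : ℕ) : ‖tt r‖ ≤ r.divisors.card := by
  unfold tt
  calc _ ≤ ∑ e ∈ r.divisors, ‖((ArithmeticFunction.moebius e : ℤ) : ℂ) / e‖ := norm_sum_le _ _
    _ ≤ ∑ e ∈ r.divisors, (1 : ℝ) := by
        refine sum_le_sum fun e he => ?_
        have he0 : 0 < e := Nat.pos_of_mem_divisors he
        have he1 : (1 : ℝ) ≤ e := by exact_mod_cast he0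
        rw [norm_div, Complex.norm_natCast, div_le_one (by linarith)]
        have h1 : ‖((ArithmeticFunction.moebius e : ℤ) : ℂ)‖ ≤ 1 := by
          rw [Complex.norm_intCast]
          exact_mod_cast ArithmeticFunction.abs_moebius_le_one
        linarith
    _ = _ := by simp

lemma cl_div_norm (n l : ℕ) : ‖cl n l / (l : ℂ) ^ 2‖ ≤ (l : ℝ) ^ (-(2 : ℝ)) := by
  rw [norm_div, norm_pow, Complex.norm_natCast, Real.rpow_neg (by positivity), div_eq_mul_inv]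
  have : (l : ℝ) ^ (2 : ℝ) = (l : ℝ) ^ 2 := by norm_cast
  rw [this]
  exact mul_le_of_le_one_left (by positivity) (cl_norm n l)

lemma cl_summable (n : ℕ) : Summable (fun l : ℕ => cl n l / (l : ℂ) ^ 2) :=
  Summable.of_norm_bounded (Real.summable_nat_rpow.2 (by norm_num)) (cl_div_norm n)

lemma cS_norm : ∃ C : ℝ, 0 < C ∧ ∀ r, ‖cS r‖ ≤ C * r.divisors.card := by
  refine ⟨∑' l : ℕ, (l : ℝ) ^ (-(2 : ℝ)) + 1, ?_, fun r => ?_⟩
  · have : 0 ≤ ∑' l : ℕ, (l : ℝ) ^ (-(2 : ℝ)) := tsum_nonneg fun l => by positivity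
    linarith
  · unfold cS
    rw [norm_mul]
    refine mul_le_mul ?_ (tt_norm r) (norm_nonneg _) ?_
    · have := tsum_of_norm_bounded (Real.summable_nat_rpow.2 (by norm_num : -(2:ℝ) < -1)).hasSum
        (cl_div_norm (r ^ 2))
      linarith
    · have : 0 ≤ ∑' l : ℕ, (l : ℝ) ^ (-(2 : ℝ)) := tsum_nonneg fun l => by positivity
      linarith

theorem sq_main (ε B : ℝ) (hε : 0 < ε) (hε1 : ε ≤ 1) : ∃ C : ℝ, 0 < C ∧ ∀ (ρ : ℕ → ℂ) (r : ℕ)
    (y : ℝ) (s : ℂ), (∀ m, ‖ρ m‖ ≤ 1) → (∀ m, ρ (m + 8) = ρ m) → Odd r → 0 < y → |s.re| ≤ B →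
    ‖QQ ρ (r ^ 2) (cs PH s) y - mean (od ρ) * y * II (cs PH s) * cS r‖ ≤
      C * (1 + ‖s‖) * (r * y ^ (1 / 2 + ε / 2)) := by
  obtain ⟨C0, hC0, h0⟩ := VV_bound B PH PH_SS
  set Z := ∑' l : ℕ, (l : ℝ) ^ (-(1 + ε)) with hZ
  have hZ0 : 0 ≤ Z := tsum_nonneg fun l => by positivity
  refine ⟨17 * C0 * 2 * (Z + 1), by positivity, ?_⟩
  intro ρ r y s hρ1 hρ hr hy hs
  have hg : SS (cs PH s) := PH_SS.cs s
  obtain ⟨hV, hI⟩ := h0 s hs
  have hs1 : 1 ≤ 1 + ‖s‖ := by linarith [norm_nonneg s]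
  have hr0 : 0 < r := hr.pos
  have hr1 : (1 : ℝ) ≤ r := by exact_mod_cast hr0
  obtain ⟨X, hX⟩ := exists_nat_ge (2 * y)
  -- the error for one l
  have herr : ∀ l : ℕ, 1 ≤ l → ‖UU ρ (r ^ 2) (cs PH s) (y / l ^ 2) -
      mean (od ρ) * (y / l ^ 2 : ℝ) * II (cs PH s) * tt r‖ ≤
      17 * C0 * (1 + ‖s‖) * r * ((2 * y) ^ (1 / 2 + ε / 2) * (l : ℝ) ^ (-(1 + ε))) := by
    intro l hl
    have hl0 : (0 : ℝ) < l := by exact_mod_cast hl
    have hy' : 0 < y / l ^ 2 := by positivity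
    have e1 : (2 * y) ^ (1 / 2 + ε / 2) * (l : ℝ) ^ (-(1 + ε)) =
        (2 * (y / l ^ 2)) ^ (1 / 2 + ε / 2) := by
      rw [← mul_div_assoc, Real.div_rpow (by positivity) (by positivity),
        ← Real.rpow_natCast (l : ℝ) 2, ← Real.rpow_mul hl0.le, Real.rpow_neg hl0.le, div_eq_mul_inv]
      congr 3
      push_cast
      ring
    rw [e1]
    rcases lt_or_ge (y / l ^ 2) (1 / 2) with h4 | h4
    · rw [UU_zero ρ _ hg hy' h4, zero_sub, norm_neg, norm_mul, norm_mul, norm_mul,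
        Complex.norm_real, Real.norm_of_nonneg hy'.le]
      have h5 : ‖tt r‖ ≤ r := (tt_norm r).trans (card_div_le r)
      have h6 : 2 * (y / l ^ 2) ≤ (2 * (y / l ^ 2)) ^ (1 / 2 + ε / 2) := by
        have h7 : 2 * (y / l ^ 2) ≤ 1 := by linarith
        calc 2 * (y / l ^ 2) = (2 * (y / l ^ 2)) ^ (1 : ℝ) := (Real.rpow_one _).symm
          _ ≤ _ := Real.rpow_le_rpow_of_exponent_ge (by positivity) h7 (by linarith)
      calc ‖mean (od ρ)‖ * (y / l ^ 2) * ‖II (cs PH s)‖ * ‖tt r‖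
          ≤ 1 * (2 * (y / l ^ 2)) * C0 * r := by
            gcongr
            · exact mean_norm hρ1
            · linarith
        _ ≤ 1 * (2 * (y / l ^ 2)) ^ (1 / 2 + ε / 2) * C0 * r := by gcongr
        _ = 1 * C0 * 1 * r * (2 * (y / l ^ 2)) ^ (1 / 2 + ε / 2) := by ring
        _ ≤ 17 * C0 * (1 + ‖s‖) * r * (2 * (y / l ^ 2)) ^ (1 / 2 + ε / 2) := by
            gcongr
            norm_num
    · have h5 : r ^ 2 = 1 * r ^ 2 := (one_mul _).symm
      rw [h5, UU_sq 1 r one_ne_zero hr hg hy']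
      unfold tt
      rw [mul_sum, ← sum_sub_distrib]
      have h6 : ∀ e ∈ r.divisors, ‖((ArithmeticFunction.moebius e : ℤ) : ℂ) * (js e 1 : ℂ) *
          UU (fun m => ρ (e * m)) 1 (cs PH s) (y / l ^ 2 / e) -
          mean (od ρ) * (y / l ^ 2 : ℝ) * II (cs PH s) *
            (((ArithmeticFunction.moebius e : ℤ) : ℂ) / e)‖ ≤ 16 * (C0 * (1 + ‖s‖)) := by
        intro e he
        have he0 : 0 < e := Nat.pos_of_mem_divisors he
        have he1 : (0 : ℝ) < e := by exact_mod_cast he0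
        have heo : Odd e := Odd.of_dvd_nat hr (Nat.dvd_of_mem_divisors he)
        have hj : js e 1 = 1 := by
          unfold js
          rw [jacobiSym.one_right]
          norm_num
        have hper : ∀ m, (fun m => ρ (e * m)) (m + 8) = (fun m => ρ (e * m)) m := by
          intro m
          show ρ (e * (m + 8)) = ρ (e * m)
          have : e * (m + 8) = e * m + 8 * e := by ring
          rw [this]
          apply per_congr hρ
          omega
        have h7 := per_sum hg (od_per hper) (od_norm (ρ := fun m => ρ (e * m)) fun m => hρ1 _)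
          (t := y / l ^ 2 / e) (by positivity)
        rw [mean_mul hρ heo] at h7
        have e2 : ((ArithmeticFunction.moebius e : ℤ) : ℂ) * (js e 1 : ℂ) *
            UU (fun m => ρ (e * m)) 1 (cs PH s) (y / l ^ 2 / e) -
            mean (od ρ) * (y / l ^ 2 : ℝ) * II (cs PH s) *
            (((ArithmeticFunction.moebius e : ℤ) : ℂ) / e) =
            ((ArithmeticFunction.moebius e : ℤ) : ℂ) *
            (∑' m : ℕ, od (fun m => ρ (e * m)) m * cs PH s (m / (y / l ^ 2 / e)) -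
              mean (od ρ) * ((y / l ^ 2 / e : ℝ) : ℂ) * II (cs PH s)) := by
          rw [UU_one, hj]
          push_cast
          ring
        rw [e2, norm_mul]
        have h8 : ‖((ArithmeticFunction.moebius e : ℤ) : ℂ)‖ ≤ 1 := by
          rw [Complex.norm_intCast]
          exact_mod_cast ArithmeticFunction.abs_moebius_le_one
        calc _ ≤ 1 * (16 * VV (cs PH s)) := mul_le_mul h8 h7 (norm_nonneg _) zero_le_one
          _ ≤ _ := by linarith
      have h9 : 1 ≤ (2 * (y / l ^ 2)) ^ (1 / 2 + ε / 2) :=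
        Real.one_le_rpow (by linarith) (by positivity)
      calc _ ≤ ∑ e ∈ r.divisors, 16 * (C0 * (1 + ‖s‖)) :=
            (norm_sum_le _ _).trans (sum_le_sum h6)
        _ = r.divisors.card * (16 * (C0 * (1 + ‖s‖))) := by rw [sum_const, nsmul_eq_mul]
        _ ≤ r * (16 * (C0 * (1 + ‖s‖))) :=
            mul_le_mul_of_nonneg_right (card_div_le r) (by positivity)
        _ = 16 * C0 * (1 + ‖s‖) * r * 1 := by ring
        _ ≤ 17 * C0 * (1 + ‖s‖) * r * (2 * (y / l ^ 2)) ^ (1 / 2 + ε / 2) := by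
            gcongr
            norm_num
  -- summation over l
  have hsumm1 : Summable (fun l : ℕ => cl (r ^ 2) l * UU ρ (r ^ 2) (cs PH s) (y / l ^ 2)) := by
    refine summable_of_ne_finset_zero (s := Icc 1 X) fun l hl => ?_
    rw [mem_Icc, not_and_or, not_le, not_le] at hl
    rcases hl with h | h
    · have : l = 0 := by omega
      subst this
      unfold cl
      simp
    · have h1 : (X : ℝ) < l := by exact_mod_cast h
      have h2 : (1 : ℝ) ≤ l := by exact_mod_cast (by omega : 1 ≤ l)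
      rw [UU_zero ρ _ hg (by positivity), mul_zero]
      rw [div_lt_iff₀ (by positivity)]
      nlinarith
  have hQ : QQ ρ (r ^ 2) (cs PH s) y =
      ∑' l : ℕ, cl (r ^ 2) l * UU ρ (r ^ 2) (cs PH s) (y / l ^ 2) := by
    rw [QQ_eq hρ _ hg hy hX]
    symm
    apply tsum_eq_sum
    intro l hl
    rw [mem_Icc, not_and_or, not_le, not_le] at hl
    rcases hl with h | h
    · have : l = 0 := by omega
      subst this
      unfold cl
      simp
    · have h1 : (X : ℝ) < l := by exact_mod_cast h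
      have h2 : (1 : ℝ) ≤ l := by exact_mod_cast (by omega : 1 ≤ l)
      rw [UU_zero ρ _ hg (by positivity), mul_zero]
      rw [div_lt_iff₀ (by positivity)]
      nlinarith
  have hM : mean (od ρ) * y * II (cs PH s) * cS r = ∑' l : ℕ,
      cl (r ^ 2) l * (mean (od ρ) * (y / l ^ 2 : ℝ) * II (cs PH s) * tt r) := by
    have e3 : ∀ l : ℕ, cl (r ^ 2) l * (mean (od ρ) * (y / l ^ 2 : ℝ) * II (cs PH s) * tt r) =
        (mean (od ρ) * y * II (cs PH s) * tt r) * (cl (r ^ 2) l / (l : ℂ) ^ 2) := by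
      intro l
      push_cast
      ring
    simp only [e3]
    rw [tsum_mul_left]
    unfold cS
    ring
  have hsumm2 : Summable (fun l : ℕ =>
      cl (r ^ 2) l * (mean (od ρ) * (y / l ^ 2 : ℝ) * II (cs PH s) * tt r)) := by
    have e3 : ∀ l : ℕ, cl (r ^ 2) l * (mean (od ρ) * (y / l ^ 2 : ℝ) * II (cs PH s) * tt r) =
        (mean (od ρ) * y * II (cs PH s) * tt r) * (cl (r ^ 2) l / (l : ℂ) ^ 2) := by
      intro l
      push_cast
      ring
    simp only [e3]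
    exact (cl_summable _).mul_left _
  rw [hQ, hM, ← hsumm1.tsum_sub hsumm2]
  have hb : ∀ l : ℕ, ‖cl (r ^ 2) l * UU ρ (r ^ 2) (cs PH s) (y / l ^ 2) -
      cl (r ^ 2) l * (mean (od ρ) * (y / l ^ 2 : ℝ) * II (cs PH s) * tt r)‖ ≤
      (17 * C0 * (1 + ‖s‖) * r * (2 * y) ^ (1 / 2 + ε / 2)) * (l : ℝ) ^ (-(1 + ε)) := by
    intro l
    rcases Nat.eq_zero_or_pos l with h | h
    · subst h
      unfold cl
      simp only [Nat.not_odd_zero, if_false, zero_mul, sub_self, norm_zero]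
      positivity
    · rw [← mul_sub, norm_mul]
      refine (mul_le_of_le_one_left (norm_nonneg _) (cl_norm _ _)).trans ((herr l h).trans ?_)
      rw [← mul_assoc]
  have hsum := (Real.summable_nat_rpow.2 (by linarith : -(1 + ε) < -1)).mul_left
    (17 * C0 * (1 + ‖s‖) * r * (2 * y) ^ (1 / 2 + ε / 2))
  refine (tsum_of_norm_bounded hsum.hasSum hb).trans ?_
  rw [tsum_mul_left]
  have h10 : (2 * y) ^ (1 / 2 + ε / 2) ≤ 2 * y ^ (1 / 2 + ε / 2) := by
    rw [Real.mul_rpow (by norm_num) hy.le]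
    apply mul_le_mul_of_nonneg_right _ (by positivity)
    calc (2 : ℝ) ^ (1 / 2 + ε / 2) ≤ 2 ^ (1 : ℝ) :=
          Real.rpow_le_rpow_of_exponent_le (by norm_num) (by linarith)
      _ = 2 := Real.rpow_one 2
  calc (17 * C0 * (1 + ‖s‖) * r * (2 * y) ^ (1 / 2 + ε / 2)) * Z
      ≤ (17 * C0 * (1 + ‖s‖) * r * (2 * y ^ (1 / 2 + ε / 2))) * (Z + 1) := by
        gcongr
        linarith
    _ = _ := by ring

end Pool.Agent.W5h65.MD
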