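import Pool.Agent.W5h65.MD.A5

set_option autoImplicit false

/-! Sums over fundamental discriminants. -/

namespace Pool.Agent.W5h65.MD

open Finset Filter Topology MeasureTheory Pool.Agent.H306R2.RZ Pool.Agent.H143R3.FM

/-- positive fundamental discriminants (`1` included) -/
def IsFund (d : ℕ) : Prop := (d % 4 = 1 ∧ Squarefree d) ∨
  ∃ m, d = 4 * m ∧ Squarefree m ∧ (m % 4 = 2 ∨ m % 4 = 3)

/-- the Kronecker symbol `χ_d(n)`, `d` a positive fundamental discriminant, `n ≥ 1` -/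
def kr (d n : ℕ) : ℤ :=
  if Odd d then jacobiSym n d else if Odd n then jacobiSym d n else 0

lemma kr_abs (d n : ℕ) : |((kr d n : ℤ) : ℝ)| ≤ 1 := by
  unfold kr
  split_ifs
  · rcases jacobiSym.trichotomy n d with h | h | h <;> rw [h] <;> norm_num
  · rcases jacobiSym.trichotomy d n with h | h | h <;> rw [h] <;> norm_num
  · norm_num

lemma fund_iff (d : ℕ) : IsFund d ↔ (Odd d ∧ Squarefree d ∧ d % 4 = 1) ∨
    (∃ κ, d = 4 * κ ∧ Odd κ ∧ Squarefree κ ∧ κ % 4 = 3) ∨
    (∃ κ, d = 8 * κ ∧ Odd κ ∧ Squarefree κ) := by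
  unfold IsFund
  constructor
  · rintro (⟨h1, h2⟩ | ⟨m, h1, h2, h3 | h3⟩)
    · exact Or.inl ⟨by rw [Nat.odd_iff]; omega, h2, h1⟩
    · right; right
      refine ⟨m / 2, by omega, by rw [Nat.odd_iff]; omega, ?_⟩
      exact h2.squarefree_of_dvd ⟨2, by omega⟩
    · right; left
      exact ⟨m, h1, by rw [Nat.odd_iff]; omega, h2, h3⟩
  · rintro (⟨_, h2, h3⟩ | ⟨κ, h1, h2, h3, h4⟩ | ⟨κ, h1, h2, h3⟩)
    · exact Or.inl ⟨h3, h2⟩
    · exact Or.inr ⟨κ, h1, h3, Or.inr h4⟩
    · refine Or.inr ⟨2 * κ, by omega, ?_, ?_⟩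
      · rw [Nat.squarefree_mul (by rw [Nat.coprime_two_left]; exact h2)]
        exact ⟨Nat.prime_two.squarefree, h3⟩
      · left
        rw [Nat.odd_iff] at h2
        omega

lemma summ_if {𝕂 : Type*} [NormedField 𝕂] (f : ℕ → 𝕂) (X : ℕ) (hf : ∀ d, X < d → f d = 0) (P : ℕ → Prop) [DecidablePred P] :
    Summable (fun d : ℕ => if P d then f d else 0) := by
  refine summable_of_ne_finset_zero (s := range (X + 1)) fun d hd => ?_
  rw [mem_range, not_lt] at hd
  rw [hf d (by omega)]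
  simp

open Classical in
lemma fund_tsum {𝕂 : Type*} [NormedField 𝕂] (f : ℕ → 𝕂) (X : ℕ) (hf : ∀ d, X < d → f d = 0) :
    ∑' d : ℕ, (if IsFund d then f d else 0) =
      ∑' κ : ℕ, (if Odd κ ∧ Squarefree κ then (if κ % 4 = 1 then f κ else 0) else 0) +
      ∑' κ : ℕ, (if Odd κ ∧ Squarefree κ then (if κ % 4 = 3 then f (4 * κ) else 0) else 0) +
      ∑' κ : ℕ, (if Odd κ ∧ Squarefree κ then f (8 * κ) else 0) := by
  have h1 : ∀ d : ℕ, (if IsFund d then f d else 0) =
      (if (Odd d ∧ Squarefree d ∧ d % 4 = 1) then f d else 0) +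
      (if (∃ κ, d = 4 * κ ∧ Odd κ ∧ Squarefree κ ∧ κ % 4 = 3) then f d else 0) +
      (if (∃ κ, d = 8 * κ ∧ Odd κ ∧ Squarefree κ) then f d else 0) := by
    intro d
    by_cases p1 : (Odd d ∧ Squarefree d ∧ d % 4 = 1)
    · have p2 : ¬ (∃ κ, d = 4 * κ ∧ Odd κ ∧ Squarefree κ ∧ κ % 4 = 3) := by
        rintro ⟨κ, h, _⟩
        omega
      have p3 : ¬ (∃ κ, d = 8 * κ ∧ Odd κ ∧ Squarefree κ) := by
        rintro ⟨κ, h, _⟩
        omega
      rw [if_pos ((fund_iff d).2 (Or.inl p1)), if_pos p1, if_neg p2, if_neg p3]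
      ring
    · by_cases p2 : (∃ κ, d = 4 * κ ∧ Odd κ ∧ Squarefree κ ∧ κ % 4 = 3)
      · have p3 : ¬ (∃ κ, d = 8 * κ ∧ Odd κ ∧ Squarefree κ) := by
          rintro ⟨κ, h, h', _⟩
          obtain ⟨κ', g, g', _⟩ := p2
          rw [Nat.odd_iff] at h' g'
          omega
        rw [if_pos ((fund_iff d).2 (Or.inr (Or.inl p2))), if_neg p1, if_pos p2, if_neg p3]
        ring
      · by_cases p3 : (∃ κ, d = 8 * κ ∧ Odd κ ∧ Squarefree κ)
        · rw [if_pos ((fund_iff d).2 (Or.inr (Or.inr p3))), if_neg p1, if_neg p2, if_pos p3]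
          ring
        · rw [if_neg, if_neg p1, if_neg p2, if_neg p3]
          · ring
          · intro h
            rcases (fund_iff d).1 h with h | h | h
            · exact p1 h
            · exact p2 h
            · exact p3 h
  have s1 := summ_if f X hf (fun d => Odd d ∧ Squarefree d ∧ d % 4 = 1)
  have s2 := summ_if f X hf (fun d => ∃ κ, d = 4 * κ ∧ Odd κ ∧ Squarefree κ ∧ κ % 4 = 3)
  have s3 := summ_if f X hf (fun d => ∃ κ, d = 8 * κ ∧ Odd κ ∧ Squarefree κ)
  rw [tsum_congr h1, Summable.tsum_add (s1.add s2) s3, Summable.tsum_add s1 s2]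
  congr 1
  · congr 1
    · refine tsum_congr fun κ => ?_
      by_cases a1 : Odd κ <;> by_cases a2 : Squarefree κ <;> by_cases a3 : κ % 4 = 1 <;>
        simp [a1, a2, a3]
    · have hinj : Function.Injective (fun m : ℕ => 4 * m) := fun a b hab => by
        simpa using hab
      have h3 := hinj.tsum_eq (f := fun d : ℕ =>
        if (∃ κ, d = 4 * κ ∧ Odd κ ∧ Squarefree κ ∧ κ % 4 = 3) then f d else 0) (by
        intro d hd
        rw [Function.mem_support] at hd
        by_contra h4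
        apply hd
        rw [if_neg]
        rintro ⟨m, h5, _⟩
        exact h4 ⟨m, h5.symm⟩)
      rw [← h3]
      refine tsum_congr fun κ => ?_
      have : (∃ κ', 4 * κ = 4 * κ' ∧ Odd κ' ∧ Squarefree κ' ∧ κ' % 4 = 3) ↔
          (Odd κ ∧ Squarefree κ) ∧ κ % 4 = 3 := by
        constructor
        · rintro ⟨κ', h, h1, h2, h3⟩
          have : κ = κ' := by omega
          subst this
          exact ⟨⟨h1, h2⟩, h3⟩
        · rintro ⟨⟨h1, h2⟩, h3⟩
          exact ⟨κ, rfl, h1, h2, h3⟩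
      rw [if_congr this rfl rfl]
      by_cases a1 : Odd κ ∧ Squarefree κ <;> by_cases a3 : κ % 4 = 3 <;> simp [a1, a3]
  · have hinj : Function.Injective (fun m : ℕ => 8 * m) := fun a b hab => by
      simpa using hab
    have h3 := hinj.tsum_eq (f := fun d : ℕ =>
      if (∃ κ, d = 8 * κ ∧ Odd κ ∧ Squarefree κ) then f d else 0) (by
      intro d hd
      rw [Function.mem_support] at hd
      by_contra h4
      apply hd
      rw [if_neg]
      rintro ⟨m, h5, _⟩
      exact h4 ⟨m, h5.symm⟩)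
    rw [← h3]
    refine tsum_congr fun κ => ?_
    have : (∃ κ', 8 * κ = 8 * κ' ∧ Odd κ' ∧ Squarefree κ') ↔ (Odd κ ∧ Squarefree κ) := by
      constructor
      · rintro ⟨κ', h, h1, h2⟩
        have : κ = κ' := by omega
        subst this
        exact ⟨h1, h2⟩
      · rintro ⟨h1, h2⟩
        exact ⟨κ, rfl, h1, h2⟩
    rw [if_congr this rfl rfl]

/-- periodic factor, `κ = d` odd -/
noncomputable def r1 (a : ℕ) (κ : ℕ) : ℂ := if κ % 4 = 1 then ((js 2 (κ % 8) : ℝ) : ℂ) ^ a else 0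

/-- periodic factor, `d = 4κ` -/
noncomputable def r4 (κ : ℕ) : ℂ := if κ % 4 = 3 then 1 else 0

lemma r1_per (a m : ℕ) : r1 a (m + 8) = r1 a m := by
  unfold r1
  rw [show (m + 8) % 8 = m % 8 by omega, show (m + 8) % 4 = m % 4 by omega]

lemma r4_per (m : ℕ) : r4 (m + 8) = r4 m := by
  unfold r4
  rw [show (m + 8) % 4 = m % 4 by omega]

lemma r1_norm (a m : ℕ) : ‖r1 a m‖ ≤ 1 := by
  unfold r1
  split_ifs
  · rw [norm_pow, Complex.norm_real]
    exact pow_le_one₀ (norm_nonneg _) (js_abs _ _)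
  · simp

lemma r4_norm (m : ℕ) : ‖r4 m‖ ≤ 1 := by
  unfold r4
  split_ifs <;> simp

/-- the sum over fundamental discriminants of size `D` -/
noncomputable def SF (N : ℕ) (w : ℂ) (D : ℝ) : ℂ :=
  open Classical in ∑' d : ℕ, if IsFund d then PH (d / D) * ((kr d N : ℤ) : ℂ) * (d : ℂ) ^ (-w) else 0

lemma PH_zero {x : ℝ} (h : 2 < x) : PH x = 0 := PH_SS.zero (Or.inr h)

lemma cpow_split {x D : ℝ} (hx : 0 < x) (hD : 0 < D) (w : ℂ) :
    (x : ℂ) ^ (-w) = (D : ℂ) ^ (-w) * ((x / D : ℝ) : ℂ) ^ (-w) := by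
  rw [← Complex.mul_cpow_ofReal_nonneg hD.le (by positivity), ← Complex.ofReal_mul,
    mul_div_cancel₀ _ hD.ne']

lemma js_two_sq {n : ℕ} (hn : Odd n) : jacobiSym 2 n ^ 2 = 1 := by
  apply jacobiSym.sq_one
  have : Int.gcd 2 n = Nat.gcd 2 n := rfl
  rw [this]
  exact Nat.coprime_two_left.2 hn

lemma PHcs {κ : ℕ} {D c : ℝ} (hκ : 0 < κ) (hD : 0 < D) (hc : 0 < c) (w : ℂ) :
    PH ((c * κ) / D) * ((c * κ : ℝ) : ℂ) ^ (-w) = (D : ℂ) ^ (-w) * cs PH w (κ / (D / c)) := by
  have hκ' : (0 : ℝ) < κ := by exact_mod_cast hκ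
  rw [cpow_split (by positivity) hD]
  unfold cs
  have e : (κ : ℝ) / (D / c) = c * κ / D := by field_simp
  rw [e]
  ring

theorem SF_eq (a n : ℕ) (hn : Odd n) (w : ℂ) {D : ℝ} (hD : 0 < D) :
    SF (2 ^ a * n) w D = (D : ℂ) ^ (-w) * (QQ (r1 a) n (cs PH w) D +
      if a = 0 then QQ r4 n (cs PH w) (D / 4) + (js 2 n : ℂ) * QQ (fun _ => 1) n (cs PH w) (D / 8)
      else 0) := by
  obtain ⟨X, hX⟩ := exists_nat_ge (2 * D)
  unfold SF
  rw [fund_tsum (fun d => PH (d / D) * ((kr d (2 ^ a * n) : ℤ) : ℂ) * (d : ℂ) ^ (-w)) X (by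
    intro d hd
    have h1 : (X : ℝ) < d := by exact_mod_cast hd
    rw [PH_zero (by rw [lt_div_iff₀ hD]; linarith)]
    simp)]
  have t1 : ∑' κ : ℕ, (if Odd κ ∧ Squarefree κ then (if κ % 4 = 1 then
      PH (κ / D) * ((kr κ (2 ^ a * n) : ℤ) : ℂ) * (κ : ℂ) ^ (-w) else 0) else 0) =
      (D : ℂ) ^ (-w) * QQ (r1 a) n (cs PH w) D := by
    unfold QQ
    rw [← tsum_mul_left]
    refine tsum_congr fun κ => ?_
    by_cases h1 : Odd κ ∧ Squarefree κ
    · rw [if_pos h1, if_pos h1]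
      unfold r1
      by_cases h2 : κ % 4 = 1
      · rw [if_pos h2, if_pos h2]
        have hk : kr κ (2 ^ a * n) = jacobiSym 2 κ ^ a * jacobiSym κ n := by
          unfold kr
          rw [if_pos h1.1]
          push_cast
          rw [jacobiSym.mul_left, jacobiSym.pow_left,
            jacobiSym.quadratic_reciprocity_one_mod_four h2 hn]
        have h3 := PHcs (c := 1) h1.1.pos hD one_pos w
        rw [one_mul, div_one] at h3
        have h4 : js 2 (κ % 8) = ((jacobiSym 2 κ : ℤ) : ℝ) := by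
          rw [← js_mod8 (s := 2) (by simp [S4]) h1.1]
          rfl
        rw [hk, h4]
        have h5 : PH (κ / D) * (κ : ℂ) ^ (-w) = (D : ℂ) ^ (-w) * cs PH w (κ / D) := by
          have := h3
          simpa using this
        unfold js
        push_cast
        calc _ = ((jacobiSym 2 κ : ℤ) : ℂ) ^ a * ((jacobiSym κ n : ℤ) : ℂ) *
              (PH (κ / D) * (κ : ℂ) ^ (-w)) := by ring
          _ = _ := by rw [h5]; ring
      · rw [if_neg h2, if_neg h2]
        ring
    · rw [if_neg h1, if_neg h1, mul_zero]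
  rw [t1]
  by_cases ha : a = 0
  · subst ha
    rw [pow_zero, one_mul, if_pos rfl]
    have t2 : ∑' κ : ℕ, (if Odd κ ∧ Squarefree κ then (if κ % 4 = 3 then
        PH ((4 * κ : ℕ) / D) * ((kr (4 * κ) n : ℤ) : ℂ) * ((4 * κ : ℕ) : ℂ) ^ (-w) else 0) else 0) =
        (D : ℂ) ^ (-w) * QQ r4 n (cs PH w) (D / 4) := by
      unfold QQ
      rw [← tsum_mul_left]
      refine tsum_congr fun κ => ?_
      by_cases h1 : Odd κ ∧ Squarefree κ
      · rw [if_pos h1, if_pos h1]
        unfold r4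
        by_cases h2 : κ % 4 = 3
        · rw [if_pos h2, if_pos h2]
          have hk : kr (4 * κ) n = jacobiSym κ n := by
            unfold kr
            rw [if_neg (by rw [Nat.not_odd_iff_even]; exact ⟨2 * κ, by ring⟩), if_pos hn]
            push_cast
            rw [jacobiSym.mul_left]
            have : jacobiSym 4 n = 1 := by
              have h6 : (4 : ℤ) = 2 ^ 2 := by norm_num
              rw [h6, jacobiSym.pow_left, js_two_sq hn]
            rw [this, one_mul]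
          have h3 := PHcs (c := 4) h1.1.pos hD (by norm_num) w
          rw [hk]
          unfold js
          push_cast at h3 ⊢
          calc _ = ((jacobiSym κ n : ℤ) : ℂ) * (PH (4 * κ / D) * (4 * (κ : ℂ)) ^ (-w)) := by ring
            _ = _ := by rw [h3]; ring
        · rw [if_neg h2, if_neg h2]
          ring
      · rw [if_neg h1, if_neg h1, mul_zero]
    have t3 : ∑' κ : ℕ, (if Odd κ ∧ Squarefree κ then
        PH ((8 * κ : ℕ) / D) * ((kr (8 * κ) n : ℤ) : ℂ) * ((8 * κ : ℕ) : ℂ) ^ (-w) else 0) =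
        (D : ℂ) ^ (-w) * ((js 2 n : ℂ) * QQ (fun _ => 1) n (cs PH w) (D / 8)) := by
      unfold QQ
      rw [← tsum_mul_left, ← tsum_mul_left]
      refine tsum_congr fun κ => ?_
      by_cases h1 : Odd κ ∧ Squarefree κ
      · rw [if_pos h1, if_pos h1]
        have hk : kr (8 * κ) n = jacobiSym 2 n * jacobiSym κ n := by
          unfold kr
          rw [if_neg (by rw [Nat.not_odd_iff_even]; exact ⟨4 * κ, by ring⟩), if_pos hn]
          push_cast
          rw [jacobiSym.mul_left]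
          have : jacobiSym 8 n = jacobiSym 2 n := by
            have h6 : (8 : ℤ) = 2 ^ 3 := by norm_num
            rw [h6, jacobiSym.pow_left, pow_succ, js_two_sq hn, one_mul]
          rw [this]
        have h3 := PHcs (c := 8) h1.1.pos hD (by norm_num) w
        rw [hk]
        unfold js
        push_cast at h3 ⊢
        calc _ = ((jacobiSym 2 n : ℤ) : ℂ) * ((jacobiSym κ n : ℤ) : ℂ) *
              (PH (8 * κ / D) * (8 * (κ : ℂ)) ^ (-w)) := by ring
          _ = _ := by rw [h3]; ring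
      · rw [if_neg h1, if_neg h1, mul_zero, mul_zero]
    rw [t2, t3]
    ring
  · rw [if_neg ha]
    have hev : ¬ Odd (2 ^ a * n) := by
      rw [Nat.not_odd_iff_even]
      exact (Nat.even_pow.2 ⟨even_two, ha⟩).mul_right n
    have z : ∀ c : ℕ, Even c → ∀ κ, kr (c * κ) (2 ^ a * n) = 0 := by
      intro c hc κ
      unfold kr
      rw [if_neg (by rw [Nat.not_odd_iff_even]; exact hc.mul_right κ), if_neg hev]
    simp only [z 4 (by decide), z 8 (by decide)]
    simp

end Pool.Agent.W5h65.MD
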