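import Pool.Agent.W5h65.MD.A6

set_option autoImplicit false

/-! The sums over fundamental discriminants on average over the argument of the character. -/

namespace Pool.Agent.W5h65.MD

open Finset Filter Topology MeasureTheory Pool.Agent.H306R2.RZ Pool.Agent.H143R3.FM

/-- exponent of `2` -/
noncomputable def va (N : ℕ) : ℕ := padicValNat 2 N

/-- odd part -/
noncomputable def ob (N : ℕ) : ℕ := N / 2 ^ (padicValNat 2 N)

lemma va_mul (a n : ℕ) (hn : Odd n) : va (2 ^ a * n) = a := by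
  have hn0 : n ≠ 0 := by rintro rfl; simp at hn
  unfold va
  rw [padicValNat.mul (by positivity) hn0, padicValNat.prime_pow,
    padicValNat.eq_zero_of_not_dvd, add_zero]
  intro h
  rw [Nat.odd_iff] at hn
  omega

lemma ob_mul (a n : ℕ) (hn : Odd n) : ob (2 ^ a * n) = n := by
  unfold ob
  have := va_mul a n hn
  unfold va at this
  rw [this, Nat.mul_div_cancel_left _ (by positivity)]

/-- the density attached to `N` -/
noncomputable def cF (N : ℕ) : ℂ :=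
  open Classical in if IsSquare (ob N) then cS (Nat.sqrt (ob N)) * (mean (od (r1 (va N))) +
    if va N = 0 then mean (od r4) / 4 + mean (od (fun _ => 1)) / 8 else 0) else 0

/-- the smooth sum over all integers -/
noncomputable def ZZ (w : ℂ) (D : ℝ) : ℂ := ∑' m : ℕ, PH (m / D) * (m : ℂ) ^ (-w)

lemma ZZ_eq (w : ℂ) {D : ℝ} (hD : 0 < D) :
    ZZ w D = (D : ℂ) ^ (-w) * ∑' m : ℕ, (1 : ℂ) * cs PH w (m / D) := by
  unfold ZZ
  rw [← tsum_mul_left]
  refine tsum_congr fun m => ?_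
  rcases Nat.eq_zero_or_pos m with h | h
  · subst h
    have : PH ((0 : ℕ) / D) = 0 := PH_SS.zero (Or.inl (by norm_num))
    unfold cs
    rw [this]
    simp
  · have := PHcs (c := 1) h hD one_pos w
    simpa using this

lemma not_sq {n0 r : ℕ} (h1 : Squarefree n0) (h2 : 1 < n0) (hr : 0 < r) : ¬ IsSquare (n0 * r ^ 2) := by
  rintro ⟨m, hm⟩
  have h3 : r ∣ m := by
    rw [← Nat.pow_dvd_pow_iff (n := 2) (by norm_num), pow_two m, ← hm]
    exact dvd_mul_left _ _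
  obtain ⟨k, rfl⟩ := h3
  have h4 : n0 = k * k := by
    have : n0 * r ^ 2 = (k * k) * r ^ 2 := by rw [hm]; ring
    exact Nat.eq_of_mul_eq_mul_right (by positivity) this
  have h5 := h1 k ⟨1, by omega⟩
  rw [Nat.isUnit_iff] at h5
  subst h5
  omega

lemma decomp (N : ℕ) (hN : 1 ≤ N) : ∃ t : (ℕ × ℕ) × ℕ, Odd t.1.2 ∧ Odd t.2 ∧ Squarefree t.2 ∧
    N = 2 ^ t.1.1 * (t.2 * t.1.2 ^ 2) := by
  obtain ⟨a, n, hn, h⟩ := Nat.exists_eq_two_pow_mul_odd (n := N) (by omega)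
  obtain ⟨n0, r, h2, h3⟩ := Nat.sq_mul_squarefree n
  have h4 : Odd (r ^ 2 * n0) := by rw [h2]; exact hn
  rw [Nat.odd_mul] at h4
  refine ⟨((a, r), n0), (Nat.odd_pow_iff (by norm_num)).1 h4.1, h4.2, h3, ?_⟩
  rw [h, ← h2]
  ring

/-- re-indexing of a sum of non-negative terms -/
lemma reindex (F : ℕ → ℝ) (hF : ∀ N, 0 ≤ F N) (X : ℕ) : ∑ N ∈ Icc 1 X, F N ≤
    ∑ a ∈ range X, ∑ r ∈ (Icc 1 X).filter Odd, ∑ n0 ∈ osf X, F (2 ^ a * (n0 * r ^ 2)) := by
  classical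
  have hex : ∀ N : ℕ, ∃ t : (ℕ × ℕ) × ℕ, 1 ≤ N → (Odd t.1.2 ∧ Odd t.2 ∧ Squarefree t.2 ∧
      N = 2 ^ t.1.1 * (t.2 * t.1.2 ^ 2)) := by
    intro N
    by_cases h : 1 ≤ N
    · obtain ⟨t, ht⟩ := decomp N h
      exact ⟨t, fun _ => ht⟩
    · exact ⟨((0, 0), 0), fun h' => absurd h' h⟩
  choose τ hτ using hex
  have hsum : ∑ a ∈ range X, ∑ r ∈ (Icc 1 X).filter Odd, ∑ n0 ∈ osf X, F (2 ^ a * (n0 * r ^ 2)) =
      ∑ t ∈ ((range X ×ˢ (Icc 1 X).filter Odd) ×ˢ osf X), F (2 ^ t.1.1 * (t.2 * t.1.2 ^ 2)) := by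
    rw [sum_product, sum_product]
  rw [hsum]
  have h1 : ∑ N ∈ Icc 1 X, F N = ∑ t ∈ (Icc 1 X).image τ, F (2 ^ t.1.1 * (t.2 * t.1.2 ^ 2)) := by
    rw [sum_image]
    · refine sum_congr rfl fun N hN => ?_
      rw [mem_Icc] at hN
      rw [← (hτ N hN.1).2.2.2]
    · intro N hN M hM h
      rw [mem_coe, mem_Icc] at hN hM
      have e1 := (hτ N hN.1).2.2.2
      have e2 := (hτ M hM.1).2.2.2
      rw [h] at e1
      rw [e1]
      exact e2.symm
  rw [h1]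
  refine sum_le_sum_of_subset_of_nonneg ?_ fun t _ _ => hF _
  intro t ht
  rw [mem_image] at ht
  obtain ⟨N, hN, rfl⟩ := ht
  rw [mem_Icc] at hN
  obtain ⟨g1, g2, g3, g4⟩ := hτ N hN.1
  have p1 : 0 < (τ N).1.2 := g1.pos
  have p2 : 0 < (τ N).2 := g2.pos
  have q1 : 1 ≤ (τ N).2 * (τ N).1.2 ^ 2 := Nat.mul_pos p2 (pow_pos p1 2)
  have q2 : 2 ^ (τ N).1.1 ≤ N := by
    calc 2 ^ (τ N).1.1 = 2 ^ (τ N).1.1 * 1 := (mul_one _).symm
      _ ≤ 2 ^ (τ N).1.1 * ((τ N).2 * (τ N).1.2 ^ 2) := Nat.mul_le_mul_left _ q1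
      _ = N := g4.symm
  have q3 : (τ N).2 * (τ N).1.2 ^ 2 ≤ N := by
    calc _ = 1 * ((τ N).2 * (τ N).1.2 ^ 2) := (one_mul _).symm
      _ ≤ 2 ^ (τ N).1.1 * ((τ N).2 * (τ N).1.2 ^ 2) := Nat.mul_le_mul_right _ Nat.one_le_two_pow
      _ = N := g4.symm
  have q4 : (τ N).2 ≤ N := by
    calc (τ N).2 = (τ N).2 * 1 := (mul_one _).symm
      _ ≤ (τ N).2 * (τ N).1.2 ^ 2 := Nat.mul_le_mul_left _ (pow_pos p1 2)
      _ ≤ N := q3
  have q5 : (τ N).1.2 ≤ N := by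
    calc (τ N).1.2 ≤ (τ N).1.2 ^ 2 := Nat.le_self_pow (by norm_num) _
      _ = 1 * (τ N).1.2 ^ 2 := (one_mul _).symm
      _ ≤ (τ N).2 * (τ N).1.2 ^ 2 := Nat.mul_le_mul_right _ p2
      _ ≤ N := q3
  have q6 : (τ N).1.1 < 2 ^ (τ N).1.1 := Nat.lt_two_pow_self
  simp only [mem_product, mem_range, mem_filter, mem_Icc, osf]
  exact ⟨⟨by omega, ⟨by omega, by omega⟩, g1⟩, ⟨by omega, by omega⟩, g2, g3⟩

lemma cF_norm : ∃ C : ℝ, 0 < C ∧ ∀ (a r : ℕ), Odd r → ‖cF (2 ^ a * r ^ 2)‖ ≤ C * r.divisors.card := by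
  obtain ⟨C, hC, h⟩ := cS_norm
  refine ⟨C * 3, by positivity, fun a r hr => ?_⟩
  have hr2 : Odd (r ^ 2) := hr.pow
  unfold cF
  rw [ob_mul a _ hr2, va_mul a _ hr2, if_pos ⟨r, pow_two r⟩, pow_two, Nat.sqrt_eq, norm_mul]
  have h1 : ‖mean (od (r1 a)) + if a = 0 then mean (od r4) / 4 + mean (od (fun _ => 1)) / 8 else 0‖ ≤
      3 := by
    refine (norm_add_le _ _).trans ?_
    have h2 := mean_norm (r1_norm a)
    have h3 := mean_norm r4_norm
    have h4 : ‖mean (od (fun _ => 1))‖ ≤ 1 := mean_norm (fun _ => by simp)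
    split_ifs
    · have h5 : ‖mean (od r4) / 4 + mean (od (fun _ => 1)) / 8‖ ≤ 1 / 4 + 1 / 8 := by
        refine (norm_add_le _ _).trans ?_
        rw [norm_div, norm_div]
        have e4 : ‖(4 : ℂ)‖ = 4 := by norm_num
        have e8 : ‖(8 : ℂ)‖ = 8 := by norm_num
        rw [e4, e8]
        gcongr
      linarith
    · rw [norm_zero]
      linarith
  calc _ ≤ (C * r.divisors.card) * 3 := mul_le_mul (h r) h1 (norm_nonneg _) (by positivity)
    _ = _ := by ring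

theorem T1 (ε B : ℝ) (hε : 0 < ε) (hε1 : ε ≤ 1) : ∃ (C : ℝ) (A : ℕ), 0 < C ∧ ∀ (X : ℕ) (D : ℝ)
    (w : ℂ), 1 ≤ D → |w.re| ≤ B → ∑ N ∈ Icc 1 X, (N : ℝ) ^ (-(1 + ε)) *
      ‖SF N w D - cF N * ZZ w D‖ ≤ C * (1 + ‖w‖) ^ A * D ^ (1 / 2 + ε / 2 - w.re) := by
  obtain ⟨C1, A1, hC1, h1⟩ := ns_bound ε B hε
  obtain ⟨C2, hC2, h2⟩ := sq_main ε B hε hε1
  obtain ⟨C3, hC3, h3⟩ := cF_norm
  obtain ⟨C4, hC4, h4⟩ := VV_bound B PH PH_SS
  set Z := ∑' l : ℕ, (l : ℝ) ^ (-(1 + ε)) with hZ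
  have hZ0 : 0 ≤ Z := tsum_nonneg fun l => by positivity
  refine ⟨2 * (Z + 1) * (3 * C1 + (3 * C2 + 16 * C3 * C4)), A1 + 1, by positivity, ?_⟩
  intro X D w hD hw
  have hD0 : 0 < D := by linarith
  obtain ⟨P, hP⟩ : ∃ P, P = ‖(D : ℂ) ^ (-w)‖ := ⟨_, rfl⟩
  have hPre : P = D ^ (-w.re) := by
    rw [hP, Complex.norm_cpow_eq_rpow_re_of_pos hD0]
    rfl
  have hP0 : 0 ≤ P := by rw [hP]; exact norm_nonneg _
  have hw1 : 1 ≤ 1 + ‖w‖ := by linarith [norm_nonneg w]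
  obtain ⟨Y, hY⟩ : ∃ Y, Y = D ^ (1 / 2 + ε / 2) := ⟨_, rfl⟩
  have hY1 : 1 ≤ Y := by rw [hY]; exact Real.one_le_rpow hD (by positivity)
  have hY4 : (D / 4) ^ (1 / 2 + ε / 2) ≤ Y := by
    rw [hY]; exact Real.rpow_le_rpow (by positivity) (by linarith) (by positivity)
  have hY8 : (D / 8) ^ (1 / 2 + ε / 2) ≤ Y := by
    rw [hY]; exact Real.rpow_le_rpow (by positivity) (by linarith) (by positivity)
  have hjs : ∀ n, ‖(js 2 n : ℂ)‖ ≤ 1 := fun n => by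
    rw [Complex.norm_real]; exact js_abs 2 n
  -- fixed a, r
  have key : ∀ a r : ℕ, Odd r → ∑ n0 ∈ osf X, (n0 : ℝ) ^ (-(1 + ε)) *
      ‖SF (2 ^ a * (n0 * r ^ 2)) w D - cF (2 ^ a * (n0 * r ^ 2)) * ZZ w D‖ ≤
      (3 * C1 + (3 * C2 + 16 * C3 * C4)) * (1 + ‖w‖) ^ (A1 + 1) * (r * (P * Y)) := by
    intro a r hr
    have hr0 : 0 < r := hr.pos
    have hr1 : (1 : ℝ) ≤ r := by exact_mod_cast hr0
    rw [← sum_filter_add_sum_filter_not (osf X) (fun n => 1 < n)]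
    have hA : ∑ n0 ∈ (osf X).filter (fun n => 1 < n), (n0 : ℝ) ^ (-(1 + ε)) *
        ‖SF (2 ^ a * (n0 * r ^ 2)) w D - cF (2 ^ a * (n0 * r ^ 2)) * ZZ w D‖ ≤
        P * (3 * (C1 * (1 + ‖w‖) ^ A1 * (r * Y))) := by
      have h5 : ∀ n0 ∈ (osf X).filter (fun n => 1 < n), (n0 : ℝ) ^ (-(1 + ε)) *
        ‖SF (2 ^ a * (n0 * r ^ 2)) w D - cF (2 ^ a * (n0 * r ^ 2)) * ZZ w D‖ ≤
        P * ((n0 : ℝ) ^ (-(1 + ε)) * ‖QQ (r1 a) (n0 * r ^ 2) (cs PH w) D‖ +
          (n0 : ℝ) ^ (-(1 + ε)) * ‖QQ r4 (n0 * r ^ 2) (cs PH w) (D / 4)‖ +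
          (n0 : ℝ) ^ (-(1 + ε)) * ‖QQ (fun _ => 1) (n0 * r ^ 2) (cs PH w) (D / 8)‖) := by
        intro n0 hn0
        rw [mem_filter, osf, mem_filter] at hn0
        obtain ⟨⟨_, hno, hnsf⟩, hn1⟩ := hn0
        have hno2 : Odd (n0 * r ^ 2) := hno.mul hr.pow
        have hc : cF (2 ^ a * (n0 * r ^ 2)) = 0 := by
          unfold cF
          rw [ob_mul a _ hno2, if_neg (not_sq hnsf hn1 hr0)]
        rw [hc, zero_mul, sub_zero, SF_eq a _ hno2 w hD0, norm_mul, ← hP]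
        have h6 : ‖QQ (r1 a) (n0 * r ^ 2) (cs PH w) D + (if a = 0 then
            QQ r4 (n0 * r ^ 2) (cs PH w) (D / 4) + (js 2 (n0 * r ^ 2) : ℂ) *
            QQ (fun _ => 1) (n0 * r ^ 2) (cs PH w) (D / 8) else 0)‖ ≤
            ‖QQ (r1 a) (n0 * r ^ 2) (cs PH w) D‖ + ‖QQ r4 (n0 * r ^ 2) (cs PH w) (D / 4)‖ +
            ‖QQ (fun _ => 1) (n0 * r ^ 2) (cs PH w) (D / 8)‖ := by
          refine (norm_add_le _ _).trans ?_
          rw [add_assoc]
          apply add_le_add_right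
          split_ifs
          · refine (norm_add_le _ _).trans ?_
            apply add_le_add_right
            rw [norm_mul]
            exact mul_le_of_le_one_left (norm_nonneg _) (hjs _)
          · rw [norm_zero]
            positivity
        have h7 : (0 : ℝ) ≤ (n0 : ℝ) ^ (-(1 + ε)) := by positivity
        calc (n0 : ℝ) ^ (-(1 + ε)) * (P * _) ≤ (n0 : ℝ) ^ (-(1 + ε)) * (P * _) := by
              apply mul_le_mul_of_nonneg_left (mul_le_mul_of_nonneg_left h6 hP0) h7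
          _ = _ := by ring
      refine (sum_le_sum h5).trans ?_
      rw [← mul_sum, sum_add_distrib, sum_add_distrib]
      apply mul_le_mul_of_nonneg_left _ hP0
      have g1 := h1 (r1 a) r X D w (r1_norm a) (r1_per a) hr hD0 hw
      have g2 := h1 r4 r X (D / 4) w r4_norm r4_per hr (by positivity) hw
      have g3 := h1 (fun _ => 1) r X (D / 8) w (fun _ => by simp) (fun _ => rfl) hr (by positivity) hw
      rw [← hY] at g1
      have g2' : C1 * (1 + ‖w‖) ^ A1 * (r * (D / 4) ^ (1 / 2 + ε / 2)) ≤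
          C1 * (1 + ‖w‖) ^ A1 * (r * Y) := by gcongr
      have g3' : C1 * (1 + ‖w‖) ^ A1 * (r * (D / 8) ^ (1 / 2 + ε / 2)) ≤
          C1 * (1 + ‖w‖) ^ A1 * (r * Y) := by gcongr
      linarith
    have hB : ∑ n0 ∈ (osf X).filter (fun n => ¬ 1 < n), (n0 : ℝ) ^ (-(1 + ε)) *
        ‖SF (2 ^ a * (n0 * r ^ 2)) w D - cF (2 ^ a * (n0 * r ^ 2)) * ZZ w D‖ ≤
        P * ((3 * C2 + 16 * C3 * C4) * (1 + ‖w‖) * (r * Y)) := by
      have hone : ‖SF (2 ^ a * (1 * r ^ 2)) w D - cF (2 ^ a * (1 * r ^ 2)) * ZZ w D‖ ≤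
          P * ((3 * C2 + 16 * C3 * C4) * (1 + ‖w‖) * (r * Y)) := by
        rw [one_mul]
        have hro : Odd (r ^ 2) := hr.pow
        rw [SF_eq a _ hro w hD0, ZZ_eq w hD0]
        have hj : js 2 (r ^ 2) = 1 := by
          unfold js
          have : NeZero r := ⟨hr0.ne'⟩
          have e : jacobiSym 2 (r ^ 2) = 1 := by
            rw [jacobiSym.pow_right]
            exact js_two_sq hr
          rw [e]
          norm_num
        have hcF : cF (2 ^ a * r ^ 2) = cS r * (mean (od (r1 a)) +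
            if a = 0 then mean (od r4) / 4 + mean (od (fun _ => 1)) / 8 else 0) := by
          unfold cF
          rw [ob_mul a _ hro, va_mul a _ hro, if_pos ⟨r, pow_two r⟩, pow_two, Nat.sqrt_eq]
        have gz := per_sum (PH_SS.cs w) (ρ := fun _ => 1) (fun _ => rfl) (fun _ => by simp) hD0
        have hmean1 : mean (fun _ => (1 : ℂ)) = 1 := by
          unfold mean
          simp
        rw [hmean1, one_mul] at gz
        have g1 := h2 (r1 a) r D w (r1_norm a) (r1_per a) hr hD0 hw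
        have g2 := h2 r4 r (D / 4) w r4_norm r4_per hr (by positivity) hw
        have g3 := h2 (fun _ => 1) r (D / 8) w (fun _ => by simp) (fun _ => rfl) hr
          (by positivity) hw
        rw [← hY] at g1
        have g2' : C2 * (1 + ‖w‖) * (r * (D / 4) ^ (1 / 2 + ε / 2)) ≤
            C2 * (1 + ‖w‖) * (r * Y) := by gcongr
        have g3' : C2 * (1 + ‖w‖) * (r * (D / 8) ^ (1 / 2 + ε / 2)) ≤
            C2 * (1 + ‖w‖) * (r * Y) := by gcongr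
        obtain ⟨Sg, hSg⟩ : ∃ Sg, Sg = ∑' m : ℕ, (1 : ℂ) * cs PH w (m / D) := ⟨_, rfl⟩
        obtain ⟨Ig, hIg⟩ : ∃ Ig, Ig = II (cs PH w) := ⟨_, rfl⟩
        rw [← hSg, ← hIg] at gz
        rw [← hIg] at g1 g2 g3
        rw [← hSg]
        have hsplit : (D : ℂ) ^ (-w) * (QQ (r1 a) (r ^ 2) (cs PH w) D + (if a = 0 then
            QQ r4 (r ^ 2) (cs PH w) (D / 4) + (js 2 (r ^ 2) : ℂ) *
            QQ (fun _ => 1) (r ^ 2) (cs PH w) (D / 8) else 0)) -
            cF (2 ^ a * r ^ 2) * ((D : ℂ) ^ (-w) * Sg) = (D : ℂ) ^ (-w) *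
            ((QQ (r1 a) (r ^ 2) (cs PH w) D - mean (od (r1 a)) * D * Ig * cS r) +
            (if a = 0 then (QQ r4 (r ^ 2) (cs PH w) (D / 4) -
                mean (od r4) * ((D / 4 : ℝ) : ℂ) * Ig * cS r) +
              (QQ (fun _ => 1) (r ^ 2) (cs PH w) (D / 8) -
                mean (od (fun _ => 1)) * ((D / 8 : ℝ) : ℂ) * Ig * cS r) else 0) -
            cF (2 ^ a * r ^ 2) * (Sg - D * Ig)) := by
          rw [hj, hcF]
          split_ifs
          · push_cast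
            ring
          · ring
        rw [hsplit, norm_mul, ← hP]
        apply mul_le_mul_of_nonneg_left _ hP0
        refine (norm_sub_le _ _).trans ?_
        have k1 : ‖(QQ (r1 a) (r ^ 2) (cs PH w) D - mean (od (r1 a)) * D * Ig * cS r) +
            (if a = 0 then (QQ r4 (r ^ 2) (cs PH w) (D / 4) -
                mean (od r4) * ((D / 4 : ℝ) : ℂ) * Ig * cS r) +
              (QQ (fun _ => 1) (r ^ 2) (cs PH w) (D / 8) -
                mean (od (fun _ => 1)) * ((D / 8 : ℝ) : ℂ) * Ig * cS r) else 0)‖ ≤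
            3 * (C2 * (1 + ‖w‖) * (r * Y)) := by
          refine (norm_add_le _ _).trans ?_
          have hpos : 0 ≤ C2 * (1 + ‖w‖) * (r * Y) := by positivity
          have k2 : ‖(if a = 0 then (QQ r4 (r ^ 2) (cs PH w) (D / 4) -
                mean (od r4) * ((D / 4 : ℝ) : ℂ) * Ig * cS r) +
              (QQ (fun _ => 1) (r ^ 2) (cs PH w) (D / 8) -
                mean (od (fun _ => 1)) * ((D / 8 : ℝ) : ℂ) * Ig * cS r) else 0)‖ ≤
              2 * (C2 * (1 + ‖w‖) * (r * Y)) := by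
            split_ifs
            · refine (norm_add_le _ _).trans ?_
              linarith [g2.trans g2', g3.trans g3']
            · rw [norm_zero]
              linarith
          linarith
        have k3 : ‖cF (2 ^ a * r ^ 2) * (Sg - D * Ig)‖ ≤ 16 * C3 * C4 * (1 + ‖w‖) * (r * Y) := by
          rw [norm_mul]
          have k4 : ‖cF (2 ^ a * r ^ 2)‖ ≤ C3 * r := (h3 a r hr).trans
            (mul_le_mul_of_nonneg_left (card_div_le r) hC3.le)
          have k5 : ‖Sg - D * Ig‖ ≤ 16 * (C4 * (1 + ‖w‖)) :=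
            gz.trans (mul_le_mul_of_nonneg_left (h4 w hw).1 (by norm_num))
          calc _ ≤ (C3 * r) * (16 * (C4 * (1 + ‖w‖))) :=
                mul_le_mul k4 k5 (norm_nonneg _) (by positivity)
            _ = 16 * C3 * C4 * (1 + ‖w‖) * (r * 1) := by ring
            _ ≤ _ := by gcongr
        linarith
      rcases Nat.eq_zero_or_pos X with hX | hX
      · subst hX
        have : osf 0 = ∅ := by
          unfold osf
          simp
        rw [this, filter_empty, sum_empty]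
        positivity
      · have hsing : (osf X).filter (fun n => ¬ 1 < n) = {1} := by
          ext n
          rw [mem_filter, osf, mem_filter, mem_Icc, mem_singleton]
          constructor
          · rintro ⟨⟨⟨q1, q2⟩, q3⟩, q4⟩
            omega
          · rintro rfl
            exact ⟨⟨⟨le_rfl, hX⟩, odd_one, squarefree_one⟩, by omega⟩
        rw [hsing, sum_singleton, Nat.cast_one, Real.one_rpow, one_mul]
        exact hone
    have hC : P * (3 * (C1 * (1 + ‖w‖) ^ A1 * (r * Y))) ≤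
        3 * C1 * (1 + ‖w‖) ^ (A1 + 1) * (r * (P * Y)) := by
      have : (1 + ‖w‖) ^ A1 ≤ (1 + ‖w‖) ^ (A1 + 1) := pow_le_pow_right₀ hw1 (by omega)
      calc _ = 3 * C1 * (1 + ‖w‖) ^ A1 * (r * (P * Y)) := by ring
        _ ≤ _ := by gcongr
    have hD' : P * ((3 * C2 + 16 * C3 * C4) * (1 + ‖w‖) * (r * Y)) ≤
        (3 * C2 + 16 * C3 * C4) * (1 + ‖w‖) ^ (A1 + 1) * (r * (P * Y)) := by
      have : 1 + ‖w‖ ≤ (1 + ‖w‖) ^ (A1 + 1) := by
        calc 1 + ‖w‖ = (1 + ‖w‖) ^ 1 := (pow_one _).symm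
          _ ≤ _ := pow_le_pow_right₀ hw1 (by omega)
      calc _ = (3 * C2 + 16 * C3 * C4) * (1 + ‖w‖) * (r * (P * Y)) := by ring
        _ ≤ _ := by gcongr
    calc _ ≤ P * (3 * (C1 * (1 + ‖w‖) ^ A1 * (r * Y))) +
          P * ((3 * C2 + 16 * C3 * C4) * (1 + ‖w‖) * (r * Y)) := add_le_add hA hB
      _ ≤ _ := add_le_add hC hD'
      _ = _ := by ring
  -- the sum over a and r
  have h5 := reindex (fun N => (N : ℝ) ^ (-(1 + ε)) * ‖SF N w D - cF N * ZZ w D‖)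
    (fun N => by positivity) X
  refine h5.trans ?_
  have h6 : ∀ a ∈ range X, ∑ r ∈ (Icc 1 X).filter Odd, ∑ n0 ∈ osf X,
      ((2 ^ a * (n0 * r ^ 2) : ℕ) : ℝ) ^ (-(1 + ε)) *
        ‖SF (2 ^ a * (n0 * r ^ 2)) w D - cF (2 ^ a * (n0 * r ^ 2)) * ZZ w D‖ ≤
      (1 / 2) ^ a * ((Z + 1) * ((3 * C1 + (3 * C2 + 16 * C3 * C4)) * (1 + ‖w‖) ^ (A1 + 1) *
        (P * Y))) := by
    intro a _
    have h7 : ∀ r ∈ (Icc 1 X).filter Odd, ∑ n0 ∈ osf X,
        ((2 ^ a * (n0 * r ^ 2) : ℕ) : ℝ) ^ (-(1 + ε)) *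
          ‖SF (2 ^ a * (n0 * r ^ 2)) w D - cF (2 ^ a * (n0 * r ^ 2)) * ZZ w D‖ ≤
        (1 / 2) ^ a * ((3 * C1 + (3 * C2 + 16 * C3 * C4)) * (1 + ‖w‖) ^ (A1 + 1) *
          (P * Y)) * (r : ℝ) ^ (-(1 + ε)) := by
      intro r hr
      rw [mem_filter, mem_Icc] at hr
      have hr0 : (0 : ℝ) < r := by exact_mod_cast hr.1.1
      have hr1 : (1 : ℝ) ≤ r := by exact_mod_cast hr.1.1
      have e1 : ∀ n0 : ℕ, ((2 ^ a * (n0 * r ^ 2) : ℕ) : ℝ) ^ (-(1 + ε)) =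
          (((2 : ℝ) ^ a) ^ (-(1 + ε)) * ((r : ℝ) ^ 2) ^ (-(1 + ε))) * (n0 : ℝ) ^ (-(1 + ε)) := by
        intro n0
        push_cast
        rw [Real.mul_rpow (by positivity) (by positivity), Real.mul_rpow (by positivity)
          (by positivity)]
        ring
      have e2 : ∀ n0 ∈ osf X, ((2 ^ a * (n0 * r ^ 2) : ℕ) : ℝ) ^ (-(1 + ε)) *
          ‖SF (2 ^ a * (n0 * r ^ 2)) w D - cF (2 ^ a * (n0 * r ^ 2)) * ZZ w D‖ =
          (((2 : ℝ) ^ a) ^ (-(1 + ε)) * ((r : ℝ) ^ 2) ^ (-(1 + ε))) * ((n0 : ℝ) ^ (-(1 + ε)) *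
          ‖SF (2 ^ a * (n0 * r ^ 2)) w D - cF (2 ^ a * (n0 * r ^ 2)) * ZZ w D‖) := by
        intro n0 _
        rw [e1]
        ring
      rw [sum_congr rfl e2, ← mul_sum]
      have h8 := key a r hr.2
      have h9 : ((2 : ℝ) ^ a) ^ (-(1 + ε)) ≤ (1 / 2) ^ a := by
        rw [← Real.rpow_natCast 2 a, ← Real.rpow_mul (by norm_num), one_div, inv_pow,
          ← Real.rpow_natCast 2 a, ← Real.rpow_neg (by norm_num)]
        apply Real.rpow_le_rpow_of_exponent_le (by norm_num)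
        have : (0 : ℝ) ≤ a := Nat.cast_nonneg a
        nlinarith
      have h10 : ((r : ℝ) ^ 2) ^ (-(1 + ε)) * r ≤ (r : ℝ) ^ (-(1 + ε)) := by
        rw [← Real.rpow_natCast (r : ℝ) 2, ← Real.rpow_mul hr0.le]
        nth_rewrite 2 [← Real.rpow_one (r : ℝ)]
        rw [← Real.rpow_add hr0]
        apply Real.rpow_le_rpow_of_exponent_le hr1
        push_cast
        linarith
      calc _ ≤ (((2 : ℝ) ^ a) ^ (-(1 + ε)) * ((r : ℝ) ^ 2) ^ (-(1 + ε))) *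
            ((3 * C1 + (3 * C2 + 16 * C3 * C4)) * (1 + ‖w‖) ^ (A1 + 1) * (r * (P * Y))) :=
            mul_le_mul_of_nonneg_left h8 (by positivity)
        _ = ((2 : ℝ) ^ a) ^ (-(1 + ε)) * ((3 * C1 + (3 * C2 + 16 * C3 * C4)) *
            (1 + ‖w‖) ^ (A1 + 1) * (P * Y)) * (((r : ℝ) ^ 2) ^ (-(1 + ε)) * r) := by ring
        _ ≤ _ := by gcongr
    refine (sum_le_sum h7).trans ?_
    rw [← mul_sum]
    have h11 : ∑ r ∈ (Icc 1 X).filter Odd, (r : ℝ) ^ (-(1 + ε)) ≤ Z + 1 := by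
      calc _ ≤ ∑ r ∈ Icc 1 X, (r : ℝ) ^ (-(1 + ε)) :=
            sum_le_sum_of_subset_of_nonneg (filter_subset _ _) fun _ _ _ => by positivity
        _ ≤ Z := sum_rpow_le hε X
        _ ≤ Z + 1 := by linarith
    calc _ ≤ (1 / 2) ^ a * ((3 * C1 + (3 * C2 + 16 * C3 * C4)) * (1 + ‖w‖) ^ (A1 + 1) *
          (P * Y)) * (Z + 1) := mul_le_mul_of_nonneg_left h11 (by positivity)
      _ = _ := by ring
  refine (sum_le_sum h6).trans ?_
  rw [← sum_mul]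
  have h12 : ∑ a ∈ range X, (1 / 2 : ℝ) ^ a ≤ 2 := by
    have := (summable_geometric_of_lt_one (by norm_num : (0:ℝ) ≤ 1/2) (by norm_num)).sum_le_tsum
      (range X) fun a _ => by positivity
    rwa [tsum_geometric_of_lt_one (by norm_num) (by norm_num), show (1 - 1 / 2 : ℝ)⁻¹ = 2 by
      norm_num] at this
  have hPY : P * Y = D ^ (1 / 2 + ε / 2 - w.re) := by
    rw [hPre, hY, ← Real.rpow_add hD0]
    congr 1
    ring
  calc _ ≤ 2 * ((Z + 1) * ((3 * C1 + (3 * C2 + 16 * C3 * C4)) * (1 + ‖w‖) ^ (A1 + 1) *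
        (P * Y))) := mul_le_mul_of_nonneg_right h12 (by positivity)
    _ = _ := by rw [hPY]; ring

end Pool.Agent.W5h65.MD
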