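import Pool.Agent.W5h65.MD.A6

set_option autoImplicit false

/-! The fourth moment of the `L`-functions of positive fundamental discriminants. -/

namespace Pool.Agent.W5h65.MD

open Finset Filter Topology MeasureTheory Pool.Agent.H306R2.RZ Pool.Agent.H143R3.FM

lemma holder_fin (q : ℝ) (hq0 : 0 < q) (hq1 : q < 1) (a : ℕ → ℝ) (ha : ∀ j, 0 ≤ a j) (J : ℕ) :
    (∑ j ∈ range J, a j) ^ 4 ≤ ((1 - q)⁻¹) ^ 3 * ∑ j ∈ range J, (q ^ j)⁻¹ ^ 3 * a j ^ 4 := by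
  rcases Nat.eq_zero_or_pos J with h | h
  · subst h
    simp
  obtain ⟨S, hS⟩ : ∃ S, S = ∑ j ∈ range J, q ^ j := ⟨_, rfl⟩
  have hS0 : 0 < S := by
    rw [hS]
    exact sum_pos (fun j _ => by positivity) ⟨0, mem_range.2 h⟩
  have hS1 : S ≤ (1 - q)⁻¹ := by
    rw [hS, ← tsum_geometric_of_lt_one hq0.le hq1]
    exact (summable_geometric_of_lt_one hq0.le hq1).sum_le_tsum _ fun j _ => by positivity
  have h1 := Real.pow_arith_mean_le_arith_mean_pow (range J) (fun j => q ^ j / S)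
    (fun j => a j / q ^ j) (fun j _ => by positivity) (by rw [← sum_div, ← hS, div_self hS0.ne'])
    (fun j _ => div_nonneg (ha j) (by positivity)) 4
  have e1 : ∑ j ∈ range J, q ^ j / S * (a j / q ^ j) = (∑ j ∈ range J, a j) / S := by
    rw [sum_div]
    refine sum_congr rfl fun j _ => ?_
    field_simp
  have e2 : ∑ j ∈ range J, q ^ j / S * (a j / q ^ j) ^ 4 =
      (∑ j ∈ range J, (q ^ j)⁻¹ ^ 3 * a j ^ 4) / S := by
    rw [sum_div]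
    refine sum_congr rfl fun j _ => ?_
    field_simp
  rw [e1, e2, div_pow, div_le_div_iff₀ (by positivity) hS0] at h1
  have h2 : 0 ≤ ∑ j ∈ range J, (q ^ j)⁻¹ ^ 3 * a j ^ 4 := sum_nonneg fun j _ => by
    have := ha j
    positivity
  have h3 : (∑ j ∈ range J, a j) ^ 4 ≤ S ^ 3 * ∑ j ∈ range J, (q ^ j)⁻¹ ^ 3 * a j ^ 4 := by
    have h4 : (∑ j ∈ range J, a j) ^ 4 * S ≤
        (S ^ 3 * ∑ j ∈ range J, (q ^ j)⁻¹ ^ 3 * a j ^ 4) * S := by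
      calc _ ≤ (∑ j ∈ range J, (q ^ j)⁻¹ ^ 3 * a j ^ 4) * S ^ 4 := h1
        _ = _ := by ring
    exact le_of_mul_le_mul_right h4 hS0
  exact h3.trans (mul_le_mul_of_nonneg_right (pow_le_pow_left₀ hS0.le hS1 3) h2)

theorem holder_tsum (q M : ℝ) (hq0 : 0 < q) (hq1 : q < 1) (hM : 0 ≤ M) (T : Finset ℕ)
    (a : ℕ → ℕ → ℝ) (ha : ∀ j κ, 0 ≤ a j κ)
    (h : ∀ j, ∑ κ ∈ T, a j κ ^ 4 ≤ M * (q ^ 6) ^ j) :
    (∀ κ ∈ T, Summable (fun j => a j κ)) ∧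
    ∑ κ ∈ T, (∑' j, a j κ) ^ 4 ≤ ((1 - q)⁻¹) ^ 3 * (M * (1 - q ^ 3)⁻¹) := by
  have hs : ∀ κ ∈ T, Summable (fun j => a j κ) := by
    intro κ hκ
    have h1 : ∀ j, a j κ ≤ (M + 1) * q ^ j := by
      intro j
      have h2 : a j κ ^ 4 ≤ M * (q ^ 6) ^ j :=
        (single_le_sum (f := fun κ => a j κ ^ 4) (fun κ _ => by
          have := ha j κ
          positivity) hκ).trans (h j)
      refine (pow_le_pow_iff_left₀ (ha j κ) (by positivity) (n := 4) (by norm_num)).1 (h2.trans ?_)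
      have h3 : M ≤ (M + 1) ^ 4 := by
        calc M ≤ M + 1 := by linarith
          _ = (M + 1) ^ 1 := (pow_one _).symm
          _ ≤ (M + 1) ^ 4 := pow_le_pow_right₀ (by linarith) (by norm_num)
      have h4 : (q ^ 6) ^ j ≤ (q ^ j) ^ 4 := by
        rw [← pow_mul, ← pow_mul]
        exact pow_le_pow_of_le_one hq0.le hq1.le (by omega)
      rw [mul_pow]
      exact mul_le_mul h3 h4 (by positivity) (by positivity)
    exact Summable.of_nonneg_of_le (fun j => ha j κ) h1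
      ((summable_geometric_of_lt_one hq0.le hq1).mul_left _)
  refine ⟨hs, ?_⟩
  have hlim : Tendsto (fun J => ∑ κ ∈ T, (∑ j ∈ range J, a j κ) ^ 4) atTop
      (𝓝 (∑ κ ∈ T, (∑' j, a j κ) ^ 4)) :=
    tendsto_finsetSum _ fun κ hκ => ((hs κ hκ).hasSum.tendsto_sum_nat).pow 4
  refine le_of_tendsto hlim (Eventually.of_forall fun J => ?_)
  have hq3 : q ^ 3 < 1 := pow_lt_one₀ hq0.le hq1 (by norm_num)
  have h1q : 0 < (1 - q)⁻¹ := inv_pos.2 (by linarith)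
  calc ∑ κ ∈ T, (∑ j ∈ range J, a j κ) ^ 4
      ≤ ∑ κ ∈ T, ((1 - q)⁻¹) ^ 3 * ∑ j ∈ range J, (q ^ j)⁻¹ ^ 3 * a j κ ^ 4 :=
        sum_le_sum fun κ _ => holder_fin q hq0 hq1 _ (fun j => ha j κ) J
    _ = ((1 - q)⁻¹) ^ 3 * ∑ j ∈ range J, (q ^ j)⁻¹ ^ 3 * ∑ κ ∈ T, a j κ ^ 4 := by
        rw [← mul_sum, sum_comm]
        congr 1
        exact sum_congr rfl fun j _ => (mul_sum _ _ _).symm
    _ ≤ ((1 - q)⁻¹) ^ 3 * ∑ j ∈ range J, (q ^ j)⁻¹ ^ 3 * (M * (q ^ 6) ^ j) := by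
        apply mul_le_mul_of_nonneg_left _ (by positivity)
        exact sum_le_sum fun j _ => mul_le_mul_of_nonneg_left (h j) (by positivity)
    _ = ((1 - q)⁻¹) ^ 3 * (M * ∑ j ∈ range J, (q ^ 3) ^ j) := by
        congr 1
        rw [mul_sum]
        refine sum_congr rfl fun j _ => ?_
        have : (q ^ 6) ^ j = (q ^ j) ^ 3 * (q ^ 3) ^ j := by
          rw [← pow_mul, ← pow_mul, ← pow_mul, ← pow_add]
          congr 1
          ring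
        rw [this, inv_pow]
        field_simp
    _ ≤ _ := by
        apply mul_le_mul_of_nonneg_left _ (by positivity)
        apply mul_le_mul_of_nonneg_left _ hM
        rw [← tsum_geometric_of_lt_one (by positivity) hq3]
        exact (summable_geometric_of_lt_one (by positivity) hq3).sum_le_tsum _
          fun j _ => by positivity

/-- dyadic piece of the `L`-series of `ψ(m) (m | κ)`, `m` odd -/
noncomputable def PP (ψ : ℕ → ℂ) (κ : ℕ) (s : ℂ) (j : ℕ) : ℂ :=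
  (((2 : ℝ) ^ j : ℝ) : ℂ) ^ (-s) * UU ψ κ (cs PH s) (2 ^ j)

lemma norm_two_pow (s : ℂ) (j : ℕ) :
    ‖(((2 : ℝ) ^ j : ℝ) : ℂ) ^ (-s)‖ = ((2 : ℝ) ^ j) ^ (-s.re) := by
  rw [Complex.norm_cpow_eq_rpow_re_of_pos (by positivity)]
  rfl

theorem mom4 (ε B : ℝ) (hε : 0 < ε) : ∃ (C : ℝ) (A : ℕ), 0 < C ∧ ∀ (K : ℕ) (ψ : ℕ → ℂ) (s : ℂ),
    1 ≤ K → (∀ m, ‖ψ m‖ ≤ 1) → (∀ m, ψ (m + 8) = ψ m) → 1 / 2 + ε ≤ s.re → s.re ≤ B →
    ∑ κ ∈ (osf K).filter (fun κ => 1 < κ), (∑' j, ‖PP ψ κ s j‖) ^ 4 ≤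
      C * (1 + ‖s‖) ^ A * (K : ℝ) ^ (1 + ε) := by
  obtain ⟨C, A, hC, h⟩ := nm4 ε B hε
  set q : ℝ := 2 ^ (-(ε / 2)) with hq
  have hq0 : 0 < q := by positivity
  have hq1 : q < 1 := Real.rpow_lt_one_of_one_lt_of_neg (by norm_num) (by linarith)
  have hq3 : q ^ 3 < 1 := pow_lt_one₀ hq0.le hq1 (by norm_num)
  have h1q : 0 < (1 - q)⁻¹ := inv_pos.2 (by linarith)
  have h3q : 0 < (1 - q ^ 3)⁻¹ := inv_pos.2 (by linarith)
  refine ⟨((1 - q)⁻¹) ^ 3 * (C * (1 - q ^ 3)⁻¹), A, by positivity, ?_⟩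
  intro K ψ s hK hψ1 hψ hs1 hs2
  have hB : |s.re| ≤ B := by rw [abs_of_nonneg (by linarith)]; exact hs2
  have hK0 : (0 : ℝ) < K := by exact_mod_cast hK
  obtain ⟨M, hM⟩ : ∃ M, M = C * (1 + ‖s‖) ^ A * (K : ℝ) ^ (1 + ε) := ⟨_, rfl⟩
  have hM0 : 0 ≤ M := by rw [hM]; positivity
  have key := holder_tsum q M hq0 hq1 hM0 ((osf K).filter (fun κ => 1 < κ))
    (fun j κ => ‖PP ψ κ s j‖) (fun _ _ => norm_nonneg _) (by
      intro j
      have h2 : (1 : ℝ) ≤ 2 ^ j := one_le_pow₀ (by norm_num)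
      have h3 := h K (2 ^ j) ψ s hK (by linarith) hψ1 hψ hB
      have e1 : ∑ κ ∈ (osf K).filter (fun κ => 1 < κ), ‖PP ψ κ s j‖ ^ 4 =
          (((2 : ℝ) ^ j) ^ (-s.re)) ^ 4 *
          ∑ κ ∈ (osf K).filter (fun κ => 1 < κ), ‖UU ψ κ (cs PH s) (2 ^ j)‖ ^ 4 := by
        rw [mul_sum]
        refine sum_congr rfl fun κ _ => ?_
        unfold PP
        rw [norm_mul, norm_two_pow, mul_pow]
      rw [e1]
      have h4 : (((2 : ℝ) ^ j) ^ (-s.re)) ^ 4 * (((K : ℝ) * 2 ^ j) ^ ε * (K * ((2 : ℝ) ^ j) ^ 2)) ≤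
          (K : ℝ) ^ (1 + ε) * (q ^ 6) ^ j := by
        have e2 : (((2 : ℝ) ^ j) ^ (-s.re)) ^ 4 * (((K : ℝ) * 2 ^ j) ^ ε * (K * ((2 : ℝ) ^ j) ^ 2)) =
            (K : ℝ) ^ (1 + ε) * (2 : ℝ) ^ ((j : ℝ) * (2 + ε - 4 * s.re)) := by
          rw [Real.mul_rpow hK0.le (by positivity), Real.rpow_add hK0, Real.rpow_one,
            ← Real.rpow_natCast (((2 : ℝ) ^ j) ^ (-s.re)) 4, ← Real.rpow_natCast ((2 : ℝ) ^ j) 2,
            ← Real.rpow_natCast 2 j, ← Real.rpow_mul (by norm_num), ← Real.rpow_mul (by norm_num),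
            ← Real.rpow_mul (by norm_num), ← Real.rpow_mul (by norm_num)]
          have e3 : (2 : ℝ) ^ ((j : ℝ) * (2 + ε - 4 * s.re)) = (2 : ℝ) ^ ((j : ℝ) * -s.re * (4 : ℕ)) *
              (2 : ℝ) ^ ((j : ℝ) * ε) * (2 : ℝ) ^ ((j : ℝ) * (2 : ℕ)) := by
            rw [← Real.rpow_add (by norm_num), ← Real.rpow_add (by norm_num)]
            congr 1
            push_cast
            ring
          rw [e3]
          ring
        rw [e2]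
        apply mul_le_mul_of_nonneg_left _ (by positivity)
        have e4 : (q ^ 6) ^ j = (2 : ℝ) ^ ((j : ℝ) * (-(3 * ε))) := by
          rw [hq, ← Real.rpow_natCast _ 6, ← Real.rpow_natCast _ j, ← Real.rpow_mul (by positivity),
            ← Real.rpow_mul (by positivity)]
          congr 1
          push_cast
          ring
        rw [e4]
        apply Real.rpow_le_rpow_of_exponent_le (by norm_num)
        apply mul_le_mul_of_nonneg_left _ (Nat.cast_nonneg j)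
        linarith
      calc _ ≤ (((2 : ℝ) ^ j) ^ (-s.re)) ^ 4 *
            (C * (1 + ‖s‖) ^ A * ((K : ℝ) * 2 ^ j) ^ ε * (K * ((2 : ℝ) ^ j) ^ 2)) :=
            mul_le_mul_of_nonneg_left h3 (by positivity)
        _ = C * (1 + ‖s‖) ^ A * ((((2 : ℝ) ^ j) ^ (-s.re)) ^ 4 * (((K : ℝ) * 2 ^ j) ^ ε *
            (K * ((2 : ℝ) ^ j) ^ 2))) := by ring
        _ ≤ C * (1 + ‖s‖) ^ A * ((K : ℝ) ^ (1 + ε) * (q ^ 6) ^ j) :=
            mul_le_mul_of_nonneg_left h4 (by positivity)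
        _ = M * (q ^ 6) ^ j := by rw [hM]; ring)
  refine key.2.trans (le_of_eq ?_)
  rw [hM]
  ring

/-- decay of the dyadic pieces, `κ > 1` -/
theorem piece_gt (ε B : ℝ) (hε : 0 < ε) (κ : ℕ) (h1 : 1 < κ) (h2 : Odd κ) (h3 : Squarefree κ) :
    ∃ (C : ℝ) (A : ℕ) (q : ℝ), 0 < C ∧ 0 < q ∧ q < 1 ∧ ∀ (ψ : ℕ → ℂ) (s : ℂ) (j : ℕ),
    (∀ m, ‖ψ m‖ ≤ 1) → (∀ m, ψ (m + 8) = ψ m) → 1 / 2 + ε ≤ s.re → s.re ≤ B →
    ‖PP ψ κ s j‖ ≤ C * (1 + ‖s‖) ^ A * q ^ j := by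
  obtain ⟨C, A, hC, h⟩ := nm1 (ε / 2) B (by positivity)
  refine ⟨C * (κ : ℝ) ^ (1 + ε / 2), A, 2 ^ (-(ε / 2)), by positivity, by positivity,
    Real.rpow_lt_one_of_one_lt_of_neg (by norm_num) (by linarith), ?_⟩
  intro ψ s j hψ1 hψ hs1 hs2
  have hB : |s.re| ≤ B := by rw [abs_of_nonneg (by linarith)]; exact hs2
  have h4 : (1 : ℝ) ≤ 2 ^ j := one_le_pow₀ (by norm_num)
  have h5 := h κ (2 ^ j) ψ s (by omega) (by linarith) hψ1 hψ hB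
  have hmem : κ ∈ (osf κ).filter (fun κ => 1 < κ) := by
    rw [mem_filter, osf, mem_filter, mem_Icc]
    exact ⟨⟨⟨by omega, le_rfl⟩, h2, h3⟩, h1⟩
  have h6 : ‖UU ψ κ (cs PH s) (2 ^ j)‖ ≤ _ :=
    (single_le_sum (f := fun κ => ‖UU ψ κ (cs PH s) (2 ^ j)‖) (fun _ _ => norm_nonneg _) hmem).trans
      h5
  unfold PP
  rw [norm_mul, norm_two_pow]
  have e1 : ((2 : ℝ) ^ j) ^ (-s.re) * ((2 : ℝ) ^ j) ^ (1 / 2 + ε / 2) ≤ ((2 : ℝ) ^ (-(ε / 2))) ^ j := by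
    rw [← Real.rpow_add (by positivity), ← Real.rpow_natCast 2 j, ← Real.rpow_natCast _ j,
      ← Real.rpow_mul (by norm_num), ← Real.rpow_mul (by norm_num)]
    apply Real.rpow_le_rpow_of_exponent_le (by norm_num)
    rw [mul_comm]
    apply mul_le_mul_of_nonneg_right _ (Nat.cast_nonneg j)
    linarith
  calc _ ≤ ((2 : ℝ) ^ j) ^ (-s.re) * (C * (1 + ‖s‖) ^ A * ((κ : ℝ) ^ (1 + ε / 2) *
        ((2 : ℝ) ^ j) ^ (1 / 2 + ε / 2))) := mul_le_mul_of_nonneg_left h6 (by positivity)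
    _ = C * (κ : ℝ) ^ (1 + ε / 2) * (1 + ‖s‖) ^ A * (((2 : ℝ) ^ j) ^ (-s.re) *
        ((2 : ℝ) ^ j) ^ (1 / 2 + ε / 2)) := by ring
    _ ≤ _ := mul_le_mul_of_nonneg_left e1 (by positivity)

/-- decay of the dyadic pieces, `κ = 1` and a periodic factor with mean zero -/
theorem piece_one (B : ℝ) : ∃ C : ℝ, 0 < C ∧ ∀ (ψ : ℕ → ℂ) (s : ℂ) (j : ℕ),
    (∀ m, ‖ψ m‖ ≤ 1) → (∀ m, ψ (m + 8) = ψ m) → mean (od ψ) = 0 → 1 / 2 ≤ s.re → s.re ≤ B →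
    ‖PP ψ 1 s j‖ ≤ C * (1 + ‖s‖) * ((2 : ℝ) ^ (-(1 / 2 : ℝ))) ^ j := by
  obtain ⟨C, hC, h⟩ := VV_bound B PH PH_SS
  refine ⟨16 * C, by positivity, ?_⟩
  intro ψ s j hψ1 hψ h0 hs1 hs2
  have hB : |s.re| ≤ B := by rw [abs_of_nonneg (by linarith)]; exact hs2
  have h1 := per_sum (PH_SS.cs s) (od_per hψ) (od_norm hψ1) (t := 2 ^ j) (by positivity)
  rw [h0] at h1
  simp only [zero_mul, sub_zero] at h1
  unfold PP
  rw [norm_mul, norm_two_pow, UU_one]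
  have e1 : ((2 : ℝ) ^ j) ^ (-s.re) ≤ ((2 : ℝ) ^ (-(1 / 2 : ℝ))) ^ j := by
    rw [← Real.rpow_natCast 2 j, ← Real.rpow_natCast _ j, ← Real.rpow_mul (by norm_num),
      ← Real.rpow_mul (by norm_num)]
    apply Real.rpow_le_rpow_of_exponent_le (by norm_num)
    rw [mul_comm]
    apply mul_le_mul_of_nonneg_right _ (Nat.cast_nonneg j)
    linarith
  calc _ ≤ ((2 : ℝ) ^ (-(1 / 2 : ℝ))) ^ j * (16 * (C * (1 + ‖s‖))) := by
        refine mul_le_mul e1 (h1.trans ?_) (norm_nonneg _) (by positivity)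
        exact mul_le_mul_of_nonneg_left (h s hB).1 (by norm_num)
    _ = _ := by ring

end Pool.Agent.W5h65.MD
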