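import Pool.Agent.W5h65.MD.A8

set_option autoImplicit false

/-! Dyadic partition of sums; holomorphy of series in several variables. -/

namespace Pool.Agent.W5h65.MD

open Finset Filter Topology MeasureTheory Pool.Agent.H306R2.RZ Pool.Agent.H143R3.FM

lemma ph_nonneg {x : ℝ} (hx : 0 ≤ x) : 0 ≤ ph x := by
  unfold ph hh
  have := Real.smoothTransition.monotone (show 2 - 2 * x ≤ 2 - x by linarith)
  linarith

lemma PH_norm {x : ℝ} (hx : 0 ≤ x) : ‖PH x‖ = ph x := by
  unfold PH
  rw [Complex.norm_real, Real.norm_of_nonneg (ph_nonneg hx)]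

lemma PH_le (x : ℝ) : ‖PH x‖ ≤ 1 := by
  unfold PH
  rw [Complex.norm_real]
  exact ph_abs x

lemma PH_hasSum {x : ℝ} (hx : 1 ≤ x) : HasSum (fun j : ℕ => PH (x / 2 ^ j)) 1 := by
  have := (ph_tsum hx)
  have h2 := Complex.hasSum_ofReal.2 this
  simpa [PH] using h2

/-- the dyadic partition -/
theorem dyadic {f : ℕ → ℂ} (hf : Summable (fun n => ‖f n‖)) (h0 : f 0 = 0) :
    HasSum (fun j : ℕ => ∑' m : ℕ, PH (m / 2 ^ j) * f m) (∑' m, f m) := by
  obtain ⟨F, hF⟩ : ∃ F : ℕ × ℕ → ℂ, F = fun p => PH (p.1 / 2 ^ p.2) * f p.1 := ⟨_, rfl⟩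
  have h1 : ∀ m, HasSum (fun j => ‖F (m, j)‖) ‖f m‖ := by
    intro m
    rcases Nat.eq_zero_or_pos m with h | h
    · subst h
      simp only [hF, h0, mul_zero, norm_zero]
      exact hasSum_zero
    · have h2 : (1 : ℝ) ≤ m := by exact_mod_cast h
      have h3 := (ph_tsum h2).mul_right ‖f m‖
      rw [one_mul] at h3
      have h4 : (fun j => ‖F (m, j)‖) = fun j : ℕ => ph (m / 2 ^ j) * ‖f m‖ := by
        funext j
        simp only [hF]
        rw [norm_mul, PH_norm (by positivity)]
      rw [h4]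
      exact h3
  have h2 : ∀ m, HasSum (fun j => F (m, j)) (f m) := by
    intro m
    rcases Nat.eq_zero_or_pos m with h | h
    · subst h
      simp only [hF, h0, mul_zero]
      exact hasSum_zero
    · have h2 : (1 : ℝ) ≤ m := by exact_mod_cast h
      have h3 := (PH_hasSum h2).mul_right (f m)
      rw [one_mul] at h3
      simpa only [hF] using h3
  have h3 : Summable F := by
    apply Summable.of_norm
    rw [summable_prod_of_nonneg (fun p => norm_nonneg _)]
    refine ⟨fun m => (h1 m).summable, ?_⟩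
    have : (fun m => ∑' j, ‖F (m, j)‖) = fun m => ‖f m‖ := by
      funext m
      exact (h1 m).tsum_eq
    rw [this]
    exact hf
  have h4 : ∑' p, F p = ∑' m, f m := by
    rw [h3.tsum_prod]
    exact tsum_congr fun m => (h2 m).tsum_eq
  have h5 : Summable (fun p : ℕ × ℕ => F p.swap) := h3.prod_symm
  have h6 : ∑' p : ℕ × ℕ, F p.swap = ∑' p, F p := (Equiv.prodComm ℕ ℕ).tsum_eq F
  have h7 := h5.hasSum.prod_fiberwise (fun j => (h5.prod_factor j).hasSum)
  rw [h6, h4] at h7
  simpa only [hF, Prod.swap_prod_mk] using h7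

/-- a locally uniformly summable series of holomorphic functions is holomorphic -/
theorem holo_tsum {E ι : Type*} [NormedAddCommGroup E] [NormedSpace ℂ E] {F : ι → E → ℂ}
    {U : Set E} (hU : IsOpen U) (hF : ∀ i, DifferentiableOn ℂ (F i) U) {u : ι → ℝ} (hu : Summable u)
    (h : ∀ i, ∀ z ∈ U, ‖F i z‖ ≤ u i) : DifferentiableOn ℂ (fun z => ∑' i, F i z) U := by
  intro z0 hz0
  obtain ⟨r, hr, hball⟩ := Metric.isOpen_iff.1 hU z0 hz0
  have hu0 : ∀ i, 0 ≤ u i := fun i => (norm_nonneg _).trans (h i z0 hz0)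
  have hder : ∀ i, ∀ z ∈ Metric.ball z0 (r / 2), ‖fderiv ℂ (F i) z‖ ≤ u i / (r / 4) := by
    intro i z hz
    apply ContinuousLinearMap.opNorm_le_of_unit_norm (by
      have := hu0 i
      positivity)
    intro v hv
    have hmem : ∀ t : ℂ, ‖t‖ ≤ r / 4 → z + t • v ∈ Metric.ball z0 r := by
      intro t ht
      rw [Metric.mem_ball, dist_eq_norm] at hz ⊢
      calc ‖z + t • v - z0‖ = ‖(z - z0) + t • v‖ := by congr 1; abel
        _ ≤ ‖z - z0‖ + ‖t • v‖ := norm_add_le _ _
        _ = ‖z - z0‖ + ‖t‖ := by rw [norm_smul, hv, mul_one]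
        _ < r := by linarith
    have hd : ∀ t : ℂ, ‖t‖ ≤ r / 4 → DifferentiableAt ℂ (fun t : ℂ => F i (z + t • v)) t := by
      intro t ht
      have h1 : DifferentiableAt ℂ (F i) (z + t • v) :=
        (hF i _ (hball (hmem t ht))).differentiableAt (hU.mem_nhds (hball (hmem t ht)))
      exact DifferentiableAt.comp (g := F i) (f := fun t : ℂ => z + t • v) t h1
        ((differentiableAt_id.smul_const v).const_add z)
    have h2 : deriv (fun t : ℂ => F i (z + t • v)) 0 = fderiv ℂ (F i) z v := by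
      have h3 : HasFDerivAt (F i) (fderiv ℂ (F i) z) (z + (0 : ℂ) • v) := by
        rw [zero_smul, add_zero]
        have hz' : z ∈ U := by
          apply hball
          have := hmem 0 (by rw [norm_zero]; positivity)
          simpa using this
        exact ((hF i _ hz').differentiableAt (hU.mem_nhds hz')).hasFDerivAt
      have h4 : HasDerivAt (fun t : ℂ => z + t • v) v 0 := by
        have := ((hasDerivAt_id (0 : ℂ)).smul_const v).const_add z
        simpa using this
      exact (h3.comp_hasDerivAt (0 : ℂ) h4).deriv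
    rw [← h2]
    apply Complex.norm_deriv_le_of_forall_mem_sphere_norm_le (by positivity)
    · apply DifferentiableOn.diffContOnCl
      rw [closure_ball _ (by positivity)]
      intro t ht
      rw [mem_closedBall_zero_iff] at ht
      exact (hd t ht).differentiableWithinAt
    · intro t ht
      rw [mem_sphere_zero_iff_norm] at ht
      exact h i _ (hball (hmem t ht.le))
  have hsub : Metric.ball z0 (r / 2) ⊆ U := (Metric.ball_subset_ball (by linarith)).trans hball
  have hz0' : z0 ∈ Metric.ball z0 (r / 2) := Metric.mem_ball_self (by positivity)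
  have key := hasFDerivAt_tsum_of_isPreconnected (𝕜 := ℂ) (hu.div_const (r / 4)) Metric.isOpen_ball
    (convex_ball z0 (r / 2)).isPreconnected
    (fun i z hz => ((hF i z (hsub hz)).differentiableAt (hU.mem_nhds (hsub hz))).hasFDerivAt)
    hder hz0' (Summable.of_norm_bounded hu (fun i => h i z0 hz0)) hz0'
  exact key.differentiableAt.differentiableWithinAt

/-- holomorphy from bounds on a neighbourhood of each point -/
theorem holo_tsum' {E ι : Type*} [NormedAddCommGroup E] [NormedSpace ℂ E] {F : ι → E → ℂ}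
    {U : Set E} (hF : ∀ i, DifferentiableOn ℂ (F i) U)
    (h : ∀ z ∈ U, ∃ V ⊆ U, IsOpen V ∧ z ∈ V ∧ ∃ u : ι → ℝ, Summable u ∧ ∀ i, ∀ z ∈ V, ‖F i z‖ ≤ u i) :
    DifferentiableOn ℂ (fun z => ∑' i, F i z) U := by
  intro z hz
  obtain ⟨V, hV1, hV2, hV3, u, hu, h1⟩ := h z hz
  exact ((holo_tsum hV2 (fun i => (hF i).mono hV1) hu h1 z hV3).differentiableAt
    (hV2.mem_nhds hV3)).differentiableWithinAt

end Pool.Agent.W5h65.MD
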