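import Pool.Agent.W5h65.MD.B1

set_option autoImplicit false

/-! The `L`-functions of positive fundamental discriminants. -/

namespace Pool.Agent.W5h65.MD

open Finset Filter Topology MeasureTheory Pool.Agent.H306R2.RZ Pool.Agent.H143R3.FM

/-- `L(s, χ_d)` -/
noncomputable def LL (d : ℕ) (s : ℂ) : ℂ := ∑' n : ℕ, ((kr d n : ℤ) : ℂ) * (n : ℂ) ^ (-s)

/-- smooth dyadic pieces, odd `m` only -/
noncomputable def Lp (d : ℕ) (s : ℂ) (j : ℕ) : ℂ :=
  ∑' m : ℕ, PH (m / 2 ^ j) * (if Odd m then ((kr d m : ℤ) : ℂ) * (m : ℂ) ^ (-s) else 0)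

noncomputable def Lo (d : ℕ) (s : ℂ) : ℂ := ∑' j : ℕ, Lp d s j

/-- the continuation of `L(s, χ_d)` to `Re s > 1/2` -/
noncomputable def Ld (d : ℕ) (s : ℂ) : ℂ := (1 - ((kr d 2 : ℤ) : ℂ) * (2 : ℂ) ^ (-s))⁻¹ * Lo d s

lemma kr_mul (d a b : ℕ) : kr d (a * b) = kr d a * kr d b := by
  unfold kr
  split_ifs with h1 h2 h3 h4 h5 h6
  · push_cast
    exact jacobiSym.mul_left _ _ _
  · have ha : a ≠ 0 := by rintro rfl; simp at h2
    have hb : b ≠ 0 := by rintro rfl; simp at h2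
    have : NeZero a := ⟨ha⟩
    have : NeZero b := ⟨hb⟩
    exact jacobiSym.mul_right _ _ _
  · rw [Nat.odd_mul] at h2; tauto
  · rw [Nat.odd_mul] at h2; tauto
  · rw [Nat.odd_mul] at h2; tauto
  · rw [Nat.odd_mul] at h2; tauto
  · simp
  · simp
  · simp

lemma kr_norm (d n : ℕ) : ‖((kr d n : ℤ) : ℂ)‖ ≤ 1 := by
  have := kr_abs d n
  rw [show ((kr d n : ℤ) : ℂ) = (((kr d n : ℤ) : ℝ) : ℂ) by push_cast; rfl, Complex.norm_real]
  exact this

lemma nat_cpow_norm {n : ℕ} (hn : 1 ≤ n) (s : ℂ) : ‖(n : ℂ) ^ (-s)‖ = (n : ℝ) ^ (-s.re) := by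
  rw [Complex.norm_natCast_cpow_of_pos (by omega)]
  rfl

lemma zero_cpow_neg {s : ℂ} (hs : 1 < s.re) : (0 : ℂ) ^ (-s) = 0 := by
  apply Complex.zero_cpow
  intro h
  have : s.re = 0 := by
    have := congrArg Complex.re h
    simpa using this
  linarith

lemma term_norm (d n : ℕ) {s : ℂ} (hs : 1 < s.re) :
    ‖((kr d n : ℤ) : ℂ) * (n : ℂ) ^ (-s)‖ ≤ (n : ℝ) ^ (-s.re) := by
  rw [norm_mul]
  rcases Nat.eq_zero_or_pos n with h | h
  · subst h
    rw [Nat.cast_zero, zero_cpow_neg hs, norm_zero, mul_zero]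
    positivity
  · rw [nat_cpow_norm h]
    exact mul_le_of_le_one_left (by positivity) (kr_norm d n)

lemma summ_rpow {a : ℝ} (ha : 1 < a) : Summable (fun n : ℕ => (n : ℝ) ^ (-a)) :=
  Real.summable_nat_rpow.2 (by linarith)

lemma LL_summable (d : ℕ) {s : ℂ} (hs : 1 < s.re) :
    Summable (fun n : ℕ => ‖((kr d n : ℤ) : ℂ) * (n : ℂ) ^ (-s)‖) :=
  Summable.of_nonneg_of_le (fun _ => norm_nonneg _) (fun n => term_norm d n hs) (summ_rpow hs)

lemma LL_norm (d : ℕ) {s : ℂ} {a : ℝ} (ha : 1 < a) (hs : a ≤ s.re) :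
    ‖LL d s‖ ≤ ∑' n : ℕ, (n : ℝ) ^ (-a) := by
  have hs1 : 1 < s.re := by linarith
  unfold LL
  refine (norm_tsum_le_tsum_norm (LL_summable d hs1)).trans ?_
  refine (LL_summable d hs1).tsum_le_tsum (fun n => (term_norm d n hs1).trans ?_) (summ_rpow ha)
  rcases Nat.eq_zero_or_pos n with h | h
  · subst h
    rw [Nat.cast_zero, Real.zero_rpow (by linarith), Real.zero_rpow (by linarith)]
  · exact Real.rpow_le_rpow_of_exponent_le (by exact_mod_cast h) (by linarith)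

lemma two_cpow_norm {s : ℂ} (hs : 1 / 2 ≤ s.re) : ‖(2 : ℂ) ^ (-s)‖ ≤ 3 / 4 := by
  have h := nat_cpow_norm (n := 2) (by norm_num) s
  push_cast at h
  rw [h]
  calc (2 : ℝ) ^ (-s.re) ≤ 2 ^ (-(1 / 2 : ℝ)) :=
        Real.rpow_le_rpow_of_exponent_le (by norm_num) (by linarith)
    _ ≤ 3 / 4 := by
        rw [Real.rpow_neg (by norm_num), ← Real.sqrt_eq_rpow]
        have : (4 / 3 : ℝ) ≤ √2 := Real.le_sqrt_of_sq_le (by norm_num)
        calc (√2)⁻¹ ≤ (4 / 3 : ℝ)⁻¹ := inv_anti₀ (by norm_num) this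
          _ = 3 / 4 := by norm_num

lemma eul_norm (d : ℕ) {s : ℂ} (hs : 1 / 2 ≤ s.re) :
    1 / 4 ≤ ‖1 - ((kr d 2 : ℤ) : ℂ) * (2 : ℂ) ^ (-s)‖ := by
  have h1 : ‖((kr d 2 : ℤ) : ℂ) * (2 : ℂ) ^ (-s)‖ ≤ 3 / 4 := by
    rw [norm_mul]
    calc _ ≤ 1 * (3 / 4 : ℝ) := mul_le_mul (kr_norm d 2) (two_cpow_norm hs) (norm_nonneg _) one_pos.le
      _ = _ := one_mul _
  have h2 := norm_sub_norm_le (1 : ℂ) (((kr d 2 : ℤ) : ℂ) * (2 : ℂ) ^ (-s))
  rw [norm_one] at h2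
  linarith

lemma eul_ne (d : ℕ) {s : ℂ} (hs : 1 / 2 ≤ s.re) :
    1 - ((kr d 2 : ℤ) : ℂ) * (2 : ℂ) ^ (-s) ≠ 0 := by
  intro h
  have := eul_norm d hs
  rw [h, norm_zero] at this
  linarith

lemma Ld_norm (d : ℕ) {s : ℂ} (hs : 1 / 2 ≤ s.re) : ‖Ld d s‖ ≤ 4 * ‖Lo d s‖ := by
  unfold Ld
  rw [norm_mul, norm_inv]
  apply mul_le_mul_of_nonneg_right _ (norm_nonneg _)
  calc _ ≤ (1 / 4 : ℝ)⁻¹ := inv_anti₀ (by norm_num) (eul_norm d hs)
    _ = 4 := by norm_num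

theorem Ld_eq (d : ℕ) {s : ℂ} (hs : 1 < s.re) : Ld d s = LL d s := by
  obtain ⟨f, hf⟩ : ∃ f : ℕ → ℂ, f = fun n => ((kr d n : ℤ) : ℂ) * (n : ℂ) ^ (-s) := ⟨_, rfl⟩
  have hfs : Summable (fun n => ‖f n‖) := by rw [hf]; exact LL_summable d hs
  have hfo : Summable (fun n => ‖if Odd n then f n else 0‖) := by
    refine Summable.of_nonneg_of_le (fun _ => norm_nonneg _) (fun n => ?_) hfs
    split_ifs
    · exact le_rfl
    · rw [norm_zero]; exact norm_nonneg _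
  have hfe : Summable (fun n => ‖if Even n then f n else 0‖) := by
    refine Summable.of_nonneg_of_le (fun _ => norm_nonneg _) (fun n => ?_) hfs
    split_ifs
    · exact le_rfl
    · rw [norm_zero]; exact norm_nonneg _
  have h1 : ∑' n, f n = ∑' n, (if Odd n then f n else 0) + ∑' n, (if Even n then f n else 0) := by
    rw [← hfo.of_norm.tsum_add hfe.of_norm]
    refine tsum_congr fun n => ?_
    rcases Nat.even_or_odd n with h | h
    · rw [if_pos h, if_neg (Nat.not_odd_iff_even.2 h), zero_add]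
    · rw [if_pos h, if_neg (Nat.not_even_iff_odd.2 h), add_zero]
  have h2 : ∑' n, (if Even n then f n else 0) = f 2 * ∑' n, f n := by
    have hinj : Function.Injective (fun m : ℕ => 2 * m) := fun a b hab => by simpa using hab
    have h3 := hinj.tsum_eq (f := fun n : ℕ => if Even n then f n else 0) (by
      intro n hn
      rw [Function.mem_support] at hn
      by_contra h4
      apply hn
      rw [if_neg]
      intro h5
      exact h4 ⟨n / 2, by simp only; rw [Nat.even_iff] at h5; omega⟩)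
    rw [← h3, ← tsum_mul_left]
    refine tsum_congr fun n => ?_
    rw [if_pos (even_two_mul n), hf]
    simp only
    rw [kr_mul, Nat.cast_mul, Complex.natCast_mul_natCast_cpow]
    push_cast
    ring
  have h3 : Lo d s = ∑' n, (if Odd n then f n else 0) := by
    have h4 := (dyadic hfo (by simp)).tsum_eq
    rw [← h4]
    unfold Lo Lp
    rw [hf]
  have h5 : LL d s = ∑' n, f n := by rw [hf]; rfl
  have h6 : (1 - f 2) * LL d s = Lo d s := by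
    rw [h3, h5]
    rw [h2] at h1
    linear_combination h1
  have h7 : f 2 = ((kr d 2 : ℤ) : ℂ) * (2 : ℂ) ^ (-s) := by rw [hf]; simp
  unfold Ld
  rw [← h6, h7, ← mul_assoc, inv_mul_cancel₀ (eul_ne d (by linarith)), one_mul]

/-! ### pieces -/

lemma Lp_fin (d : ℕ) (s : ℂ) (j : ℕ) : Lp d s j = ∑ m ∈ range (2 ^ (j + 1) + 1),
    PH (m / 2 ^ j) * (if Odd m then ((kr d m : ℤ) : ℂ) * (m : ℂ) ^ (-s) else 0) := by
  unfold Lp
  apply tsum_eq_sum
  intro m hm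
  rw [mem_range, not_lt] at hm
  rw [PH_zero, zero_mul]
  rw [lt_div_iff₀ (by positivity)]
  have h : ((2 ^ (j + 1) + 1 : ℕ) : ℝ) ≤ m := by exact_mod_cast hm
  push_cast at h
  rw [pow_succ] at h
  linarith

lemma nat_cpow_diff {m : ℕ} (hm : m ≠ 0) : Differentiable ℂ (fun s : ℂ => (m : ℂ) ^ (-s)) := by
  intro s
  apply DifferentiableAt.const_cpow
  · exact differentiableAt_id.neg
  · left
    exact_mod_cast hm

lemma Lp_diff (d j : ℕ) : Differentiable ℂ (fun s => Lp d s j) := by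
  have : (fun s => Lp d s j) = fun s => ∑ m ∈ range (2 ^ (j + 1) + 1),
    PH (m / 2 ^ j) * (if Odd m then ((kr d m : ℤ) : ℂ) * (m : ℂ) ^ (-s) else 0) := by
    funext s
    exact Lp_fin d s j
  rw [this]
  apply Differentiable.fun_sum
  intro m _
  by_cases hm : Odd m
  · simp only [if_pos hm]
    exact ((nat_cpow_diff hm.pos.ne').const_mul _).const_mul _
  · simp only [if_neg hm]
    exact differentiable_const _

lemma Lp_eq {d κ : ℕ} {ψ : ℕ → ℂ} (h : ∀ m, Odd m → ((kr d m : ℤ) : ℂ) = ψ m * (js m κ : ℂ)) (s : ℂ)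
    (j : ℕ) : Lp d s j = PP ψ κ s j := by
  unfold Lp PP UU
  rw [← tsum_mul_left]
  refine tsum_congr fun m => ?_
  by_cases hm : Odd m
  · rw [if_pos hm, if_pos hm, h m hm]
    have h3 := PHcs (c := 1) (D := 2 ^ j) hm.pos (by positivity) one_pos s
    rw [one_mul, div_one] at h3
    have h5 : PH (m / 2 ^ j) * (m : ℂ) ^ (-s) =
        (((2 : ℝ) ^ j : ℝ) : ℂ) ^ (-s) * cs PH s (m / 2 ^ j) := by simpa using h3
    calc _ = ψ m * (js m κ : ℂ) * (PH (m / 2 ^ j) * (m : ℂ) ^ (-s)) := by ring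
      _ = _ := by rw [h5]; ring
  · rw [if_neg hm, if_neg hm, mul_zero, mul_zero]

/-- the periodic factor of `d = c κ` -/
noncomputable def ps (c κ : ℕ) : ℕ → ℂ :=
  psA (if c = 8 then 2 else 1) (decide (c ≠ 1 ∧ κ % 4 = 3))

lemma kr_rep {c κ : ℕ} (hc : c = 1 ∨ c = 4 ∨ c = 8) (hκ : Odd κ) (m : ℕ) (hm : Odd m) :
    ((kr (c * κ) m : ℤ) : ℂ) = ps c κ m * (js m κ : ℂ) := by
  rcases hc with rfl | rfl | rfl
  · unfold ps kr psA
    rw [one_mul, if_pos hκ]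
    have h8 : js 1 (m % 8) = 1 := by
      unfold js
      rw [jacobiSym.one_left]
      norm_num
    simp [h8, js]
  · unfold ps kr
    rw [if_neg (by rw [Nat.not_odd_iff_even]; exact ⟨2 * κ, by ring⟩), if_pos hm]
    have h1 := js_split (s := 1) (by simp [S4]) hκ hm
    have h2 : (decide ((4 : ℕ) ≠ 1 ∧ κ % 4 = 3)) = decide (κ % 4 = 3) := by simp
    rw [if_neg (by norm_num), h2, ← h1, one_mul]
    push_cast
    rw [jacobiSym.mul_left]
    have : jacobiSym 4 m = 1 := by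
      have h6 : (4 : ℤ) = 2 ^ 2 := by norm_num
      rw [h6, jacobiSym.pow_left, js_two_sq hm]
    rw [this, one_mul]
    simp [js]
  · unfold ps kr
    rw [if_neg (by rw [Nat.not_odd_iff_even]; exact ⟨4 * κ, by ring⟩), if_pos hm]
    have h1 := js_split (s := 2) (by simp [S4]) hκ hm
    have h2 : (decide ((8 : ℕ) ≠ 1 ∧ κ % 4 = 3)) = decide (κ % 4 = 3) := by simp
    rw [if_pos rfl, h2, ← h1]
    push_cast
    rw [jacobiSym.mul_left]
    have : jacobiSym 8 m = jacobiSym 2 m := by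
      have h6 : (8 : ℤ) = 2 ^ 3 := by norm_num
      rw [h6, jacobiSym.pow_left, pow_succ, js_two_sq hm, one_mul]
    rw [this, js_mul]
    simp [js]

lemma ps_norm (c κ m : ℕ) : ‖ps c κ m‖ ≤ 1 := psA_norm _ _ _

lemma ps_per (c κ m : ℕ) : ps c κ (m + 8) = ps c κ m := psA_per _ _ _

lemma ps_mean : mean (od (ps 8 1)) = 0 := by
  rw [mean_od]
  have h1 : js 2 1 = 1 := by unfold js; norm_num
  have h3 : js 2 3 = -1 := by unfold js; norm_num
  have h5 : js 2 5 = -1 := by unfold js; norm_num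
  have h7 : js 2 7 = 1 := by unfold js; norm_num
  simp [ps, psA, h1, h3, h5, h7]

/-- `d = c κ` -/
lemma fund_split {d : ℕ} (hd : IsFund d) (h1 : 1 < d) : ∃ c κ, d = c * κ ∧
    (c = 1 ∨ c = 4 ∨ c = 8) ∧ Odd κ ∧ Squarefree κ ∧ ((c = 8 ∧ κ = 1) ∨ 1 < κ) := by
  rcases (fund_iff d).1 hd with ⟨h2, h3, _⟩ | ⟨κ, h2, h3, h4, h5⟩ | ⟨κ, h2, h3, h4⟩
  · exact ⟨1, d, (one_mul d).symm, Or.inl rfl, h2, h3, Or.inr h1⟩
  · exact ⟨4, κ, h2, Or.inr (Or.inl rfl), h3, h4, Or.inr (by omega)⟩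
  · refine ⟨8, κ, h2, Or.inr (Or.inr rfl), h3, h4, ?_⟩
    have := h3.pos
    omega

theorem Lp_bound (ε B : ℝ) (hε : 0 < ε) {d : ℕ} (hd : IsFund d) (h1 : 1 < d) :
    ∃ (C : ℝ) (A : ℕ) (q : ℝ), 0 < C ∧ 0 < q ∧ q < 1 ∧ ∀ (s : ℂ) (j : ℕ),
    1 / 2 + ε ≤ s.re → s.re ≤ B → ‖Lp d s j‖ ≤ C * (1 + ‖s‖) ^ A * q ^ j := by
  obtain ⟨c, κ, hdc, hc, hκ, hκs, h | h⟩ := fund_split hd h1
  · obtain ⟨rfl, rfl⟩ := h
    obtain ⟨C, hC, h2⟩ := piece_one B
    refine ⟨C, 1, 2 ^ (-(1 / 2 : ℝ)), hC, by positivity,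
      Real.rpow_lt_one_of_one_lt_of_neg (by norm_num) (by norm_num), fun s j hs1 hs2 => ?_⟩
    rw [hdc, Lp_eq (kr_rep hc hκ), pow_one]
    exact h2 _ s j (ps_norm 8 1) (ps_per 8 1) ps_mean (by linarith) hs2
  · obtain ⟨C, A, q, hC, hq0, hq1, h2⟩ := piece_gt ε B hε κ h hκ hκs
    refine ⟨C, A, q, hC, hq0, hq1, fun s j hs1 hs2 => ?_⟩
    rw [hdc, Lp_eq (kr_rep hc hκ)]
    exact h2 _ s j (ps_norm c κ) (ps_per c κ) hs1 hs2

theorem Lo_bound (ε B : ℝ) (hε : 0 < ε) {d : ℕ} (hd : IsFund d) (h1 : 1 < d) :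
    ∃ (C : ℝ) (A : ℕ), 0 < C ∧ ∀ s : ℂ,
    1 / 2 + ε ≤ s.re → s.re ≤ B → ‖Lo d s‖ ≤ C * (1 + ‖s‖) ^ A := by
  obtain ⟨C, A, q, hC, hq0, hq1, h2⟩ := Lp_bound ε B hε hd h1
  have h1q : 0 < (1 - q)⁻¹ := inv_pos.2 (by linarith)
  refine ⟨C * (1 - q)⁻¹, A, by positivity, fun s hs1 hs2 => ?_⟩
  have h3 : HasSum (fun j : ℕ => C * (1 + ‖s‖) ^ A * q ^ j) (C * (1 + ‖s‖) ^ A * (1 - q)⁻¹) :=
    (hasSum_geometric_of_lt_one hq0.le hq1).mul_left _
  have h4 := tsum_of_norm_bounded h3 (fun j => h2 s j hs1 hs2)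
  unfold Lo
  refine h4.trans (le_of_eq ?_)
  ring

theorem Lo_diff {d : ℕ} (hd : IsFund d) (h1 : 1 < d) :
    DifferentiableOn ℂ (Lo d) {s : ℂ | 1 / 2 < s.re} := by
  have h0 : Lo d = fun s => ∑' j, Lp d s j := rfl
  rw [h0]
  refine holo_tsum' (fun j => (Lp_diff d j).differentiableOn) ?_
  intro z hz
  have hz' : 1 / 2 < z.re := hz
  obtain ⟨C, A, q, hC, hq0, hq1, h2⟩ := Lp_bound ((z.re - 1 / 2) / 2) (z.re + 1) (by linarith) hd h1
  refine ⟨{s : ℂ | 1 / 2 + (z.re - 1 / 2) / 2 < s.re} ∩ {s : ℂ | s.re < z.re + 1} ∩ {s | ‖s‖ < ‖z‖ + 1},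
    ?_, ?_, ?_, fun j => C * (1 + (‖z‖ + 1)) ^ A * q ^ j, ?_, ?_⟩
  · rintro s ⟨⟨hs, _⟩, _⟩
    have hs' : 1 / 2 + (z.re - 1 / 2) / 2 < s.re := hs
    show 1 / 2 < s.re
    linarith
  · exact ((isOpen_lt continuous_const Complex.continuous_re).inter
      (isOpen_lt Complex.continuous_re continuous_const)).inter
      (isOpen_lt continuous_norm continuous_const)
  · refine ⟨⟨?_, ?_⟩, ?_⟩
    · show 1 / 2 + (z.re - 1 / 2) / 2 < z.re
      linarith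
    · show z.re < z.re + 1
      linarith
    · show ‖z‖ < ‖z‖ + 1
      linarith
  · exact (summable_geometric_of_lt_one hq0.le hq1).mul_left _
  · rintro j s ⟨⟨hs, hs2⟩, hs3⟩
    have hs' : 1 / 2 + (z.re - 1 / 2) / 2 < s.re := hs
    have hs2' : s.re < z.re + 1 := hs2
    have hs3' : ‖s‖ < ‖z‖ + 1 := hs3
    refine (h2 s j hs'.le hs2'.le).trans ?_
    show _ ≤ C * (1 + (‖z‖ + 1)) ^ A * q ^ j
    gcongr

theorem Ld_diff {d : ℕ} (hd : IsFund d) (h1 : 1 < d) :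
    DifferentiableOn ℂ (Ld d) {s : ℂ | 1 / 2 < s.re} := by
  unfold Ld
  apply DifferentiableOn.mul _ (Lo_diff hd h1)
  apply DifferentiableOn.inv
  · apply DifferentiableOn.const_sub
    apply DifferentiableOn.const_mul
    exact (nat_cpow_diff (m := 2) (by norm_num)).differentiableOn
  · intro s hs
    exact eul_ne d (le_of_lt hs)

end Pool.Agent.W5h65.MD
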