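import Pool.Agent.W5h65.MD.B2

set_option autoImplicit false

/-! The fourth moment over positive fundamental discriminants. -/

namespace Pool.Agent.W5h65.MD

open Finset Filter Topology MeasureTheory Pool.Agent.H306R2.RZ Pool.Agent.H143R3.FM

lemma fund8 : IsFund 8 := (fund_iff 8).2 (Or.inr (Or.inr ⟨1, rfl, odd_one, squarefree_one⟩))

lemma Lo_le {c κ : ℕ} (hc : c = 1 ∨ c = 4 ∨ c = 8) (hκ : Odd κ) (hs : Squarefree κ) (h1 : 1 < κ)
    {s : ℂ} (hs1 : 1 / 2 < s.re) :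
    ‖Lo (c * κ) s‖ ≤ ∑' j, ‖PP (ps c κ) κ s j‖ := by
  obtain ⟨C, A, q, hC, hq0, hq1, h2⟩ := piece_gt (s.re - 1 / 2) s.re (by linarith) κ h1 hκ hs
  have h3 : Summable (fun j => ‖PP (ps c κ) κ s j‖) := by
    refine Summable.of_nonneg_of_le (fun _ => norm_nonneg _)
      (fun j => h2 (ps c κ) s j (ps_norm c κ) (ps_per c κ) (by linarith) le_rfl) ?_
    exact (summable_geometric_of_lt_one hq0.le hq1).mul_left _
  have h4 : Lo (c * κ) s = ∑' j, PP (ps c κ) κ s j := by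
    unfold Lo
    exact tsum_congr fun j => Lp_eq (kr_rep hc hκ) s j
  rw [h4]
  exact norm_tsum_le_tsum_norm h3

/-- the four relevant periodic factors -/
noncomputable def Gk (s : ℂ) (κ : ℕ) : ℝ :=
  (∑' j, ‖PP (psA 1 true) κ s j‖) ^ 4 + (∑' j, ‖PP (psA 1 false) κ s j‖) ^ 4 +
  (∑' j, ‖PP (psA 2 true) κ s j‖) ^ 4 + (∑' j, ‖PP (psA 2 false) κ s j‖) ^ 4

lemma Lo_Gk {c κ : ℕ} (hc : c = 1 ∨ c = 4 ∨ c = 8) (hκ : Odd κ) (hs : Squarefree κ) (h1 : 1 < κ)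
    {s : ℂ} (hs1 : 1 / 2 < s.re) : ‖Lo (c * κ) s‖ ^ 4 ≤ Gk s κ := by
  have h2 := pow_le_pow_left₀ (norm_nonneg _) (Lo_le hc hκ hs h1 hs1) 4
  refine h2.trans ?_
  have p : ∀ ψ : ℕ → ℂ, 0 ≤ (∑' j, ‖PP ψ κ s j‖) ^ 4 := fun ψ => by
    have : 0 ≤ ∑' j, ‖PP ψ κ s j‖ := tsum_nonneg fun _ => norm_nonneg _
    positivity
  have p1 := p (psA 1 true)
  have p2 := p (psA 1 false)
  have p3 := p (psA 2 true)
  have p4 := p (psA 2 false)
  unfold Gk ps
  by_cases a : c = 8 <;> by_cases b : (c ≠ 1 ∧ κ % 4 = 3)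
  · rw [if_pos a, decide_eq_true b]; linarith
  · rw [if_pos a, decide_eq_false b]; linarith
  · rw [if_neg a, decide_eq_true b]; linarith
  · rw [if_neg a, decide_eq_false b]; linarith

open Classical in
theorem mom_fund (ε B : ℝ) (hε : 0 < ε) : ∃ (C : ℝ) (A : ℕ), 0 < C ∧ ∀ (X : ℕ) (s : ℂ), 1 ≤ X →
    1 / 2 + ε ≤ s.re → s.re ≤ B →
    ∑ d ∈ (Icc 2 X).filter IsFund, ‖Lo d s‖ ^ 4 ≤ C * (1 + ‖s‖) ^ A * (X : ℝ) ^ (1 + ε) := by
  obtain ⟨C, A, hC, h⟩ := mom4 ε B hε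
  obtain ⟨C8, A8, hC8, h8⟩ := Lo_bound ε B hε fund8 (by norm_num)
  refine ⟨C8 ^ 4 + 12 * C, A + 4 * A8, by positivity, ?_⟩
  intro X s hX hs1 hs2
  obtain ⟨f, hf⟩ : ∃ f : ℕ → ℝ, f = fun d => if IsFund d then ‖Lo d s‖ ^ 4 else 0 := ⟨_, rfl⟩
  have hf0 : ∀ d, 0 ≤ f d := by
    intro d
    rw [hf]
    simp only
    split_ifs <;> positivity
  obtain ⟨K, hK⟩ : ∃ K, K = (osf X).filter (fun κ => 1 < κ) := ⟨_, rfl⟩
  obtain ⟨T, hT⟩ : ∃ T, T = ({1, 4, 8} : Finset ℕ) ×ˢ K := ⟨_, rfl⟩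
  have h1 : ∑ d ∈ (Icc 2 X).filter IsFund, ‖Lo d s‖ ^ 4 ≤ f 8 + ∑ p ∈ T, f (p.1 * p.2) := by
    calc _ = ∑ d ∈ (Icc 2 X).filter IsFund, f d := by
          refine sum_congr rfl fun d hd => ?_
          rw [hf]
          simp only
          rw [if_pos (mem_filter.1 hd).2]
      _ ≤ ∑ d ∈ insert 8 (T.image (fun p => p.1 * p.2)), f d := by
          refine sum_le_sum_of_subset_of_nonneg ?_ fun d _ _ => hf0 d
          intro d hd
          rw [mem_filter, mem_Icc] at hd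
          obtain ⟨c, κ, hdc, hc, hκ, hκs, h9 | h9⟩ := fund_split hd.2 (by omega)
          · rw [hdc, h9.1, h9.2]
            exact mem_insert_self _ _
          · apply mem_insert_of_mem
            rw [mem_image]
            refine ⟨(c, κ), ?_, hdc.symm⟩
            rw [hT, hK, mem_product, mem_filter, osf, mem_filter, mem_Icc]
            have hle : κ ≤ d := by
              rw [hdc]
              exact Nat.le_mul_of_pos_left _ (by omega)
            refine ⟨?_, ⟨⟨by omega, by omega⟩, hκ, hκs⟩, h9⟩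
            simp only [mem_insert, mem_singleton]
            exact hc
      _ ≤ f 8 + ∑ d ∈ T.image (fun p => p.1 * p.2), f d := by
          by_cases h9 : 8 ∈ T.image (fun p => p.1 * p.2)
          · rw [insert_eq_of_mem h9]
            linarith [hf0 8]
          · rw [sum_insert h9]
      _ ≤ _ := by
          have := sum_image_le_of_nonneg (s := T) (g := fun p : ℕ × ℕ => p.1 * p.2) (f := f)
            (fun _ _ => hf0 _)
          linarith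
  have h2 : ∑ p ∈ T, f (p.1 * p.2) ≤ 3 * ∑ κ ∈ K, Gk s κ := by
    have h3 : ∀ p ∈ T, f (p.1 * p.2) ≤ Gk s p.2 := by
      intro p hp
      rw [hT, hK, mem_product, mem_filter, osf, mem_filter, mem_Icc] at hp
      obtain ⟨hp1, ⟨_, hp2, hp3⟩, hp4⟩ := hp
      simp only [mem_insert, mem_singleton] at hp1
      have h4 := Lo_Gk hp1 hp2 hp3 hp4 (s := s) (by linarith)
      rw [hf]
      simp only
      split_ifs
      · exact h4
      · exact (by positivity : (0 : ℝ) ≤ ‖Lo (p.1 * p.2) s‖ ^ 4).trans h4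
    refine (sum_le_sum h3).trans (le_of_eq ?_)
    rw [hT, sum_product]
    simp only
    rw [sum_const]
    have : ({1, 4, 8} : Finset ℕ).card = 3 := by decide
    rw [this, nsmul_eq_mul]
    norm_num
  have h3 : ∑ κ ∈ K, Gk s κ ≤ 4 * (C * (1 + ‖s‖) ^ A * (X : ℝ) ^ (1 + ε)) := by
    unfold Gk
    rw [sum_add_distrib, sum_add_distrib, sum_add_distrib, hK]
    have q1 := h X (psA 1 true) s hX (psA_norm _ _) (psA_per _ _) hs1 hs2
    have q2 := h X (psA 1 false) s hX (psA_norm _ _) (psA_per _ _) hs1 hs2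
    have q3 := h X (psA 2 true) s hX (psA_norm _ _) (psA_per _ _) hs1 hs2
    have q4 := h X (psA 2 false) s hX (psA_norm _ _) (psA_per _ _) hs1 hs2
    linarith
  have h4 : f 8 ≤ C8 ^ 4 * (1 + ‖s‖) ^ (4 * A8) := by
    rw [hf]
    simp only
    rw [if_pos fund8]
    calc ‖Lo 8 s‖ ^ 4 ≤ (C8 * (1 + ‖s‖) ^ A8) ^ 4 :=
          pow_le_pow_left₀ (norm_nonneg _) (h8 s hs1 hs2) 4
      _ = _ := by ring
  have hs0 : 1 ≤ 1 + ‖s‖ := by linarith [norm_nonneg s]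
  have hX1 : (1 : ℝ) ≤ (X : ℝ) ^ (1 + ε) :=
    Real.one_le_rpow (by exact_mod_cast hX) (by linarith)
  have e1 : (1 + ‖s‖) ^ (4 * A8) ≤ (1 + ‖s‖) ^ (A + 4 * A8) := pow_le_pow_right₀ hs0 (by omega)
  have e2 : (1 + ‖s‖) ^ A ≤ (1 + ‖s‖) ^ (A + 4 * A8) := pow_le_pow_right₀ hs0 (by omega)
  calc _ ≤ C8 ^ 4 * (1 + ‖s‖) ^ (4 * A8) + 3 * (4 * (C * (1 + ‖s‖) ^ A * (X : ℝ) ^ (1 + ε))) := by
        linarith
    _ ≤ C8 ^ 4 * (1 + ‖s‖) ^ (A + 4 * A8) * (X : ℝ) ^ (1 + ε) +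
        12 * C * (1 + ‖s‖) ^ (A + 4 * A8) * (X : ℝ) ^ (1 + ε) := by
        apply add_le_add
        · calc _ ≤ C8 ^ 4 * (1 + ‖s‖) ^ (A + 4 * A8) := by gcongr
            _ ≤ _ := le_mul_of_one_le_right (by positivity) hX1
        · calc _ = 12 * C * (1 + ‖s‖) ^ A * (X : ℝ) ^ (1 + ε) := by ring
            _ ≤ _ := by gcongr
    _ = _ := by ring

end Pool.Agent.W5h65.MD
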