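import Pool.Agent.W5h65.MD.B2
import Pool.Agent.H510R2.Div

set_option autoImplicit false

/-! The coefficients of a product of Dirichlet series. -/

namespace Pool.Agent.W5h65.MD

open Finset Filter Topology MeasureTheory Pool.Agent.H306R2.RZ Pool.Agent.H143R3.FM

/-- `n ↦ n^{-s}` -/
noncomputable def Pf (s : ℂ) : ArithmeticFunction ℂ :=
  ⟨fun n => if n = 0 then 0 else (n : ℂ) ^ (-s), by simp⟩

lemma Pf_apply (s : ℂ) (n : ℕ) : Pf s n = if n = 0 then 0 else (n : ℂ) ^ (-s) := rfl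

lemma Pf_norm {s : ℂ} {σ : ℝ} (h : σ ≤ s.re) {n : ℕ} (hn : 1 ≤ n) : ‖Pf s n‖ ≤ (n : ℝ) ^ (-σ) := by
  rw [Pf_apply, if_neg (by omega), nat_cpow_norm hn]
  exact Real.rpow_le_rpow_of_exponent_le (by exact_mod_cast hn) (by linarith)

/-- the coefficients of `∏ ζ(s_i)` -/
noncomputable def af {k : ℕ} (s : Fin k → ℂ) : ArithmeticFunction ℂ := ∏ i, Pf (s i)

lemma LS0 (f : ArithmeticFunction ℂ) : LSeries.term (fun n => f n) 0 = fun n => f n := by
  funext n
  rcases Nat.eq_zero_or_pos n with h | h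
  · subst h
    simp
  · rw [LSeries.term_of_ne_zero (by omega)]
    simp

lemma hasSum_conv {f g : ArithmeticFunction ℂ} {a b : ℂ} (hf : HasSum (fun n => f n) a)
    (hg : HasSum (fun n => g n) b) : HasSum (fun n => (f * g) n) (a * b) := by
  have h1 : LSeriesHasSum (fun n => f n) 0 a := by
    unfold LSeriesHasSum
    rw [LS0]
    exact hf
  have h2 : LSeriesHasSum (fun n => g n) 0 b := by
    unfold LSeriesHasSum
    rw [LS0]
    exact hg
  have h3 := ArithmeticFunction.LSeriesHasSum_mul h1 h2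
  unfold LSeriesHasSum at h3
  rw [LS0] at h3
  exact h3

/-- twist by a completely multiplicative function -/
noncomputable def twf (χ : ℕ → ℂ) (f : ArithmeticFunction ℂ) : ArithmeticFunction ℂ :=
  ⟨fun n => χ n * f n, by simp⟩

lemma twf_apply (χ : ℕ → ℂ) (f : ArithmeticFunction ℂ) (n : ℕ) : twf χ f n = χ n * f n := rfl

lemma twf_mul {χ : ℕ → ℂ} (h : ∀ a b, χ (a * b) = χ a * χ b) (f g : ArithmeticFunction ℂ) :
    twf χ (f * g) = twf χ f * twf χ g := by
  ext n
  rw [twf_apply, ArithmeticFunction.mul_apply, ArithmeticFunction.mul_apply, mul_sum]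
  refine sum_congr rfl fun p hp => ?_
  rw [Nat.mem_divisorsAntidiagonal] at hp
  rw [twf_apply, twf_apply, ← hp.1, h]
  ring

lemma twf_one {χ : ℕ → ℂ} (h : χ 1 = 1) : twf χ 1 = 1 := by
  ext n
  rw [twf_apply, ArithmeticFunction.one_apply]
  split_ifs with h1
  · rw [h1, h, one_mul]
  · rw [mul_zero]

lemma twf_prod {χ : ℕ → ℂ} (h : ∀ a b, χ (a * b) = χ a * χ b) (h1 : χ 1 = 1) {ι : Type*}
    (S : Finset ι) (f : ι → ArithmeticFunction ℂ) : twf χ (∏ i ∈ S, f i) = ∏ i ∈ S, twf χ (f i) := by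
  classical
  induction S using Finset.induction_on with
  | empty => simp [twf_one h1]
  | insert a S ha ih => rw [prod_insert ha, prod_insert ha, twf_mul h, ih]

lemma hasSum_prod_af {ι : Type*} (S : Finset ι) (f : ι → ArithmeticFunction ℂ) (b : ι → ℂ)
    (h : ∀ i ∈ S, HasSum (fun n => f i n) (b i)) : HasSum (fun n => (∏ i ∈ S, f i) n) (∏ i ∈ S, b i) := by
  classical
  induction S using Finset.induction_on with
  | empty =>
    rw [prod_empty, prod_empty]
    have := hasSum_single (f := fun n => (1 : ArithmeticFunction ℂ) n) 1 (fun n hn => by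
      rw [ArithmeticFunction.one_apply_ne hn])
    rwa [ArithmeticFunction.one_apply, if_pos rfl] at this
  | insert a S ha ih =>
    rw [prod_insert ha, prod_insert ha]
    exact hasSum_conv (h a (mem_insert_self _ _)) (ih fun i hi => h i (mem_insert_of_mem hi))

lemma kr_one (d : ℕ) : kr d 1 = 1 := by
  unfold kr
  split_ifs with h1 h2
  · rw [Nat.cast_one, jacobiSym.one_left]
  · exact jacobiSym.one_right _
  · exact absurd odd_one h2

/-- `∏ L(s_i, χ_d)` as a Dirichlet series -/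
theorem af_hasSum {k : ℕ} (d : ℕ) (s : Fin k → ℂ) (hs : ∀ i, 1 < (s i).re) :
    HasSum (fun N => ((kr d N : ℤ) : ℂ) * af s N) (∏ i, LL d (s i)) := by
  have h1 : ∀ a b, ((kr d (a * b) : ℤ) : ℂ) = ((kr d a : ℤ) : ℂ) * ((kr d b : ℤ) : ℂ) := by
    intro a b
    rw [kr_mul]
    push_cast
    rfl
  have h2 : ((kr d 1 : ℤ) : ℂ) = 1 := by rw [kr_one]; norm_num
  have h3 := twf_prod (χ := fun n => ((kr d n : ℤ) : ℂ)) h1 h2 univ (fun i => Pf (s i))
  have h4 := hasSum_prod_af univ (fun i => twf (fun n => ((kr d n : ℤ) : ℂ)) (Pf (s i)))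
    (fun i => LL d (s i)) (by
      intro i _
      have h5 := (LL_summable d (hs i)).of_norm.hasSum
      unfold LL
      have h6 : (fun n => twf (fun n => ((kr d n : ℤ) : ℂ)) (Pf (s i)) n) =
          fun n : ℕ => ((kr d n : ℤ) : ℂ) * (n : ℂ) ^ (-(s i)) := by
        funext n
        rw [twf_apply, Pf_apply]
        rcases Nat.eq_zero_or_pos n with h | h
        · subst h
          rw [if_pos rfl, Nat.cast_zero, zero_cpow_neg (hs i)]
        · rw [if_neg (by omega)]
      rw [h6]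
      exact h5)
  rw [← h3] at h4
  exact h4

/-- bound of the coefficients -/
theorem prod_bound {ι : Type*} (S : Finset ι) (δ : ℝ) (hδ : 0 < δ) : ∃ C : ℝ, 0 < C ∧
    ∀ (s : ι → ℂ) (σ : ℝ) (N : ℕ), (∀ i ∈ S, σ ≤ (s i).re) → 1 ≤ N →
    ‖(∏ i ∈ S, Pf (s i)) N‖ ≤ C * (N : ℝ) ^ (δ - σ) := by
  classical
  induction S using Finset.induction_on generalizing δ with
  | empty =>
    refine ⟨1, one_pos, fun s σ N _ hN => ?_⟩
    rw [prod_empty, ArithmeticFunction.one_apply, one_mul]
    split_ifs with h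
    · rw [h]
      simp
    · rw [norm_zero]
      positivity
  | insert a S ha ih =>
    obtain ⟨C, hC, h⟩ := ih (δ / 2) (by positivity)
    obtain ⟨C', hC', h'⟩ := Pool.Agent.H510R2.divisor_bound (δ / 2) (by positivity)
    refine ⟨C * C', by positivity, fun s σ N hs hN => ?_⟩
    have hN0 : (0 : ℝ) < N := by exact_mod_cast hN
    rw [prod_insert ha, ArithmeticFunction.mul_apply]
    have h1 : ∀ p ∈ N.divisorsAntidiagonal, ‖Pf (s a) p.1 * (∏ i ∈ S, Pf (s i)) p.2‖ ≤
        C * (N : ℝ) ^ (δ / 2 - σ) := by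
      intro p hp
      rw [Nat.mem_divisorsAntidiagonal] at hp
      have hp0 : p.1 * p.2 ≠ 0 := by rw [hp.1]; exact hp.2
      have hp1 : 1 ≤ p.1 := Nat.one_le_iff_ne_zero.2 (left_ne_zero_of_mul hp0)
      have hp2 : 1 ≤ p.2 := Nat.one_le_iff_ne_zero.2 (right_ne_zero_of_mul hp0)
      have hp1' : (0 : ℝ) < p.1 := by exact_mod_cast hp1
      have hp2' : (0 : ℝ) < p.2 := by exact_mod_cast hp2
      have hN' : (N : ℝ) = p.1 * p.2 := by rw [← hp.1]; push_cast; rfl
      rw [norm_mul]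
      calc _ ≤ (p.1 : ℝ) ^ (-σ) * (C * (p.2 : ℝ) ^ (δ / 2 - σ)) :=
            mul_le_mul (Pf_norm (hs a (mem_insert_self _ _)) hp1)
              (h s σ p.2 (fun i hi => hs i (mem_insert_of_mem hi)) hp2) (norm_nonneg _) (by positivity)
        _ ≤ (p.1 : ℝ) ^ (δ / 2 - σ) * (C * (p.2 : ℝ) ^ (δ / 2 - σ)) := by
            apply mul_le_mul_of_nonneg_right _ (by positivity)
            exact Real.rpow_le_rpow_of_exponent_le (by exact_mod_cast hp1) (by linarith)
        _ = C * (N : ℝ) ^ (δ / 2 - σ) := by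
            rw [hN', Real.mul_rpow hp1'.le hp2'.le]
            ring
    refine (norm_sum_le _ _).trans ((sum_le_sum h1).trans ?_)
    rw [sum_const, nsmul_eq_mul]
    have h2 : (N.divisorsAntidiagonal.card : ℝ) ≤ C' * (N : ℝ) ^ (δ / 2) := by
      have h3 : N.divisorsAntidiagonal.card = N.divisors.card := by
        rw [← Nat.map_div_right_divisors, card_map]
      rw [h3]
      exact h' N hN
    calc _ ≤ (C' * (N : ℝ) ^ (δ / 2)) * (C * (N : ℝ) ^ (δ / 2 - σ)) :=
          mul_le_mul_of_nonneg_right h2 (by positivity)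
      _ = C * C' * ((N : ℝ) ^ (δ / 2) * (N : ℝ) ^ (δ / 2 - σ)) := by ring
      _ = _ := by
          rw [← Real.rpow_add hN0]
          congr 2
          ring

theorem af_bound (k : ℕ) (δ : ℝ) (hδ : 0 < δ) : ∃ C : ℝ, 0 < C ∧
    ∀ (s : Fin k → ℂ) (σ : ℝ) (N : ℕ), (∀ i, σ ≤ (s i).re) → 1 ≤ N →
    ‖af s N‖ ≤ C * (N : ℝ) ^ (δ - σ) := by
  obtain ⟨C, hC, h⟩ := prod_bound (univ : Finset (Fin k)) δ hδ
  exact ⟨C, hC, fun s σ N hs hN => h s σ N (fun i _ => hs i) hN⟩

lemma prod_diff {k : ℕ} (S : Finset (Fin k)) : ∀ N : ℕ,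
    Differentiable ℂ (fun s : Fin k → ℂ => (∏ i ∈ S, Pf (s i)) N) := by
  classical
  induction S using Finset.induction_on with
  | empty =>
    intro N
    simp only [prod_empty]
    exact differentiable_const _
  | insert a S ha ih =>
    intro N
    have h1 : (fun s : Fin k → ℂ => (∏ i ∈ insert a S, Pf (s i)) N) =
        fun s => ∑ p ∈ N.divisorsAntidiagonal, Pf (s a) p.1 * (∏ i ∈ S, Pf (s i)) p.2 := by
      funext s
      rw [prod_insert ha, ArithmeticFunction.mul_apply]
    rw [h1]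
    apply Differentiable.fun_sum
    intro p _
    apply Differentiable.mul _ (ih p.2)
    by_cases hp : p.1 = 0
    · have : (fun s : Fin k → ℂ => Pf (s a) p.1) = fun _ => 0 := by
        funext s
        rw [Pf_apply, if_pos hp]
      rw [this]
      exact differentiable_const _
    · have : (fun s : Fin k → ℂ => Pf (s a) p.1) = fun s => (p.1 : ℂ) ^ (-(s a)) := by
        funext s
        rw [Pf_apply, if_neg hp]
      rw [this]
      exact (nat_cpow_diff hp).comp (differentiable_apply a)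

lemma af_diff {k : ℕ} (N : ℕ) : Differentiable ℂ (fun s : Fin k → ℂ => af s N) := prod_diff univ N

end Pool.Agent.W5h65.MD
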