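import Pool.Agent.W5h65.MD.C1
import Pool.Agent.W5h65.MD.A7

set_option autoImplicit false

/-! The diagonal term and the bound in the region `Re s_i > 1`. -/

namespace Pool.Agent.W5h65.MD

open Finset Filter Topology MeasureTheory Pool.Agent.H306R2.RZ Pool.Agent.H143R3.FM

/-- the diagonal coefficients are summable -/
theorem cF_summable (η : ℝ) (hη : 0 < η) :
    Summable (fun N : ℕ => ‖cF N‖ * (N : ℝ) ^ (-(1 / 2 + η))) := by
  obtain ⟨C, hC, h⟩ := cF_norm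
  obtain ⟨C', hC', h'⟩ := Pool.Agent.H510R2.divisor_bound η hη
  obtain ⟨F, hF⟩ : ∃ F : ℕ → ℝ, F = fun N : ℕ => ‖cF N‖ * (N : ℝ) ^ (-(1 / 2 + η)) := ⟨_, rfl⟩
  have hF0 : ∀ N, 0 ≤ F N := fun N => by rw [hF]; positivity
  obtain ⟨q, hq⟩ : ∃ q : ℝ, q = 2 ^ (-(1 / 2 + η)) := ⟨_, rfl⟩
  have hq0 : 0 < q := by rw [hq]; positivity
  have hq1 : q < 1 := by
    rw [hq]
    exact Real.rpow_lt_one_of_one_lt_of_neg (by norm_num) (by linarith)
  obtain ⟨Z, hZ⟩ : ∃ Z, Z = ∑' l : ℕ, (l : ℝ) ^ (-(1 + η)) := ⟨_, rfl⟩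
  have hZs : Summable (fun l : ℕ => (l : ℝ) ^ (-(1 + η))) := summ_rpow (by linarith)
  have key : ∀ X : ℕ, ∑ N ∈ Icc 1 X, F N ≤ (1 - q)⁻¹ * (C * C' * Z) := by
    intro X
    refine (reindex F hF0 X).trans ?_
    have h1 : ∀ a ∈ range X, ∀ r ∈ (Icc 1 X).filter Odd, ∑ n0 ∈ osf X, F (2 ^ a * (n0 * r ^ 2)) ≤
        q ^ a * (C * C' * (r : ℝ) ^ (-(1 + η))) := by
      intro a _ r hr
      rw [mem_filter, mem_Icc] at hr
      have hr0 : (0 : ℝ) < r := by exact_mod_cast hr.1.1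
      have h2 : ∀ n0 ∈ osf X, n0 ≠ 1 → F (2 ^ a * (n0 * r ^ 2)) = 0 := by
        intro n0 hn0 hne
        rw [osf, mem_filter, mem_Icc] at hn0
        have h3 : Odd (n0 * r ^ 2) := hn0.2.1.mul hr.2.pow
        have h4 : cF (2 ^ a * (n0 * r ^ 2)) = 0 := by
          unfold cF
          rw [ob_mul a _ h3, if_neg (not_sq hn0.2.2 (by omega) hr.1.1)]
        rw [hF]
        simp only
        rw [h4, norm_zero, zero_mul]
      have h3 : ∑ n0 ∈ osf X, F (2 ^ a * (n0 * r ^ 2)) ≤ F (2 ^ a * r ^ 2) := by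
        by_cases h5 : 1 ∈ osf X
        · rw [sum_eq_single_of_mem 1 h5 h2, one_mul]
        · rw [sum_eq_zero]
          · exact hF0 _
          · intro n0 hn0
            exact h2 n0 hn0 (by rintro rfl; exact h5 hn0)
      refine h3.trans ?_
      rw [hF]
      simp only
      have e1 : (((2 ^ a * r ^ 2 : ℕ) : ℝ)) ^ (-(1 / 2 + η)) = q ^ a * (r : ℝ) ^ (-(1 + 2 * η)) := by
        push_cast
        rw [Real.mul_rpow (by positivity) (by positivity), ← Real.rpow_natCast 2 a,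
          ← Real.rpow_natCast (r : ℝ) 2, ← Real.rpow_mul (by norm_num), ← Real.rpow_mul hr0.le, hq,
          ← Real.rpow_natCast _ a, ← Real.rpow_mul (by norm_num)]
        congr 2 <;> push_cast <;> ring
      rw [e1]
      have h6 : ‖cF (2 ^ a * r ^ 2)‖ ≤ C * (C' * (r : ℝ) ^ η) :=
        (h a r hr.2).trans (mul_le_mul_of_nonneg_left (h' r hr.1.1) hC.le)
      calc _ ≤ C * (C' * (r : ℝ) ^ η) * (q ^ a * (r : ℝ) ^ (-(1 + 2 * η))) :=
            mul_le_mul_of_nonneg_right h6 (by positivity)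
        _ = q ^ a * (C * C' * ((r : ℝ) ^ η * (r : ℝ) ^ (-(1 + 2 * η)))) := by ring
        _ = _ := by
            rw [← Real.rpow_add hr0]
            congr 3
            ring
    have hZ0 : 0 ≤ C * C' * Z := by
      rw [hZ]
      have : 0 ≤ ∑' l : ℕ, (l : ℝ) ^ (-(1 + η)) := tsum_nonneg fun l => by positivity
      positivity
    calc _ ≤ ∑ a ∈ range X, ∑ r ∈ (Icc 1 X).filter Odd, q ^ a * (C * C' * (r : ℝ) ^ (-(1 + η))) :=
          sum_le_sum fun a ha => sum_le_sum fun r hr => h1 a ha r hr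
      _ = (∑ a ∈ range X, q ^ a) * (C * C' * ∑ r ∈ (Icc 1 X).filter Odd, (r : ℝ) ^ (-(1 + η))) := by
          rw [sum_mul]
          refine sum_congr rfl fun a _ => ?_
          rw [mul_sum, mul_sum]
      _ ≤ (1 - q)⁻¹ * (C * C' * Z) := by
          apply mul_le_mul
          · rw [← tsum_geometric_of_lt_one hq0.le hq1]
            exact (summable_geometric_of_lt_one hq0.le hq1).sum_le_tsum _ fun j _ => by positivity
          · apply mul_le_mul_of_nonneg_left _ (by positivity)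
            rw [hZ]
            exact hZs.sum_le_tsum _ fun j _ => by positivity
          · positivity
          · exact inv_nonneg.2 (by linarith)
  have h7 : Summable F := by
    refine summable_of_sum_range_le hF0 (c := (1 - q)⁻¹ * (C * C' * Z)) fun n => ?_
    have h8 : ∑ i ∈ range n, F i ≤ ∑ N ∈ Icc 1 n, F N := by
      have h9 : F 0 = 0 := by
        rw [hF]
        simp only
        rw [Nat.cast_zero, Real.zero_rpow (by linarith), mul_zero]
      have h10 : ∑ i ∈ range n, F i = ∑ i ∈ (range n).erase 0, F i := by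
        by_cases h11 : 0 ∈ range n
        · rw [← add_sum_erase _ _ h11, h9, zero_add]
        · rw [erase_eq_of_notMem h11]
      rw [h10]
      refine sum_le_sum_of_subset_of_nonneg ?_ fun _ _ _ => hF0 _
      intro i hi
      rw [mem_erase, mem_range] at hi
      rw [mem_Icc]
      omega
    exact h8.trans (key n)
  rw [hF] at h7
  exact h7

/-- the diagonal term `T_M(s)` -/
noncomputable def TT {k : ℕ} (M : ℕ) (s : Fin k → ℂ) : ℂ := ∑' N : ℕ, cF (M * N) * af s N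

lemma af_zero {k : ℕ} (s : Fin k → ℂ) : af s 0 = 0 := by simp

lemma TT_term (k : ℕ) (ε : ℝ) (hε : 0 < ε) (M : ℕ) (hM : 1 ≤ M) :
    ∃ u : ℕ → ℝ, Summable u ∧ ∀ (s : Fin k → ℂ) (N : ℕ), (∀ i, 1 / 2 + ε ≤ (s i).re) →
    ‖cF (M * N) * af s N‖ ≤ u N := by
  obtain ⟨C, hC, h⟩ := af_bound k (ε / 2) (by positivity)
  have h1 := cF_summable (ε / 2) (by positivity)
  have hM0 : (0 : ℝ) < M := by exact_mod_cast hM
  have h2 : Summable (fun N : ℕ => ‖cF (M * N)‖ * ((M * N : ℕ) : ℝ) ^ (-(1 / 2 + ε / 2))) :=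
    h1.comp_injective (fun a b hab => Nat.eq_of_mul_eq_mul_left hM hab)
  refine ⟨fun N => C * (M : ℝ) ^ (1 / 2 + ε / 2) *
    (‖cF (M * N)‖ * ((M * N : ℕ) : ℝ) ^ (-(1 / 2 + ε / 2))), h2.mul_left _, ?_⟩
  intro s N hs
  rcases Nat.eq_zero_or_pos N with h0 | h0
  · subst h0
    rw [af_zero, mul_zero, norm_zero]
    positivity
  · have hN0 : (0 : ℝ) < N := by exact_mod_cast h0
    rw [norm_mul]
    simp only
    push_cast
    rw [Real.mul_rpow hM0.le hN0.le]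
    have e1 : (M : ℝ) ^ (1 / 2 + ε / 2) * (M : ℝ) ^ (-(1 / 2 + ε / 2)) = 1 := by
      rw [← Real.rpow_add hM0, add_neg_cancel, Real.rpow_zero]
    have e2 := h s (1 / 2 + ε) N hs h0
    calc _ ≤ ‖cF (M * N)‖ * (C * (N : ℝ) ^ (ε / 2 - (1 / 2 + ε))) :=
          mul_le_mul_of_nonneg_left e2 (norm_nonneg _)
      _ = C * ((M : ℝ) ^ (1 / 2 + ε / 2) * (M : ℝ) ^ (-(1 / 2 + ε / 2))) *
          (‖cF (M * N)‖ * (N : ℝ) ^ (-(1 / 2 + ε / 2))) := by
          rw [e1, show ε / 2 - (1 / 2 + ε) = -(1 / 2 + ε / 2) by ring]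
          ring
      _ = _ := by ring

theorem TT_bound (k : ℕ) (ε : ℝ) (hε : 0 < ε) (M : ℕ) (hM : 1 ≤ M) :
    ∃ C : ℝ, 0 < C ∧ ∀ (s : Fin k → ℂ), (∀ i, 1 / 2 + ε ≤ (s i).re) → ‖TT M s‖ ≤ C := by
  obtain ⟨u, hu, h⟩ := TT_term k ε hε M hM
  refine ⟨max 1 (∑' N, u N), by positivity, fun s hs => ?_⟩
  exact (tsum_of_norm_bounded hu.hasSum fun N => h s N hs).trans (le_max_right _ _)

lemma open_re {k : ℕ} (a : Fin k → ℝ) : IsOpen {s : Fin k → ℂ | ∀ i, a i < (s i).re} := by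
  have : {s : Fin k → ℂ | ∀ i, a i < (s i).re} = ⋂ i, {s : Fin k → ℂ | a i < (s i).re} := by
    ext s
    simp
  rw [this]
  exact isOpen_iInter_of_finite fun i =>
    isOpen_lt continuous_const (Complex.continuous_re.comp (continuous_apply i))

theorem TT_diff (k : ℕ) (M : ℕ) (hM : 1 ≤ M) :
    DifferentiableOn ℂ (TT (k := k) M) {s : Fin k → ℂ | ∀ i, 1 / 2 < (s i).re} := by
  have h0 : TT (k := k) M = fun s => ∑' N : ℕ, cF (M * N) * af s N := rfl
  rw [h0]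
  refine holo_tsum' (fun N => ((af_diff N).const_mul _).differentiableOn) ?_
  intro z hz
  obtain ⟨ε, hε, hz2⟩ : ∃ ε > 0, ∀ i, 1 / 2 + ε < (z i).re := by
    have hz' : ∀ i, 1 / 2 < (z i).re := hz
    have h1 : ∀ᶠ ε : ℝ in 𝓝[>] 0, ∀ i, 1 / 2 + ε < (z i).re := by
      rw [eventually_all]
      intro i
      have : ∀ᶠ ε : ℝ in 𝓝[>] 0, ε < (z i).re - 1 / 2 :=
        (eventually_lt_nhds (by linarith [hz' i])).filter_mono nhdsWithin_le_nhds
      filter_upwards [this] with ε hε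
      linarith
    obtain ⟨ε, h2, h3⟩ := (h1.and self_mem_nhdsWithin).exists
    exact ⟨ε, h3, h2⟩
  obtain ⟨u, hu, h⟩ := TT_term k ε hε M hM
  refine ⟨{s : Fin k → ℂ | ∀ i, 1 / 2 + ε < (s i).re}, ?_, open_re _, hz2, u, hu, ?_⟩
  · intro s hs i
    have := hs i
    linarith
  · intro N s hs
    exact h s N (fun i => (hs i).le)

/-! ### the region `Re s_i > 1` -/

/-- the block of the full series -/
noncomputable def SB {k : ℕ} (M : ℕ) (s : Fin k → ℂ) (w : ℂ) (D : ℝ) : ℂ :=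
  open Classical in ∑' d : ℕ, if IsFund d then
    PH (d / D) * ((kr d M : ℤ) : ℂ) * (d : ℂ) ^ (-w) * ∏ i, LL d (s i) else 0

theorem SB_hasSum {k : ℕ} (M : ℕ) (s : Fin k → ℂ) (hs : ∀ i, 1 < (s i).re) (w : ℂ) {D : ℝ}
    (hD : 0 < D) : HasSum (fun N => af s N * SF (M * N) w D) (SB M s w D) := by
  classical
  obtain ⟨X, hX⟩ := exists_nat_ge (2 * D)
  have hz : ∀ d ∉ range (X + 1), PH ((d : ℕ) / D) = 0 := by
    intro d hd
    rw [mem_range, not_lt] at hd
    have h1 : ((X + 1 : ℕ) : ℝ) ≤ d := by exact_mod_cast hd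
    push_cast at h1
    apply PH_zero
    rw [lt_div_iff₀ hD]
    linarith
  have h1 : SB M s w D = ∑ d ∈ range (X + 1), if IsFund d then
      PH (d / D) * ((kr d M : ℤ) : ℂ) * (d : ℂ) ^ (-w) * ∏ i, LL d (s i) else 0 := by
    unfold SB
    apply tsum_eq_sum
    intro d hd
    rw [hz d hd]
    simp
  have h2 : ∀ N, SF (M * N) w D = ∑ d ∈ range (X + 1), if IsFund d then
      PH (d / D) * ((kr d (M * N) : ℤ) : ℂ) * (d : ℂ) ^ (-w) else 0 := by
    intro N
    unfold SF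
    apply tsum_eq_sum
    intro d hd
    rw [hz d hd]
    simp
  rw [h1]
  have h3 : (fun N => af s N * SF (M * N) w D) = fun N => ∑ d ∈ range (X + 1), if IsFund d then
      PH (d / D) * ((kr d M : ℤ) : ℂ) * (d : ℂ) ^ (-w) * (((kr d N : ℤ) : ℂ) * af s N) else 0 := by
    funext N
    rw [h2, mul_sum]
    refine sum_congr rfl fun d _ => ?_
    split_ifs
    · rw [kr_mul]
      push_cast
      ring
    · rw [mul_zero]
  rw [h3]
  apply hasSum_sum
  intro d _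
  split_ifs
  · exact (af_hasSum d s hs).mul_left _
  · exact hasSum_zero

lemma mul_sum_le (F : ℕ → ℝ) (hF : ∀ N, 0 ≤ F N) {M : ℕ} (hM : 1 ≤ M) (n : ℕ) :
    ∑ N ∈ Icc 1 n, F (M * N) ≤ ∑ N ∈ Icc 1 (M * n), F N := by
  classical
  have h1 : ∑ N ∈ Icc 1 n, F (M * N) = ∑ N ∈ (Icc 1 n).image (fun N => M * N), F N := by
    rw [sum_image]
    intro a _ b _ hab
    exact Nat.eq_of_mul_eq_mul_left hM hab
  rw [h1]
  refine sum_le_sum_of_subset_of_nonneg ?_ fun _ _ _ => hF _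
  intro N hN
  rw [mem_image] at hN
  obtain ⟨a, ha, rfl⟩ := hN
  rw [mem_Icc] at ha ⊢
  exact ⟨Nat.mul_pos hM ha.1, Nat.mul_le_mul_left _ ha.2⟩

theorem SB_bound (k : ℕ) (ε B : ℝ) (hε : 0 < ε) (hε1 : ε ≤ 1) (M : ℕ) (hM : 1 ≤ M) :
    ∃ (C : ℝ) (A : ℕ), 0 < C ∧ ∀ (s : Fin k → ℂ) (w : ℂ) (D : ℝ), 1 ≤ D → |w.re| ≤ B →
    (∀ i, 1 + ε ≤ (s i).re) →
    ‖SB M s w D - TT M s * ZZ w D‖ ≤ C * (1 + ‖w‖) ^ A * D ^ (1 / 2 + ε - w.re) := by
  obtain ⟨C1, hC1, h1⟩ := af_bound k (ε / 2) (by positivity)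
  obtain ⟨C2, A, hC2, h2⟩ := T1 (ε / 2) B (by positivity) (by linarith)
  have hM0 : (0 : ℝ) < M := by exact_mod_cast hM
  refine ⟨C1 * (M : ℝ) ^ (1 + ε / 2) * C2, A, by positivity, ?_⟩
  intro s w D hD hw hs
  have hD0 : 0 < D := by linarith
  have hs1 : ∀ i, 1 < (s i).re := fun i => by linarith [hs i]
  have h3 := SB_hasSum M s hs1 w hD0
  obtain ⟨u, hu, h4⟩ := TT_term k ε hε M hM
  have h5 : HasSum (fun N => cF (M * N) * af s N) (TT M s) :=
    (Summable.of_norm_bounded hu (fun N => h4 s N (fun i => by linarith [hs i]))).hasSum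
  have h6 := h3.sub (h5.mul_right (ZZ w D))
  obtain ⟨F, hF⟩ : ∃ F : ℕ → ℝ, F = fun N : ℕ => (N : ℝ) ^ (-(1 + ε / 2)) *
    ‖SF N w D - cF N * ZZ w D‖ := ⟨_, rfl⟩
  have hF0 : ∀ N, 0 ≤ F N := fun N => by rw [hF]; positivity
  have h7 : ∀ N : ℕ, ‖af s N * SF (M * N) w D - cF (M * N) * af s N * ZZ w D‖ ≤
      C1 * (M : ℝ) ^ (1 + ε / 2) * F (M * N) := by
    intro N
    rcases Nat.eq_zero_or_pos N with h0 | h0
    · subst h0
      rw [af_zero]
      simp only [zero_mul, mul_zero, sub_zero, norm_zero]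
      have := hF0 0
      positivity
    · have hN0 : (0 : ℝ) < N := by exact_mod_cast h0
      have e0 : af s N * SF (M * N) w D - cF (M * N) * af s N * ZZ w D =
          af s N * (SF (M * N) w D - cF (M * N) * ZZ w D) := by ring
      rw [e0, norm_mul, hF]
      simp only
      push_cast
      rw [Real.mul_rpow hM0.le hN0.le]
      have e1 : (M : ℝ) ^ (1 + ε / 2) * (M : ℝ) ^ (-(1 + ε / 2)) = 1 := by
        rw [← Real.rpow_add hM0, add_neg_cancel, Real.rpow_zero]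
      have e2 := h1 s (1 + ε) N hs h0
      calc _ ≤ (C1 * (N : ℝ) ^ (ε / 2 - (1 + ε))) * ‖SF (M * N) w D - cF (M * N) * ZZ w D‖ :=
            mul_le_mul_of_nonneg_right e2 (norm_nonneg _)
        _ = C1 * ((M : ℝ) ^ (1 + ε / 2) * (M : ℝ) ^ (-(1 + ε / 2))) *
            ((N : ℝ) ^ (-(1 + ε / 2)) * ‖SF (M * N) w D - cF (M * N) * ZZ w D‖) := by
            rw [e1, show ε / 2 - (1 + ε) = -(1 + ε / 2) by ring]
            ring
        _ = _ := by ring
  have hF00 : F (M * 0) = 0 := by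
    rw [hF]
    simp only [mul_zero]
    rw [Nat.cast_zero, Real.zero_rpow (by linarith), zero_mul]
  have h8 : ∀ n : ℕ, ∑ N ∈ range n, F (M * N) ≤
      C2 * (1 + ‖w‖) ^ A * D ^ (1 / 2 + ε / 2 / 2 - w.re) := by
    intro n
    have h9 : ∑ N ∈ range n, F (M * N) ≤ ∑ N ∈ Icc 1 n, F (M * N) := by
      have h10 : ∑ N ∈ range n, F (M * N) = ∑ N ∈ (range n).erase 0, F (M * N) := by
        by_cases h11 : 0 ∈ range n
        · rw [← add_sum_erase _ _ h11, hF00, zero_add]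
        · rw [erase_eq_of_notMem h11]
      rw [h10]
      refine sum_le_sum_of_subset_of_nonneg ?_ fun _ _ _ => hF0 _
      intro i hi
      rw [mem_erase, mem_range] at hi
      rw [mem_Icc]
      omega
    refine h9.trans ((mul_sum_le F hF0 hM n).trans ?_)
    rw [hF]
    exact h2 (M * n) D w hD hw
  have h12 : Summable (fun N => F (M * N)) :=
    summable_of_sum_range_le (fun N => hF0 _) h8
  have h13 : ∑' N, F (M * N) ≤ C2 * (1 + ‖w‖) ^ A * D ^ (1 / 2 + ε / 2 / 2 - w.re) :=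
    Real.tsum_le_of_sum_range_le (fun N => hF0 _) h8
  have h14 := h6.tsum_eq
  rw [← h14]
  refine (tsum_of_norm_bounded (h12.mul_left (C1 * (M : ℝ) ^ (1 + ε / 2))).hasSum h7).trans ?_
  rw [tsum_mul_left]
  calc _ ≤ C1 * (M : ℝ) ^ (1 + ε / 2) *
        (C2 * (1 + ‖w‖) ^ A * D ^ (1 / 2 + ε / 2 / 2 - w.re)) :=
        mul_le_mul_of_nonneg_left h13 (by positivity)
    _ ≤ C1 * (M : ℝ) ^ (1 + ε / 2) * (C2 * (1 + ‖w‖) ^ A * D ^ (1 / 2 + ε - w.re)) := by
        apply mul_le_mul_of_nonneg_left _ (by positivity)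
        apply mul_le_mul_of_nonneg_left _ (by positivity)
        exact Real.rpow_le_rpow_of_exponent_le hD (by linarith)
    _ = _ := by ring

end Pool.Agent.W5h65.MD
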