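import Mathlib

set_option autoImplicit false

/-! Interpolation of bounds of polynomial growth (Hadamard's three lines theorem). -/

namespace Pool.Agent.W5h65.MD

open Filter Topology Complex.HadamardThreeLines

/-- bounds of polynomial growth for a sequence of functions -/
def Good {k : ℕ} (E : ℕ → (Fin k → ℂ) → ℂ → ℂ) (p : (Fin k → ℝ) × ℝ) : Prop :=
  ∀ ε B : ℝ, 0 < ε → ∃ (C : ℝ) (A : ℕ), 0 < C ∧ ∀ (j : ℕ) (s : Fin k → ℂ) (w : ℂ),
    (∀ i, p.1 i + ε ≤ (s i).re) → (∀ i, (s i).re ≤ B) → |w.re| ≤ B →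
    ‖E j s w‖ ≤ C * (1 + ‖s‖ + ‖w‖) ^ A * (2 : ℝ) ^ ((j : ℝ) * (p.2 + ε - w.re))

lemma decay (A : ℕ) (R : ℝ) (hR : 0 ≤ R) : ∃ K : ℝ, 0 < K ∧ ∀ t : ℝ,
    (1 + R * (1 + |t|)) ^ A * Real.exp (1 - t ^ 2) ≤ K := by
  refine ⟨A.factorial * Real.exp (2 + R + R ^ 2 / 4), by positivity, fun t => ?_⟩
  have h1 : 0 ≤ 1 + R * (1 + |t|) := by positivity
  have h2 := Real.pow_div_factorial_le_exp _ h1 A
  rw [div_le_iff₀ (by positivity)] at h2
  calc _ ≤ Real.exp (1 + R * (1 + |t|)) * A.factorial * Real.exp (1 - t ^ 2) :=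
        mul_le_mul_of_nonneg_right h2 (Real.exp_pos _).le
    _ = A.factorial * Real.exp ((1 + R * (1 + |t|)) + (1 - t ^ 2)) := by
        rw [Real.exp_add (1 + R * (1 + |t|)) (1 - t ^ 2)]
        ring
    _ ≤ _ := by
        apply mul_le_mul_of_nonneg_left _ (by positivity)
        apply Real.exp_le_exp.2
        have h3 : t ^ 2 = |t| ^ 2 := (sq_abs t).symm
        rw [h3]
        nlinarith [sq_nonneg (|t| - R / 2)]

theorem good_convex {k : ℕ} (E : ℕ → (Fin k → ℂ) → ℂ → ℂ)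
    (hd : ∀ j w, DifferentiableOn ℂ (fun s => E j s w) {s : Fin k → ℂ | ∀ i, 1 / 2 < (s i).re})
    (hE : ∀ (j : ℕ) (w : ℂ) (ε B : ℝ), 0 < ε → ∃ (C : ℝ) (A : ℕ), 0 < C ∧ ∀ s : Fin k → ℂ,
      (∀ i, 1 / 2 + ε ≤ (s i).re) → (∀ i, (s i).re ≤ B) → ‖E j s w‖ ≤ C * (1 + ‖s‖) ^ A) :
    Convex ℝ {p : (Fin k → ℝ) × ℝ | (∀ i, 1 / 2 ≤ p.1 i) ∧ Good E p} := by
  rintro p ⟨hp1, hp2⟩ q ⟨hq1, hq2⟩ a b ha hb hab
  have ha' : a = 1 - b := by linarith
  have hb1 : b ≤ 1 := by linarith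
  refine ⟨fun i => ?_, ?_⟩
  · simp only [Prod.fst_add, Prod.smul_fst, Pi.add_apply, Pi.smul_apply, smul_eq_mul]
    have := hp1 i
    have := hq1 i
    nlinarith
  intro ε B hε
  obtain ⟨R, hR⟩ : ∃ R, R = ‖q.1 - p.1‖ := ⟨_, rfl⟩
  have hR0 : 0 ≤ R := by rw [hR]; exact norm_nonneg _
  have hRi : ∀ i, |q.1 i - p.1 i| ≤ R := by
    intro i
    rw [hR]
    exact norm_le_pi_norm (q.1 - p.1) i
  obtain ⟨C0, A0, hC0, h0⟩ := hp2 ε (B + R) hε
  obtain ⟨C1, A1, hC1, h1⟩ := hq2 ε (B + R) hε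
  obtain ⟨K, hK, hdec⟩ := decay (A0 + A1) R hR0
  refine ⟨(C0 + C1) * K, A0 + A1, by positivity, ?_⟩
  intro j s w hs hsB hw
  obtain ⟨v, hv⟩ : ∃ v : Fin k → ℂ, v = fun i => ((q.1 i - p.1 i : ℝ) : ℂ) := ⟨_, rfl⟩
  have hvR : ‖v‖ ≤ R := by
    rw [pi_norm_le_iff_of_nonneg hR0]
    intro i
    rw [hv]
    simp only
    rw [Complex.norm_real]
    exact hRi i
  obtain ⟨L, hL⟩ : ∃ L : ℂ → Fin k → ℂ, L = fun z : ℂ => s + (z - (b : ℂ)) • v := ⟨_, rfl⟩
  have hLre : ∀ z i, (L z i).re = (s i).re + (z.re - b) * (q.1 i - p.1 i) := by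
    intro z i
    rw [hL, hv]
    simp only [Pi.add_apply, Pi.smul_apply, smul_eq_mul, Complex.add_re, Complex.mul_re,
      Complex.sub_re, Complex.ofReal_re, Complex.ofReal_im, mul_zero, sub_zero]
  obtain ⟨S, hS⟩ : ∃ S, S = 1 + ‖s‖ + ‖w‖ := ⟨_, rfl⟩
  have hS1 : 1 ≤ S := by rw [hS]; linarith [norm_nonneg s, norm_nonneg w]
  -- the shape of the shifted point in the strip
  have hzb : ∀ z : ℂ, 0 ≤ z.re → z.re ≤ 1 → ‖z - b‖ ≤ 1 + |z.im| := by
    intro z hz0 hz1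
    refine (Complex.norm_le_abs_re_add_abs_im _).trans ?_
    have e1 : |(z - b).re| ≤ 1 := by
      rw [Complex.sub_re, Complex.ofReal_re, abs_le]
      constructor <;> linarith
    have e2 : (z - b).im = z.im := by simp
    rw [e2]
    linarith
  have hLn : ∀ z : ℂ, 0 ≤ z.re → z.re ≤ 1 → ‖L z‖ ≤ ‖s‖ + R * (1 + |z.im|) := by
    intro z hz0 hz1
    rw [hL]
    refine (norm_add_le _ _).trans ?_
    rw [norm_smul]
    have := mul_le_mul (hzb z hz0 hz1) hvR (norm_nonneg _) (by positivity)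
    linarith
  have hLS : ∀ z : ℂ, 0 ≤ z.re → z.re ≤ 1 → 1 + ‖L z‖ + ‖w‖ ≤ S * (1 + R * (1 + |z.im|)) := by
    intro z hz0 hz1
    have h2 := hLn z hz0 hz1
    have h3 : 0 ≤ R * (1 + |z.im|) := by positivity
    rw [hS] at hS1 ⊢
    nlinarith [norm_nonneg s, norm_nonneg w]
  have hLlo : ∀ z : ℂ, 0 ≤ z.re → z.re ≤ 1 → ∀ i, p.1 i + z.re * (q.1 i - p.1 i) + ε ≤ (L z i).re := by
    intro z _ _ i
    rw [hLre]
    have h2 := hs i
    simp only [Prod.fst_add, Prod.smul_fst, Pi.add_apply, Pi.smul_apply, smul_eq_mul] at h2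
    rw [ha'] at h2
    linarith
  have hLhi : ∀ z : ℂ, 0 ≤ z.re → z.re ≤ 1 → ∀ i, (L z i).re ≤ B + R := by
    intro z hz0 hz1 i
    rw [hLre]
    have h2 := hsB i
    have h3 : |(z.re - b) * (q.1 i - p.1 i)| ≤ 1 * R := by
      rw [abs_mul]
      apply mul_le_mul _ (hRi i) (abs_nonneg _) (by norm_num)
      rw [abs_le]
      constructor <;> linarith
    have h4 := le_abs_self ((z.re - b) * (q.1 i - p.1 i))
    linarith
  have hLmem : ∀ z : ℂ, 0 ≤ z.re → z.re ≤ 1 → ∀ i, 1 / 2 + ε ≤ (L z i).re := by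
    intro z hz0 hz1 i
    refine le_trans ?_ (hLlo z hz0 hz1 i)
    have h2 := hp1 i
    have h3 := hq1 i
    nlinarith
  obtain ⟨c, hc⟩ : ∃ c : ℝ, c = j * Real.log 2 * (q.2 - p.2) := ⟨_, rfl⟩
  obtain ⟨G, hG⟩ : ∃ G : ℂ → ℂ, G = fun z : ℂ => E j (L z) w *
    (Complex.exp (-(c : ℂ) * (z - (b : ℂ))) * Complex.exp ((z - (b : ℂ)) ^ 2)) := ⟨_, rfl⟩
  have he1 : ∀ z : ℂ, ‖Complex.exp (-(c : ℂ) * (z - b))‖ = Real.exp (-c * (z.re - b)) := by
    intro z
    rw [Complex.norm_exp]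
    congr 1
    simp
  have he2 : ∀ z : ℂ, 0 ≤ z.re → z.re ≤ 1 →
      ‖Complex.exp ((z - b) ^ 2)‖ ≤ Real.exp (1 - z.im ^ 2) := by
    intro z hz0 hz1
    rw [Complex.norm_exp]
    apply Real.exp_le_exp.2
    have : ((z - b) ^ 2).re = (z.re - b) ^ 2 - z.im ^ 2 := by
      rw [pow_two, Complex.mul_re]
      simp
      ring
    rw [this]
    nlinarith
  obtain ⟨P, hP⟩ : ∃ P : ℝ, P = (2 : ℝ) ^ ((j : ℝ) * ((a • p + b • q).2 + ε - w.re)) := ⟨_, rfl⟩
  have hP0 : 0 < P := by rw [hP]; positivity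
  have hpow : ∀ x y : ℝ, (2 : ℝ) ^ x * Real.exp y = Real.exp (x * Real.log 2 + y) := by
    intro x y
    rw [Real.rpow_def_of_pos (by norm_num), ← Real.exp_add, mul_comm (Real.log 2)]
  have hP' : P = Real.exp ((j : ℝ) * (p.2 + b * (q.2 - p.2) + ε - w.re) * Real.log 2) := by
    rw [hP, Real.rpow_def_of_pos (by norm_num), mul_comm (Real.log 2)]
    congr 3
    simp only [Prod.snd_add, Prod.smul_snd, smul_eq_mul]
    rw [ha']
    ring
  obtain ⟨Mb, hMb⟩ : ∃ Mb, Mb = (C0 + C1) * K * S ^ (A0 + A1) * P := ⟨_, rfl⟩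
  have hMb0 : 0 < Mb := by rw [hMb]; positivity
  -- edges
  have hedge : ∀ (z : ℂ) (C : ℝ) (A : ℕ) (al : ℝ), 0 ≤ z.re → z.re ≤ 1 → 0 < C → C ≤ C0 + C1 →
      A ≤ A0 + A1 → al = p.2 + z.re * (q.2 - p.2) →
      ‖E j (L z) w‖ ≤ C * (1 + ‖L z‖ + ‖w‖) ^ A * (2 : ℝ) ^ ((j : ℝ) * (al + ε - w.re)) →
      ‖G z‖ ≤ Mb := by
    intro z C A al hz0 hz1 hC hC' hA hal hle
    rw [hG]
    simp only
    rw [norm_mul, norm_mul, he1]
    have h2 : (1 + ‖L z‖ + ‖w‖) ^ A ≤ S ^ (A0 + A1) * (1 + R * (1 + |z.im|)) ^ (A0 + A1) := by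
      have h3 : 1 ≤ 1 + ‖L z‖ + ‖w‖ := by linarith [norm_nonneg (L z), norm_nonneg w]
      calc _ ≤ (1 + ‖L z‖ + ‖w‖) ^ (A0 + A1) := pow_le_pow_right₀ h3 hA
        _ ≤ (S * (1 + R * (1 + |z.im|))) ^ (A0 + A1) :=
            pow_le_pow_left₀ (by linarith) (hLS z hz0 hz1) _
        _ = _ := mul_pow _ _ _
    have h4 : (2 : ℝ) ^ ((j : ℝ) * (al + ε - w.re)) * Real.exp (-c * (z.re - b)) = P := by
      rw [hpow, hP', hc, hal]
      congr 1
      ring
    have h5 := hdec z.im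
    calc _ ≤ (C * (1 + ‖L z‖ + ‖w‖) ^ A * (2 : ℝ) ^ ((j : ℝ) * (al + ε - w.re))) *
          (Real.exp (-c * (z.re - b)) * Real.exp (1 - z.im ^ 2)) := by
          apply mul_le_mul hle _ (by positivity) (by positivity)
          exact mul_le_mul_of_nonneg_left (he2 z hz0 hz1) (Real.exp_pos _).le
      _ = C * (1 + ‖L z‖ + ‖w‖) ^ A * Real.exp (1 - z.im ^ 2) *
          ((2 : ℝ) ^ ((j : ℝ) * (al + ε - w.re)) * Real.exp (-c * (z.re - b))) := by ring
      _ = C * (1 + ‖L z‖ + ‖w‖) ^ A * Real.exp (1 - z.im ^ 2) * P := by rw [h4]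
      _ ≤ (C0 + C1) * (S ^ (A0 + A1) * (1 + R * (1 + |z.im|)) ^ (A0 + A1)) *
          Real.exp (1 - z.im ^ 2) * P := by gcongr
      _ = (C0 + C1) * S ^ (A0 + A1) *
          ((1 + R * (1 + |z.im|)) ^ (A0 + A1) * Real.exp (1 - z.im ^ 2)) * P := by ring
      _ ≤ (C0 + C1) * S ^ (A0 + A1) * K * P := by gcongr
      _ = Mb := by rw [hMb]; ring
  have hwB : |w.re| ≤ B + R := by linarith
  have hmem : ((b : ℝ) : ℂ) ∈ verticalClosedStrip 0 1 := by
    show ((b : ℝ) : ℂ).re ∈ Set.Icc (0 : ℝ) 1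
    rw [Complex.ofReal_re]
    exact ⟨hb, hb1⟩
  have hLdiff : Differentiable ℂ L := by
    rw [hL]
    exact ((differentiable_id.sub_const (b : ℂ)).smul_const v).const_add s
  have hGd : ∀ z : ℂ, 0 ≤ z.re → z.re ≤ 1 → DifferentiableAt ℂ G z := by
    intro z hz0 hz1
    rw [hG]
    apply DifferentiableAt.mul
    · have hopen : IsOpen {s : Fin k → ℂ | ∀ i, 1 / 2 < (s i).re} := by
        have : {s : Fin k → ℂ | ∀ i, 1 / 2 < (s i).re} =
            ⋂ i, {s : Fin k → ℂ | 1 / 2 < (s i).re} := by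
          ext s
          simp
        rw [this]
        exact isOpen_iInter_of_finite fun i =>
          isOpen_lt continuous_const (Complex.continuous_re.comp (continuous_apply i))
      have hmem' : L z ∈ {s : Fin k → ℂ | ∀ i, 1 / 2 < (s i).re} := by
        intro i
        have := hLmem z hz0 hz1 i
        linarith
      have h2 : DifferentiableAt ℂ (fun s => E j s w) (L z) :=
        (hd j w _ hmem').differentiableAt (hopen.mem_nhds hmem')
      exact DifferentiableAt.comp (g := fun s => E j s w) (f := L) z h2 (hLdiff z)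
    · fun_prop
  have hbdd : BddAbove ((norm ∘ G) '' verticalClosedStrip 0 1) := by
    obtain ⟨C2, A2, hC2, h2⟩ := hE j w ε (B + R) hε
    obtain ⟨K2, hK2, hdec2⟩ := decay A2 R hR0
    refine ⟨C2 * (1 + ‖s‖) ^ A2 * K2 * Real.exp |c|, ?_⟩
    rintro _ ⟨z, hz, rfl⟩
    have hz' : z.re ∈ Set.Icc (0 : ℝ) 1 := hz
    obtain ⟨hz0, hz1⟩ := hz'
    show ‖G z‖ ≤ _
    rw [hG]
    simp only
    rw [norm_mul, norm_mul, he1]
    have h3 := h2 (L z) (hLmem z hz0 hz1) (hLhi z hz0 hz1)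
    have h4 : 1 + ‖L z‖ ≤ (1 + ‖s‖) * (1 + R * (1 + |z.im|)) := by
      have h5 := hLn z hz0 hz1
      have h6 : 0 ≤ R * (1 + |z.im|) := by positivity
      nlinarith [norm_nonneg s]
    have h5 : -c * (z.re - b) ≤ |c| := by
      have h6 : |(-c) * (z.re - b)| ≤ |c| * 1 := by
        rw [abs_mul, abs_neg]
        apply mul_le_mul_of_nonneg_left _ (abs_nonneg _)
        rw [abs_le]
        constructor <;> linarith
      have := le_abs_self ((-c) * (z.re - b))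
      linarith
    have h6 := hdec2 z.im
    calc _ ≤ (C2 * (1 + ‖L z‖) ^ A2) * (Real.exp |c| * Real.exp (1 - z.im ^ 2)) := by
          apply mul_le_mul h3 _ (by positivity) (by positivity)
          exact mul_le_mul (Real.exp_le_exp.2 h5) (he2 z hz0 hz1) (norm_nonneg _) (Real.exp_pos _).le
      _ ≤ (C2 * ((1 + ‖s‖) * (1 + R * (1 + |z.im|))) ^ A2) *
          (Real.exp |c| * Real.exp (1 - z.im ^ 2)) := by gcongr
      _ = C2 * (1 + ‖s‖) ^ A2 * ((1 + R * (1 + |z.im|)) ^ A2 * Real.exp (1 - z.im ^ 2)) *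
          Real.exp |c| := by
          rw [mul_pow]
          ring
      _ ≤ C2 * (1 + ‖s‖) ^ A2 * K2 * Real.exp |c| := by gcongr
  have hdc : DiffContOnCl ℂ G (verticalStrip 0 1) := by
    have hcl : IsClosed (verticalClosedStrip 0 1) := isClosed_Icc.preimage Complex.continuous_re
    have hsub : closure (verticalStrip 0 1) ⊆ verticalClosedStrip 0 1 :=
      closure_minimal (Set.preimage_mono Set.Ioo_subset_Icc_self) hcl
    apply DifferentiableOn.diffContOnCl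
    intro z hz
    have hz' : z.re ∈ Set.Icc (0 : ℝ) 1 := hsub hz
    exact (hGd z hz'.1 hz'.2).differentiableWithinAt
  have hleft : ∀ z ∈ Complex.re ⁻¹' {(0 : ℝ)}, ‖G z‖ ≤ Mb := by
    intro z hz
    have hz' : z.re = 0 := hz
    have hlo : ∀ i, p.1 i + ε ≤ (L z i).re := by
      intro i
      have := hLlo z (by rw [hz']) (by rw [hz']; norm_num) i
      rw [hz'] at this
      linarith
    exact hedge z C0 A0 p.2 (by rw [hz']) (by rw [hz']; norm_num) hC0 (by linarith) (by omega)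
      (by rw [hz']; ring) (h0 j (L z) w hlo (hLhi z (by rw [hz']) (by rw [hz']; norm_num)) hwB)
  have hright : ∀ z ∈ Complex.re ⁻¹' {(1 : ℝ)}, ‖G z‖ ≤ Mb := by
    intro z hz
    have hz' : z.re = 1 := hz
    have hlo : ∀ i, q.1 i + ε ≤ (L z i).re := by
      intro i
      have := hLlo z (by rw [hz']; norm_num) (by rw [hz']) i
      rw [hz'] at this
      linarith
    exact hedge z C1 A1 q.2 (by rw [hz']; norm_num) (by rw [hz']) hC1 (by linarith) (by omega)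
      (by rw [hz']; ring) (h1 j (L z) w hlo (hLhi z (by rw [hz']; norm_num) (by rw [hz'])) hwB)
  have key := norm_le_interp_of_mem_verticalClosedStrip₀₁' G hmem hdc hbdd hleft hright
  have h9 : Mb ^ (1 - ((b : ℝ) : ℂ).re) * Mb ^ ((b : ℝ) : ℂ).re = Mb := by
    rw [← Real.rpow_add hMb0, sub_add_cancel, Real.rpow_one]
  rw [h9] at key
  have h10 : G b = E j s w := by
    rw [hG, hL]
    simp
  rw [h10, hMb, hS, hP] at key
  exact key

end Pool.Agent.W5h65.MD
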