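import Pool.Agent.W5h65.MD.C2
import Pool.Agent.W5h65.MD.C3
import Pool.Agent.W5h65.MD.B3

set_option autoImplicit false

/-! The dyadic blocks: holomorphy and the bounds at the corners. -/

namespace Pool.Agent.W5h65.MD

open Finset Filter Topology MeasureTheory Pool.Agent.H306R2.RZ Pool.Agent.H143R3.FM

/-- the coefficient of a fundamental discriminant `d > 1` -/
noncomputable def gd {k : ℕ} (M : ℕ) (s : Fin k → ℂ) (w : ℂ) (d : ℕ) : ℂ :=
  open Classical in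
  if IsFund d ∧ 1 < d then ((kr d M : ℤ) : ℂ) * (d : ℂ) ^ (-w) * ∏ i, Ld d (s i) else 0

noncomputable def AB {k : ℕ} (M : ℕ) (s : Fin k → ℂ) (w : ℂ) (j : ℕ) : ℂ :=
  ∑' d : ℕ, PH (d / 2 ^ j) * gd M s w d

noncomputable def EE {k : ℕ} (M : ℕ) (j : ℕ) (s : Fin k → ℂ) (w : ℂ) : ℂ :=
  AB M s w j - TT M s * ZZ w (2 ^ j)

lemma PH_range {j d : ℕ} (hd : d ∉ range (2 ^ (j + 1) + 1)) : PH (d / 2 ^ j) = 0 := by
  rw [mem_range, not_lt] at hd
  apply PH_zero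
  rw [lt_div_iff₀ (by positivity)]
  have h : ((2 ^ (j + 1) + 1 : ℕ) : ℝ) ≤ d := by exact_mod_cast hd
  push_cast at h
  rw [pow_succ] at h
  linarith

lemma AB_fin {k : ℕ} (M : ℕ) (s : Fin k → ℂ) (w : ℂ) (j : ℕ) :
    AB M s w j = ∑ d ∈ range (2 ^ (j + 1) + 1), PH (d / 2 ^ j) * gd M s w d := by
  unfold AB
  apply tsum_eq_sum
  intro d hd
  rw [PH_range hd, zero_mul]

lemma ZZ_fin (w : ℂ) (j : ℕ) :
    ZZ w (2 ^ j) = ∑ d ∈ range (2 ^ (j + 1) + 1), PH (d / 2 ^ j) * (d : ℂ) ^ (-w) := by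
  unfold ZZ
  apply tsum_eq_sum
  intro d hd
  rw [PH_range hd, zero_mul]

lemma PH_at_zero (D : ℝ) : PH ((0 : ℕ) / D) = 0 := PH_SS.zero (Or.inl (by norm_num))

/-! ### holomorphy -/

lemma diffOn_prod {E ι : Type*} [NormedAddCommGroup E] [NormedSpace ℂ E] (S : Finset ι)
    (f : ι → E → ℂ) (U : Set E) (h : ∀ i ∈ S, DifferentiableOn ℂ (f i) U) :
    DifferentiableOn ℂ (fun z => ∏ i ∈ S, f i z) U := by
  classical
  induction S using Finset.induction_on with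
  | empty =>
    simp only [prod_empty]
    exact differentiableOn_const _
  | insert a S ha ih =>
    simp only [prod_insert ha]
    exact (h a (mem_insert_self _ _)).mul (ih fun i hi => h i (mem_insert_of_mem hi))

/-- the basic domain -/
def DD (k : ℕ) : Set ((Fin k → ℂ) × ℂ) := {z | ∀ i, 1 / 2 < (z.1 i).re}

lemma gd_diff {k : ℕ} (M d : ℕ) :
    DifferentiableOn ℂ (fun z : (Fin k → ℂ) × ℂ => gd M z.1 z.2 d) (DD k) := by
  classical
  unfold gd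
  by_cases h : IsFund d ∧ 1 < d
  · simp only [if_pos h]
    apply DifferentiableOn.mul
    · apply DifferentiableOn.const_mul
      exact ((nat_cpow_diff (m := d) (by omega)).comp differentiable_snd).differentiableOn
    · apply diffOn_prod
      intro i _
      have h1 : DifferentiableOn ℂ (fun z : (Fin k → ℂ) × ℂ => z.1 i) (DD k) := by
        apply Differentiable.differentiableOn
        fun_prop
      exact DifferentiableOn.comp (g := Ld d) (f := fun z : (Fin k → ℂ) × ℂ => z.1 i)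
        (Ld_diff h.1 h.2) h1 (fun z hz => hz i)
  · simp only [if_neg h]
    exact differentiableOn_const _

theorem EE_diff (k M : ℕ) (hM : 1 ≤ M) (j : ℕ) :
    DifferentiableOn ℂ (fun z : (Fin k → ℂ) × ℂ => EE M j z.1 z.2) (DD k) := by
  unfold EE
  apply DifferentiableOn.sub
  · have : (fun z : (Fin k → ℂ) × ℂ => AB M z.1 z.2 j) = fun z =>
        ∑ d ∈ range (2 ^ (j + 1) + 1), PH (d / 2 ^ j) * gd M z.1 z.2 d := by
      funext z
      exact AB_fin M z.1 z.2 j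
    rw [this]
    apply DifferentiableOn.fun_sum
    intro d _
    exact (gd_diff M d).const_mul _
  · apply DifferentiableOn.mul
    · exact (TT_diff k M hM).comp differentiable_fst.differentiableOn (fun z hz => hz)
    · have : (fun z : (Fin k → ℂ) × ℂ => ZZ z.2 (2 ^ j)) = fun z =>
          ∑ d ∈ range (2 ^ (j + 1) + 1), PH (d / 2 ^ j) * (d : ℂ) ^ (-z.2) := by
        funext z
        exact ZZ_fin z.2 j
      rw [this]
      apply DifferentiableOn.fun_sum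
      intro d _
      rcases Nat.eq_zero_or_pos d with h | h
      · subst h
        simp only [PH_at_zero, zero_mul]
        exact differentiableOn_const _
      · exact (((nat_cpow_diff (m := d) (by omega)).comp differentiable_snd).const_mul
          _).differentiableOn

theorem EE_diff_s (k M : ℕ) (hM : 1 ≤ M) (j : ℕ) (w : ℂ) :
    DifferentiableOn ℂ (fun s : Fin k → ℂ => EE M j s w) {s : Fin k → ℂ | ∀ i, 1 / 2 < (s i).re} := by
  have h1 : DifferentiableOn ℂ (fun s : Fin k → ℂ => (s, w)) {s : Fin k → ℂ | ∀ i, 1 / 2 < (s i).re} :=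
    (differentiable_id.prodMk (differentiable_const w)).differentiableOn
  have h2 : Set.MapsTo (fun s : Fin k → ℂ => (s, w)) {s : Fin k → ℂ | ∀ i, 1 / 2 < (s i).re} (DD k) := by
    intro s hs i
    exact hs i
  exact DifferentiableOn.comp (g := fun z : (Fin k → ℂ) × ℂ => EE M j z.1 z.2)
    (f := fun s : Fin k → ℂ => (s, w)) (EE_diff k M hM j) h1 h2

/-! ### weights -/

lemma wt {B : ℝ} {w : ℂ} (hw : |w.re| ≤ B) {d : ℕ} (hd : 1 ≤ d) (j : ℕ) :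
    ‖PH (d / 2 ^ j) * (d : ℂ) ^ (-w)‖ ≤ 2 ^ B * ((2 : ℝ) ^ j) ^ (-w.re) := by
  have h := PHcs (c := 1) (D := 2 ^ j) hd (by positivity) one_pos w
  rw [one_mul, div_one] at h
  have h5 : PH (d / 2 ^ j) * (d : ℂ) ^ (-w) =
      (((2 : ℝ) ^ j : ℝ) : ℂ) ^ (-w) * cs PH w (d / 2 ^ j) := by simpa using h
  rw [h5, norm_mul, norm_two_pow, mul_comm]
  apply mul_le_mul_of_nonneg_right _ (by positivity)
  unfold cs
  rw [norm_mul]
  by_cases h0 : PH (d / 2 ^ j) = 0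
  · rw [h0, norm_zero, zero_mul]
    positivity
  · have h6 := PH_SS.2 _ h0
    calc _ ≤ 1 * (2 : ℝ) ^ B := mul_le_mul (PH_le _) (norm_cpow_le hw h6.1 h6.2) (norm_nonneg _)
          one_pos.le
      _ = _ := one_mul _

lemma ZZ_norm {B : ℝ} {w : ℂ} (hw : |w.re| ≤ B) (j : ℕ) :
    ‖ZZ w (2 ^ j)‖ ≤ 4 * 2 ^ j * (2 ^ B * ((2 : ℝ) ^ j) ^ (-w.re)) := by
  rw [ZZ_fin]
  refine (norm_sum_le _ _).trans ?_
  have h1 : ∀ d ∈ range (2 ^ (j + 1) + 1), ‖PH (d / 2 ^ j) * (d : ℂ) ^ (-w)‖ ≤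
      2 ^ B * ((2 : ℝ) ^ j) ^ (-w.re) := by
    intro d _
    rcases Nat.eq_zero_or_pos d with h | h
    · subst h
      rw [PH_at_zero, zero_mul, norm_zero]
      positivity
    · exact wt hw h j
  refine (sum_le_sum h1).trans ?_
  rw [sum_const, card_range, nsmul_eq_mul]
  apply mul_le_mul_of_nonneg_right _ (by positivity)
  push_cast
  have : (1 : ℝ) ≤ 2 ^ j := one_le_pow₀ (by norm_num)
  rw [pow_succ]
  linarith

lemma two_pow_rpow (j : ℕ) (a : ℝ) : ((2 : ℝ) ^ j) ^ a = (2 : ℝ) ^ ((j : ℝ) * a) := by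
  rw [← Real.rpow_natCast, ← Real.rpow_mul (by norm_num)]

/-! ### the corner `(1, …, 1; 1/2)` -/

lemma fund1 : IsFund 1 := Or.inl ⟨by norm_num, squarefree_one⟩

lemma not_fund0 : ¬ IsFund 0 := by
  rintro (⟨h, _⟩ | ⟨m, h, h1, _⟩)
  · norm_num at h
  · have : m = 0 := by omega
    subst this
    exact not_squarefree_zero h1

lemma kr_one_left (n : ℕ) : kr 1 n = 1 := by
  unfold kr
  rw [if_pos odd_one]
  exact jacobiSym.one_right _

lemma SB_eq {k : ℕ} (M : ℕ) (s : Fin k → ℂ) (hs : ∀ i, 1 < (s i).re) (w : ℂ) (j : ℕ) :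
    SB M s w (2 ^ j) = AB M s w j + PH (1 / 2 ^ j) * ∏ i, LL 1 (s i) := by
  classical
  have h1 : SB M s w (2 ^ j) = ∑ d ∈ range (2 ^ (j + 1) + 1), if IsFund d then
      PH (d / 2 ^ j) * ((kr d M : ℤ) : ℂ) * (d : ℂ) ^ (-w) * ∏ i, LL d (s i) else 0 := by
    unfold SB
    apply tsum_eq_sum
    intro d hd
    rw [PH_range hd]
    simp
  rw [h1, AB_fin]
  have h2 : 1 ∈ range (2 ^ (j + 1) + 1) := by
    rw [mem_range]
    have := Nat.pos_of_ne_zero (pow_ne_zero (j + 1) (by norm_num : (2 : ℕ) ≠ 0))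
    omega
  rw [← add_sum_erase _ _ h2, ← add_sum_erase (range (2 ^ (j + 1) + 1)) (fun d => PH (d / 2 ^ j) *
    gd M s w d) h2]
  have h3 : gd M s w 1 = 0 := by
    unfold gd
    rw [if_neg (by omega)]
  rw [if_pos fund1, h3, mul_zero, zero_add, kr_one_left, add_comm]
  congr 1
  · refine sum_congr rfl fun d hd => ?_
    rw [mem_erase] at hd
    unfold gd
    by_cases h4 : IsFund d
    · have h5 : d ≠ 0 := by
        rintro rfl
        exact not_fund0 h4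
      have h6 : 1 < d := by
        have := hd.1
        omega
      rw [if_pos h4, if_pos ⟨h4, h6⟩]
      have h7 : ∏ i, Ld d (s i) = ∏ i, LL d (s i) := prod_congr rfl fun i _ => Ld_eq d (hs i)
      rw [h7]
      ring
    · rw [if_neg h4, if_neg (by tauto), mul_zero]
  · simp

theorem corner_one (k M : ℕ) (hM : 1 ≤ M) : Good (EE (k := k) M) (fun _ => 1, 1 / 2) := by
  intro ε B hε
  obtain ⟨ε', hε'⟩ : ∃ ε', ε' = min ε 1 := ⟨_, rfl⟩
  have he0 : 0 < ε' := by rw [hε']; exact lt_min hε one_pos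
  have he1 : ε' ≤ 1 := by rw [hε']; exact min_le_right _ _
  have he2 : ε' ≤ ε := by rw [hε']; exact min_le_left _ _
  obtain ⟨C, A, hC, h⟩ := SB_bound k ε' B he0 he1 M hM
  obtain ⟨Z, hZ⟩ : ∃ Z, Z = ∑' n : ℕ, (n : ℝ) ^ (-(1 + ε')) := ⟨_, rfl⟩
  have hZ0 : 0 ≤ Z := by rw [hZ]; exact tsum_nonneg fun _ => by positivity
  refine ⟨C + Z ^ k * 2 ^ |B|, A, by positivity, ?_⟩
  intro j s w hs _ hw
  have hs1 : ∀ i, 1 + ε ≤ (s i).re := hs
  have hs2 : ∀ i, 1 + ε' ≤ (s i).re := fun i => by linarith [hs1 i]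
  have hs3 : ∀ i, 1 < (s i).re := fun i => by linarith [hs1 i]
  have h2j : (1 : ℝ) ≤ 2 ^ j := one_le_pow₀ (by norm_num)
  have h1 := h s w (2 ^ j) h2j hw hs2
  have h2 : EE M j s w = (SB M s w (2 ^ j) - TT M s * ZZ w (2 ^ j)) -
      PH (1 / 2 ^ j) * ∏ i, LL 1 (s i) := by
    rw [SB_eq M s hs3 w j]
    unfold EE
    ring
  obtain ⟨S, hS⟩ : ∃ S, S = 1 + ‖s‖ + ‖w‖ := ⟨_, rfl⟩
  have hS1 : 1 ≤ S := by rw [hS]; linarith [norm_nonneg s, norm_nonneg w]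
  have hwS : 1 + ‖w‖ ≤ S := by rw [hS]; linarith [norm_nonneg s]
  have h3 : ((2 : ℝ) ^ j) ^ (1 / 2 + ε' - w.re) ≤ (2 : ℝ) ^ ((j : ℝ) * (1 / 2 + ε - w.re)) := by
    rw [two_pow_rpow]
    apply Real.rpow_le_rpow_of_exponent_le (by norm_num)
    apply mul_le_mul_of_nonneg_left _ (Nat.cast_nonneg j)
    linarith
  have h4 : ‖PH (1 / 2 ^ j) * ∏ i, LL 1 (s i)‖ ≤
      Z ^ k * 2 ^ |B| * (2 : ℝ) ^ ((j : ℝ) * (1 / 2 + ε - w.re)) := by
    have h5 : ‖∏ i, LL 1 (s i)‖ ≤ Z ^ k := by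
      rw [norm_prod]
      calc _ ≤ ∏ _i : Fin k, Z := prod_le_prod (fun _ _ => norm_nonneg _) (fun i _ => by
            rw [hZ]
            exact LL_norm 1 (by linarith) (hs2 i))
        _ = Z ^ k := by simp
    by_cases hj : j ≤ 1
    · have h6 : (1 : ℝ) ≤ 2 ^ |B| * (2 : ℝ) ^ ((j : ℝ) * (1 / 2 + ε - w.re)) := by
        rw [← Real.rpow_add (by norm_num)]
        apply Real.one_le_rpow (by norm_num)
        have h7 : (j : ℝ) ≤ 1 := by exact_mod_cast hj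
        have h8 : (0 : ℝ) ≤ j := Nat.cast_nonneg j
        have h9 := le_abs_self w.re
        have h10 := le_abs_self B
        have h11 := abs_nonneg w.re
        nlinarith
      rw [norm_mul]
      calc _ ≤ 1 * Z ^ k := mul_le_mul (PH_le _) h5 (norm_nonneg _) one_pos.le
        _ = Z ^ k * 1 := by ring
        _ ≤ Z ^ k * (2 ^ |B| * (2 : ℝ) ^ ((j : ℝ) * (1 / 2 + ε - w.re))) :=
            mul_le_mul_of_nonneg_left h6 (by positivity)
        _ = _ := by ring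
    · have h6 : PH (1 / 2 ^ j) = 0 := by
        apply PH_SS.zero
        left
        rw [div_lt_iff₀ (by positivity)]
        have : (2 : ℝ) ^ 2 ≤ 2 ^ j := pow_le_pow_right₀ (by norm_num) (by omega)
        linarith
      rw [h6, zero_mul, norm_zero]
      positivity
  rw [h2]
  show _ ≤ (C + Z ^ k * 2 ^ |B|) * (1 + ‖s‖ + ‖w‖) ^ A * (2 : ℝ) ^ ((j : ℝ) * (1 / 2 + ε - w.re))
  rw [← hS]
  have hSA : 1 ≤ S ^ A := one_le_pow₀ hS1
  calc _ ≤ C * (1 + ‖w‖) ^ A * ((2 : ℝ) ^ j) ^ (1 / 2 + ε' - w.re) +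
        Z ^ k * 2 ^ |B| * (2 : ℝ) ^ ((j : ℝ) * (1 / 2 + ε - w.re)) :=
        (norm_sub_le _ _).trans (add_le_add h1 h4)
    _ ≤ C * S ^ A * (2 : ℝ) ^ ((j : ℝ) * (1 / 2 + ε - w.re)) +
        Z ^ k * 2 ^ |B| * (2 : ℝ) ^ ((j : ℝ) * (1 / 2 + ε - w.re)) * S ^ A := by
        apply add_le_add
        · gcongr
        · exact le_mul_of_one_le_right (by positivity) hSA
    _ = _ := by ring

/-! ### the corners `(c_Q; 1)` -/

lemma amgm {ι : Type*} (Q : Finset ι) (x : ι → ℝ) (hx : ∀ i, 0 ≤ x i) (Y : ℝ) (hY : 1 ≤ Y)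
    (hxY : ∀ i ∈ Q, x i ≤ Y) :
    ∏ i ∈ Q, x i ≤ (1 + ∑ i ∈ Q, x i ^ 4) * Y ^ (Q.card - 4) := by
  have hY1 : 1 ≤ Y ^ (Q.card - 4) := one_le_pow₀ hY
  rcases Q.eq_empty_or_nonempty with h | h
  · rw [h]
    simp
  · obtain ⟨m, hm, hmax⟩ := Q.exists_max_image x h
    have h0 := hx m
    have h1 : ∏ i ∈ Q, x i ≤ x m ^ Q.card := by
      calc _ ≤ ∏ _i ∈ Q, x m := prod_le_prod (fun i _ => hx i) hmax
        _ = _ := by rw [prod_const]
    have h2 : x m ^ 4 ≤ ∑ i ∈ Q, x i ^ 4 :=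
      single_le_sum (f := fun i => x i ^ 4) (fun i _ => by
        have := hx i
        positivity) hm
    have h4 : 0 ≤ x m ^ 4 := by positivity
    have h5 : x m ^ Q.card ≤ (1 + x m ^ 4) * Y ^ (Q.card - 4) := by
      rcases le_total Q.card 4 with hQ | hQ
      · have h6 : x m ^ Q.card ≤ 1 + x m ^ 4 := by
          rcases le_total (x m) 1 with h3 | h3
          · have : x m ^ Q.card ≤ 1 := pow_le_one₀ (hx m) h3
            linarith
          · have : x m ^ Q.card ≤ x m ^ 4 := pow_le_pow_right₀ h3 hQ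
            linarith
        exact h6.trans (le_mul_of_one_le_right (by positivity) hY1)
      · have h6 : x m ^ Q.card = x m ^ 4 * x m ^ (Q.card - 4) := by
          rw [← pow_add]
          congr 1
          omega
        rw [h6]
        apply mul_le_mul (by linarith) _ (by positivity) (by positivity)
        exact pow_le_pow_left₀ h0 (hxY m hm) _
    refine h1.trans (h5.trans ?_)
    apply mul_le_mul_of_nonneg_right (by linarith) (by positivity)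

/-- height of the corner -/
lemma height (n : ℕ) : max 1 ((n : ℝ) / 4) = 1 + ((n - 4 : ℕ) : ℝ) / 4 := by
  rcases le_total n 4 with h | h
  · rw [Nat.sub_eq_zero_of_le h]
    have : (n : ℝ) ≤ 4 := by exact_mod_cast h
    rw [max_eq_left (by linarith)]
    simp
  · have h1 : (4 : ℝ) ≤ n := by exact_mod_cast h
    rw [Nat.cast_sub h, max_eq_right (by linarith)]
    push_cast
    ring

open Classical in
theorem corner_Q (k M : ℕ) (hM : 1 ≤ M) (Q : Finset (Fin k)) :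
    Good (EE (k := k) M) (fun i => if i ∈ Q then 1 / 2 else 1, max 1 ((Q.card : ℝ) / 4)) := by
  rw [height]
  intro ε₀ B hε₀
  obtain ⟨m, hm⟩ : ∃ m, m = Q.card - 4 := ⟨_, rfl⟩
  rw [← hm]
  obtain ⟨α, hα⟩ : ∃ α : ℝ, α = 1 + (m : ℝ) / 4 := ⟨_, rfl⟩
  have hα1 : 1 ≤ α := by
    rw [hα]
    have : (0 : ℝ) ≤ (m : ℝ) / 4 := by positivity
    linarith
  rw [← hα]
  obtain ⟨ε, hεd⟩ : ∃ ε, ε = ε₀ / α := ⟨_, rfl⟩
  have hε : 0 < ε := by rw [hεd]; positivity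
  have hε2 : ε ≤ ε₀ := by rw [hεd]; exact div_le_self hε₀.le hα1
  have hεα : (1 + ε) * α = α + ε₀ := by
    rw [hεd]
    field_simp
  obtain ⟨C, A, hC, h⟩ := mom_fund ε B hε
  obtain ⟨CT, hCT, hT⟩ := TT_bound k ε hε M hM
  obtain ⟨Z, hZ⟩ : ∃ Z, Z = max 1 (∑' n : ℕ, (n : ℝ) ^ (-(1 + ε))) := ⟨_, rfl⟩
  have hZ1 : 1 ≤ Z := by rw [hZ]; exact le_max_left _ _
  refine ⟨2 ^ B * Z ^ k * (4 * (1 + C)) ^ m * (2 ^ (α + ε₀) * (1 + 256 * k * C)) + CT * (4 * 2 ^ B),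
    A + A * m, by positivity, ?_⟩
  intro j s w hs hsB hw
  have hs1 : ∀ i, (if i ∈ Q then (1 / 2 : ℝ) else 1) + ε₀ ≤ (s i).re := hs
  have hs2 : ∀ i, 1 / 2 + ε ≤ (s i).re := by
    intro i
    have := hs1 i
    split_ifs at this <;> linarith
  have hs3 : ∀ i, i ∉ Q → 1 + ε ≤ (s i).re := by
    intro i hi
    have := hs1 i
    rw [if_neg hi] at this
    linarith
  obtain ⟨S, hS⟩ : ∃ S, S = 1 + ‖s‖ + ‖w‖ := ⟨_, rfl⟩
  have hS1 : 1 ≤ S := by rw [hS]; linarith [norm_nonneg s, norm_nonneg w]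
  have hSA : 1 ≤ S ^ A := one_le_pow₀ hS1
  obtain ⟨X, hX⟩ : ∃ X : ℕ, X = 2 ^ (j + 1) := ⟨_, rfl⟩
  have hX1 : 1 ≤ X := by rw [hX]; exact Nat.one_le_two_pow
  have hXr : (1 : ℝ) ≤ X := by exact_mod_cast hX1
  have hX0 : (0 : ℝ) < X := by linarith
  obtain ⟨W, hW⟩ : ∃ W : ℝ, W = 2 ^ B * ((2 : ℝ) ^ j) ^ (-w.re) := ⟨_, rfl⟩
  have hW0 : 0 < W := by rw [hW]; positivity
  obtain ⟨Y, hY⟩ : ∃ Y : ℝ, Y = 4 * (1 + C) * S ^ A * (X : ℝ) ^ ((1 + ε) / 4) := ⟨_, rfl⟩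
  have hXY : 1 ≤ (X : ℝ) ^ ((1 + ε) / 4) := Real.one_le_rpow hXr (by positivity)
  have hY1 : 1 ≤ Y := by
    rw [hY]
    have h1 : 1 ≤ 4 * (1 + C) := by linarith
    exact one_le_mul_of_one_le_of_one_le (one_le_mul_of_one_le_of_one_le h1 hSA) hXY
  have hmi : ∀ i, ∑ d ∈ (Icc 2 X).filter IsFund, ‖Lo d (s i)‖ ^ 4 ≤
      C * S ^ A * (X : ℝ) ^ (1 + ε) := by
    intro i
    refine (h X (s i) hX1 (hs2 i) (hsB i)).trans ?_
    have e8 : 1 + ‖s i‖ ≤ S := by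
      rw [hS]
      linarith [norm_le_pi_norm s i, norm_nonneg w]
    gcongr
  have hLY : ∀ d ∈ (Icc 2 X).filter IsFund, ∀ i, ‖Ld d (s i)‖ ≤ Y := by
    intro d hd i
    have e1 : ‖Lo d (s i)‖ ^ 4 ≤ C * S ^ A * (X : ℝ) ^ (1 + ε) :=
      (single_le_sum (f := fun d => ‖Lo d (s i)‖ ^ 4) (fun d _ => by positivity) hd).trans (hmi i)
    have e2 : ‖Lo d (s i)‖ ≤ (1 + C) * S ^ A * (X : ℝ) ^ ((1 + ε) / 4) := by
      refine (pow_le_pow_iff_left₀ (norm_nonneg _) (by positivity) (n := 4) (by norm_num)).1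
        (e1.trans ?_)
      have e3 : ((X : ℝ) ^ ((1 + ε) / 4)) ^ 4 = (X : ℝ) ^ (1 + ε) := by
        rw [← Real.rpow_natCast _ 4, ← Real.rpow_mul hX0.le]
        congr 1
        push_cast
        ring
      rw [mul_pow, mul_pow, e3]
      have e4 : C ≤ (1 + C) ^ 4 := by
        calc C ≤ (1 + C) ^ 1 := by linarith
          _ ≤ (1 + C) ^ 4 := pow_le_pow_right₀ (by linarith) (by norm_num)
      have e5 : S ^ A ≤ (S ^ A) ^ 4 := by
        calc S ^ A = (S ^ A) ^ 1 := (pow_one _).symm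
          _ ≤ _ := pow_le_pow_right₀ hSA (by norm_num)
      gcongr
    calc _ ≤ 4 * ‖Lo d (s i)‖ := Ld_norm d (by linarith [hs2 i])
      _ ≤ 4 * ((1 + C) * S ^ A * (X : ℝ) ^ ((1 + ε) / 4)) := by linarith
      _ = Y := by rw [hY]; ring
  -- each discriminant
  have hd : ∀ d ∈ (Icc 2 X).filter IsFund, ‖∏ i, Ld d (s i)‖ ≤
      Z ^ k * Y ^ m * (1 + 256 * ∑ i ∈ Q, ‖Lo d (s i)‖ ^ 4) := by
    intro d hdm
    rw [norm_prod, ← prod_mul_prod_compl Q]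
    have e1 : ∏ i ∈ Q, ‖Ld d (s i)‖ ≤ (1 + 256 * ∑ i ∈ Q, ‖Lo d (s i)‖ ^ 4) * Y ^ m := by
      have e0 := amgm Q (fun i => ‖Ld d (s i)‖) (fun _ => norm_nonneg _) Y hY1
        (fun i _ => hLY d hdm i)
      rw [← hm] at e0
      refine e0.trans ?_
      apply mul_le_mul_of_nonneg_right _ (by positivity)
      rw [mul_sum]
      apply add_le_add le_rfl
      refine sum_le_sum fun i _ => ?_
      calc _ ≤ (4 * ‖Lo d (s i)‖) ^ 4 :=
            pow_le_pow_left₀ (norm_nonneg _) (Ld_norm d (by linarith [hs2 i])) 4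
        _ = _ := by ring
    have e2 : ∏ i ∈ Qᶜ, ‖Ld d (s i)‖ ≤ Z ^ k := by
      calc _ ≤ ∏ _i ∈ Qᶜ, Z := prod_le_prod (fun _ _ => norm_nonneg _) (fun i hi => by
            rw [mem_compl] at hi
            rw [Ld_eq d (by linarith [hs3 i hi]), hZ]
            exact (LL_norm d (by linarith) (hs3 i hi)).trans (le_max_right _ _))
        _ = Z ^ (Qᶜ).card := by rw [prod_const]
        _ ≤ Z ^ k := pow_le_pow_right₀ hZ1 (by
            have := card_le_univ (Qᶜ)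
            rwa [Fintype.card_fin] at this)
    calc _ ≤ ((1 + 256 * ∑ i ∈ Q, ‖Lo d (s i)‖ ^ 4) * Y ^ m) * Z ^ k :=
          mul_le_mul e1 e2 (prod_nonneg fun _ _ => norm_nonneg _) (by positivity)
      _ = _ := by ring
  have hAB : ‖AB M s w j‖ ≤ W * (Z ^ k * Y ^ m * ((X : ℝ) ^ (1 + ε) * (1 + 256 * k * C) * S ^ A)) := by
    rw [AB_fin, ← hX]
    refine (norm_sum_le _ _).trans ?_
    have e1 : ∑ d ∈ range (X + 1), ‖PH (d / 2 ^ j) * gd M s w d‖ ≤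
        ∑ d ∈ (Icc 2 X).filter IsFund, W * (Z ^ k * Y ^ m *
          (1 + 256 * ∑ i ∈ Q, ‖Lo d (s i)‖ ^ 4)) := by
      have e2 : ∑ d ∈ (Icc 2 X).filter IsFund, ‖PH (d / 2 ^ j) * gd M s w d‖ =
          ∑ d ∈ range (X + 1), ‖PH (d / 2 ^ j) * gd M s w d‖ := by
        apply sum_subset
        · intro d hd
          rw [mem_filter, mem_Icc] at hd
          rw [mem_range]
          omega
        · intro d hd1 hd2
          unfold gd
          rw [if_neg, mul_zero, norm_zero]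
          rintro ⟨h5, h6⟩
          apply hd2
          rw [mem_filter, mem_Icc]
          rw [mem_range] at hd1
          exact ⟨⟨h6, by omega⟩, h5⟩
      rw [← e2]
      refine sum_le_sum fun d hdm => ?_
      have hd' := hdm
      rw [mem_filter, mem_Icc] at hd'
      have h7 : IsFund d ∧ 1 < d := ⟨hd'.2, by omega⟩
      unfold gd
      rw [if_pos h7]
      have e3 : PH (d / 2 ^ j) * (((kr d M : ℤ) : ℂ) * (d : ℂ) ^ (-w) * ∏ i, Ld d (s i)) =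
          ((kr d M : ℤ) : ℂ) * (PH (d / 2 ^ j) * (d : ℂ) ^ (-w)) * ∏ i, Ld d (s i) := by ring
      rw [e3, norm_mul, norm_mul]
      apply mul_le_mul _ (hd d hdm) (norm_nonneg _) hW0.le
      calc _ ≤ 1 * W := mul_le_mul (kr_norm d M) (by rw [hW]; exact wt hw (by omega) j)
            (norm_nonneg _) one_pos.le
        _ = W := one_mul _
    refine e1.trans ?_
    rw [← mul_sum, ← mul_sum, sum_add_distrib, ← mul_sum, sum_comm]
    apply mul_le_mul_of_nonneg_left _ hW0.le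
    apply mul_le_mul_of_nonneg_left _ (by positivity)
    have e4 : ∑ d ∈ (Icc 2 X).filter IsFund, (1 : ℝ) ≤ (X : ℝ) ^ (1 + ε) := by
      rw [sum_const, nsmul_eq_mul, mul_one]
      have e5 : ((Icc 2 X).filter IsFund).card ≤ X := by
        refine (card_filter_le _ _).trans ?_
        rw [Nat.card_Icc]
        omega
      calc (((Icc 2 X).filter IsFund).card : ℝ) ≤ X := by exact_mod_cast e5
        _ = (X : ℝ) ^ (1 : ℝ) := (Real.rpow_one _).symm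
        _ ≤ _ := Real.rpow_le_rpow_of_exponent_le hXr (by linarith)
    have e6 : ∑ i ∈ Q, ∑ d ∈ (Icc 2 X).filter IsFund, ‖Lo d (s i)‖ ^ 4 ≤
        k * (C * S ^ A * (X : ℝ) ^ (1 + ε)) := by
      refine (sum_le_sum fun i _ => hmi i).trans ?_
      rw [sum_const, nsmul_eq_mul]
      apply mul_le_mul_of_nonneg_right _ (by positivity)
      have := card_le_univ Q
      rw [Fintype.card_fin] at this
      exact_mod_cast this
    have hXp : 0 < (X : ℝ) ^ (1 + ε) := by positivity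
    have e9 : (X : ℝ) ^ (1 + ε) ≤ (X : ℝ) ^ (1 + ε) * S ^ A :=
      le_mul_of_one_le_right hXp.le hSA
    calc _ ≤ (X : ℝ) ^ (1 + ε) + 256 * (k * (C * S ^ A * (X : ℝ) ^ (1 + ε))) := by linarith
      _ ≤ (X : ℝ) ^ (1 + ε) * S ^ A + 256 * (k * (C * S ^ A * (X : ℝ) ^ (1 + ε))) := by linarith
      _ = _ := by ring
  have hTZ : ‖TT M s * ZZ w (2 ^ j)‖ ≤ CT * (4 * 2 ^ j * W) := by
    rw [norm_mul, hW]
    exact mul_le_mul (hT s hs2) (ZZ_norm hw j) (norm_nonneg _) hCT.le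
  have hYm : Y ^ m * (X : ℝ) ^ (1 + ε) = (4 * (1 + C)) ^ m * S ^ (A * m) * (X : ℝ) ^ (α + ε₀) := by
    rw [hY, mul_pow, mul_pow, ← pow_mul, ← Real.rpow_natCast ((X : ℝ) ^ ((1 + ε) / 4)) m,
      ← Real.rpow_mul hX0.le, mul_assoc, ← Real.rpow_add hX0]
    congr 2
    rw [← hεα, hα]
    ring
  have p1 : W * (X : ℝ) ^ (α + ε₀) = 2 ^ B * 2 ^ (α + ε₀) * (2 : ℝ) ^ ((j : ℝ) * (α + ε₀ - w.re)) := by
    rw [hW, hX]
    push_cast
    rw [pow_succ, Real.mul_rpow (by positivity) (by norm_num), two_pow_rpow, two_pow_rpow]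
    have : (2 : ℝ) ^ ((j : ℝ) * (α + ε₀ - w.re)) =
        (2 : ℝ) ^ ((j : ℝ) * -w.re) * (2 : ℝ) ^ ((j : ℝ) * (α + ε₀)) := by
      rw [← Real.rpow_add (by norm_num)]
      congr 1
      ring
    rw [this]
    ring
  have p2 : 2 ^ j * W ≤ 2 ^ B * (2 : ℝ) ^ ((j : ℝ) * (α + ε₀ - w.re)) := by
    rw [hW, two_pow_rpow]
    have : (2 : ℝ) ^ j * (2 ^ B * (2 : ℝ) ^ ((j : ℝ) * -w.re)) =
        2 ^ B * (2 : ℝ) ^ ((j : ℝ) * (1 - w.re)) := by
      rw [← Real.rpow_natCast 2 j]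
      have : (2 : ℝ) ^ ((j : ℝ) * (1 - w.re)) = (2 : ℝ) ^ (j : ℝ) * (2 : ℝ) ^ ((j : ℝ) * -w.re) := by
        rw [← Real.rpow_add (by norm_num)]
        congr 1
        ring
      rw [this]
      ring
    rw [this]
    apply mul_le_mul_of_nonneg_left _ (by positivity)
    apply Real.rpow_le_rpow_of_exponent_le (by norm_num)
    apply mul_le_mul_of_nonneg_left _ (Nat.cast_nonneg j)
    linarith
  unfold EE
  show _ ≤ _ * (1 + ‖s‖ + ‖w‖) ^ (A + A * m) * (2 : ℝ) ^ ((j : ℝ) * (α + ε₀ - w.re))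
  rw [← hS]
  obtain ⟨P, hP⟩ : ∃ P, P = (2 : ℝ) ^ ((j : ℝ) * (α + ε₀ - w.re)) := ⟨_, rfl⟩
  rw [← hP] at p1 p2 ⊢
  have hP0 : 0 < P := by rw [hP]; positivity
  have hSAm : 1 ≤ S ^ (A + A * m) := one_le_pow₀ hS1
  calc _ ≤ W * (Z ^ k * Y ^ m * ((X : ℝ) ^ (1 + ε) * (1 + 256 * k * C) * S ^ A)) +
        CT * (4 * 2 ^ j * W) := (norm_sub_le _ _).trans (add_le_add hAB hTZ)
    _ = W * (Z ^ k * (Y ^ m * (X : ℝ) ^ (1 + ε)) * ((1 + 256 * k * C) * S ^ A)) +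
        CT * 4 * (2 ^ j * W) := by ring
    _ = (W * (X : ℝ) ^ (α + ε₀)) * (Z ^ k * (4 * (1 + C)) ^ m * (1 + 256 * k * C) * S ^ (A + A * m)) +
        CT * 4 * (2 ^ j * W) := by
        rw [hYm, pow_add]
        ring
    _ ≤ (2 ^ B * 2 ^ (α + ε₀) * P) * (Z ^ k * (4 * (1 + C)) ^ m * (1 + 256 * k * C) *
        S ^ (A + A * m)) + CT * 4 * (2 ^ B * P) := by
        rw [p1]
        gcongr
    _ ≤ (2 ^ B * 2 ^ (α + ε₀) * P) * (Z ^ k * (4 * (1 + C)) ^ m * (1 + 256 * k * C) *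
        S ^ (A + A * m)) + CT * 4 * (2 ^ B * P) * S ^ (A + A * m) := by
        apply add_le_add le_rfl
        exact le_mul_of_one_le_right (by positivity) hSAm
    _ = _ := by ring

/-! ### crude bound -/

theorem EE_crude (k M : ℕ) (hM : 1 ≤ M) (j : ℕ) (w : ℂ) (ε B : ℝ) (hε : 0 < ε) :
    ∃ (C : ℝ) (A : ℕ), 0 < C ∧ ∀ s : Fin k → ℂ,
      (∀ i, 1 / 2 + ε ≤ (s i).re) → (∀ i, (s i).re ≤ B) → ‖EE M j s w‖ ≤ C * (1 + ‖s‖) ^ A := by
  classical
  obtain ⟨C, A, hC, h⟩ := mom_fund ε B hε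
  obtain ⟨CT, hCT, hT⟩ := TT_bound k ε hε M hM
  obtain ⟨X, hX⟩ : ∃ X : ℕ, X = 2 ^ (j + 1) := ⟨_, rfl⟩
  have hX1 : 1 ≤ X := by rw [hX]; exact Nat.one_le_two_pow
  obtain ⟨K, hK⟩ : ∃ K : ℝ, K = 4 * (1 + C * (X : ℝ) ^ (1 + ε)) := ⟨_, rfl⟩
  have hK0 : 0 < K := by rw [hK]; positivity
  obtain ⟨W, hW⟩ : ∃ W : ℝ, W = ∑ d ∈ range (X + 1), ‖PH (d / 2 ^ j) * (d : ℂ) ^ (-w)‖ := ⟨_, rfl⟩
  have hW0 : 0 ≤ W := by rw [hW]; exact sum_nonneg fun _ _ => norm_nonneg _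
  refine ⟨W * K ^ k + CT * ‖ZZ w (2 ^ j)‖ + 1, A * k, by positivity, ?_⟩
  intro s hs1 hs2
  have hs0 : 1 ≤ 1 + ‖s‖ := by linarith [norm_nonneg s]
  have hSA : 1 ≤ (1 + ‖s‖) ^ A := one_le_pow₀ hs0
  have hd : ∀ d ∈ range (X + 1), IsFund d ∧ 1 < d → ‖∏ i, Ld d (s i)‖ ≤ K ^ k * (1 + ‖s‖) ^ (A * k) := by
    intro d hdX hdf
    rw [norm_prod]
    have e1 : ∀ i, ‖Ld d (s i)‖ ≤ K * (1 + ‖s‖) ^ A := by
      intro i
      have e2 := h X (s i) hX1 (hs1 i) (hs2 i)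
      have e3 : ‖Lo d (s i)‖ ^ 4 ≤ C * (1 + ‖s i‖) ^ A * (X : ℝ) ^ (1 + ε) := by
        refine le_trans ?_ e2
        apply single_le_sum (f := fun d => ‖Lo d (s i)‖ ^ 4) (fun d _ => by positivity)
        rw [mem_filter, mem_Icc]
        rw [mem_range] at hdX
        exact ⟨⟨hdf.2, by omega⟩, hdf.1⟩
      have e4 : ‖Lo d (s i)‖ ≤ 1 + ‖Lo d (s i)‖ ^ 4 := by
        rcases le_total ‖Lo d (s i)‖ 1 with h5 | h5
        · have : 0 ≤ ‖Lo d (s i)‖ ^ 4 := by positivity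
          linarith
        · have : ‖Lo d (s i)‖ ^ 1 ≤ ‖Lo d (s i)‖ ^ 4 := pow_le_pow_right₀ h5 (by norm_num)
          rw [pow_one] at this
          linarith
      have e5 : C * (1 + ‖s i‖) ^ A * (X : ℝ) ^ (1 + ε) ≤ C * (1 + ‖s‖) ^ A * (X : ℝ) ^ (1 + ε) := by
        have := norm_le_pi_norm s i
        gcongr
      calc _ ≤ 4 * ‖Lo d (s i)‖ := Ld_norm d (by linarith [hs1 i])
        _ ≤ 4 * ((1 + ‖s‖) ^ A + C * (1 + ‖s‖) ^ A * (X : ℝ) ^ (1 + ε)) := by linarith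
        _ = K * (1 + ‖s‖) ^ A := by rw [hK]; ring
    calc _ ≤ ∏ _i : Fin k, K * (1 + ‖s‖) ^ A := prod_le_prod (fun _ _ => norm_nonneg _) (fun i _ => e1 i)
      _ = (K * (1 + ‖s‖) ^ A) ^ k := by simp
      _ = _ := by rw [mul_pow, ← pow_mul]
  have hAB : ‖AB M s w j‖ ≤ W * (K ^ k * (1 + ‖s‖) ^ (A * k)) := by
    rw [AB_fin, ← hX, hW, sum_mul]
    refine (norm_sum_le _ _).trans (sum_le_sum fun d hdX => ?_)
    unfold gd
    by_cases h7 : IsFund d ∧ 1 < d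
    · rw [if_pos h7]
      have e3 : PH (d / 2 ^ j) * (((kr d M : ℤ) : ℂ) * (d : ℂ) ^ (-w) * ∏ i, Ld d (s i)) =
          ((kr d M : ℤ) : ℂ) * (PH (d / 2 ^ j) * (d : ℂ) ^ (-w)) * ∏ i, Ld d (s i) := by ring
      rw [e3, norm_mul, norm_mul]
      apply mul_le_mul _ (hd d hdX h7) (norm_nonneg _) (norm_nonneg _)
      exact mul_le_of_le_one_left (norm_nonneg _) (kr_norm d M)
    · rw [if_neg h7, mul_zero, norm_zero]
      positivity
  have hTZ : ‖TT M s * ZZ w (2 ^ j)‖ ≤ CT * ‖ZZ w (2 ^ j)‖ := by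
    rw [norm_mul]
    exact mul_le_mul_of_nonneg_right (hT s hs1) (norm_nonneg _)
  have hSk : 1 ≤ (1 + ‖s‖) ^ (A * k) := one_le_pow₀ hs0
  unfold EE
  calc _ ≤ W * (K ^ k * (1 + ‖s‖) ^ (A * k)) + CT * ‖ZZ w (2 ^ j)‖ :=
        (norm_sub_le _ _).trans (add_le_add hAB hTZ)
    _ ≤ W * (K ^ k * (1 + ‖s‖) ^ (A * k)) + CT * ‖ZZ w (2 ^ j)‖ * (1 + ‖s‖) ^ (A * k) +
        (1 + ‖s‖) ^ (A * k) := by
        have : CT * ‖ZZ w (2 ^ j)‖ ≤ CT * ‖ZZ w (2 ^ j)‖ * (1 + ‖s‖) ^ (A * k) :=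
          le_mul_of_one_le_right (by positivity) hSk
        linarith
    _ = _ := by ring

/-- the set of good points is convex -/
theorem EE_convex (k M : ℕ) (hM : 1 ≤ M) :
    Convex ℝ {p : (Fin k → ℝ) × ℝ | (∀ i, 1 / 2 ≤ p.1 i) ∧ Good (EE (k := k) M) p} :=
  good_convex (EE M) (fun j w => EE_diff_s k M hM j w)
    (fun j w ε B hε => EE_crude k M hM j w ε B hε)

end Pool.Agent.W5h65.MD
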