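import Pool.Agent.W5h65.MD.C4
import Pool.Agent.H448R2.GC.X2

set_option autoImplicit false

/-! The continuation. -/

namespace Pool.Agent.W5h65.MD

open Finset Filter Topology MeasureTheory Pool.Agent.H306R2.RZ Pool.Agent.H143R3.FM

/-- real part of a point -/
def rez {k : ℕ} (z : (Fin k → ℂ) × ℂ) : (Fin k → ℝ) × ℝ := (fun i => (z.1 i).re, z.2.re)

/-- imaginary part of a point -/
def imz {k : ℕ} (z : (Fin k → ℂ) × ℂ) : (Fin k → ℝ) × ℝ := (fun i => (z.1 i).im, z.2.im)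

/-- the corners -/
def Corners (k : ℕ) : Set ((Fin k → ℝ) × ℝ) :=
  {p | p = (fun _ => 1, 1 / 2) ∨ ∃ Q : Finset (Fin k),
    p = (fun i => if i ∈ Q then 1 / 2 else 1, max 1 ((Q.card : ℝ) / 4))}

/-- points strictly above the convex hull of the corners -/
def Om (k : ℕ) : Set ((Fin k → ℝ) × ℝ) :=
  {p | ∃ q ∈ convexHull ℝ (Corners k), (∀ i, q.1 i < p.1 i) ∧ q.2 < p.2}

theorem hull_good (k M : ℕ) (hM : 1 ≤ M) : ∀ q ∈ convexHull ℝ (Corners k),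
    ((∀ i, 1 / 2 ≤ q.1 i) ∧ Good (EE (k := k) M) q) ∧ 1 / 2 ≤ q.2 := by
  have h1 : Convex ℝ ({p : (Fin k → ℝ) × ℝ | (∀ i, 1 / 2 ≤ p.1 i) ∧ Good (EE (k := k) M) p} ∩
      {p : (Fin k → ℝ) × ℝ | 1 / 2 ≤ p.2}) := by
    apply (EE_convex k M hM).inter
    rintro p hp q hq a b ha hb hab
    have hp' : 1 / 2 ≤ p.2 := hp
    have hq' : 1 / 2 ≤ q.2 := hq
    show 1 / 2 ≤ (a • p + b • q).2
    simp only [Prod.snd_add, Prod.smul_snd, smul_eq_mul]
    nlinarith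
  have h2 : Corners k ⊆ ({p : (Fin k → ℝ) × ℝ | (∀ i, 1 / 2 ≤ p.1 i) ∧ Good (EE (k := k) M) p} ∩
      {p : (Fin k → ℝ) × ℝ | 1 / 2 ≤ p.2}) := by
    rintro p (rfl | ⟨Q, rfl⟩)
    · refine ⟨⟨fun i => by norm_num, corner_one k M hM⟩, ?_⟩
      show (1 / 2 : ℝ) ≤ 1 / 2
      exact le_rfl
    · refine ⟨⟨fun i => ?_, corner_Q k M hM Q⟩, ?_⟩
      · show (1 / 2 : ℝ) ≤ if i ∈ Q then 1 / 2 else 1
        split_ifs <;> norm_num
      · show (1 / 2 : ℝ) ≤ max 1 ((Q.card : ℝ) / 4)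
        exact le_trans (by norm_num) (le_max_left _ _)
  intro q hq
  exact convexHull_min h2 h1 hq

/-- a neighbourhood with uniform bounds -/
theorem loc (k M : ℕ) (hM : 1 ≤ M) (p : (Fin k → ℝ) × ℝ) (hp : p ∈ Om k) :
    ∃ U : Set ((Fin k → ℝ) × ℝ), IsOpen U ∧ p ∈ U ∧ U ⊆ Om k ∧
    (∀ p' ∈ U, (∀ i, 1 / 2 < p'.1 i) ∧ 1 / 2 < p'.2) ∧
    ∃ (R C : ℝ) (A : ℕ) (r : ℝ), 0 < C ∧ 0 < r ∧ r < 1 ∧ 0 < R ∧ ∀ z : (Fin k → ℂ) × ℂ, rez z ∈ U →
      ‖rez z‖ ≤ R ∧ ‖TT M z.1‖ ≤ C ∧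
      ∀ j, ‖EE M j z.1 z.2‖ ≤ C * (1 + ‖z.1‖ + ‖z.2‖) ^ A * r ^ j := by
  obtain ⟨q, hq, hq1, hq2⟩ := hp
  obtain ⟨⟨hg1, hg2⟩, hg3⟩ := hull_good k M hM q hq
  obtain ⟨δ, hδ, hδ1, hδ2⟩ : ∃ δ > 0, (∀ i, q.1 i + δ < p.1 i) ∧ q.2 + 2 * δ < p.2 := by
    have h1 : ∀ᶠ δ : ℝ in 𝓝[>] 0, (∀ i, q.1 i + δ < p.1 i) ∧ q.2 + 2 * δ < p.2 := by
      apply Filter.Eventually.and
      · rw [eventually_all]
        intro i
        have : ∀ᶠ ε : ℝ in 𝓝[>] 0, ε < p.1 i - q.1 i :=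
          (eventually_lt_nhds (by linarith [hq1 i])).filter_mono nhdsWithin_le_nhds
        filter_upwards [this] with ε hε
        linarith
      · have : ∀ᶠ ε : ℝ in 𝓝[>] 0, ε < (p.2 - q.2) / 2 :=
          (eventually_lt_nhds (by linarith)).filter_mono nhdsWithin_le_nhds
        filter_upwards [this] with ε hε
        linarith
    obtain ⟨δ, h2, h3⟩ := (h1.and self_mem_nhdsWithin).exists
    exact ⟨δ, h3, h2⟩
  obtain ⟨B, hB⟩ : ∃ B, B = ‖p‖ + 1 := ⟨_, rfl⟩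
  have hB0 : 0 < B := by rw [hB]; positivity
  have hpB1 : ∀ i, p.1 i < B := by
    intro i
    have h1 := (le_abs_self (p.1 i)).trans ((norm_le_pi_norm p.1 i).trans (norm_fst_le p))
    rw [hB]
    linarith
  have hpB2 : p.2 < B := by
    have h1 := (le_abs_self p.2).trans (norm_snd_le p)
    rw [hB]
    linarith
  obtain ⟨C, A, hC, h⟩ := hg2 δ B hδ
  obtain ⟨CT, hCT, hT⟩ := TT_bound k δ hδ M hM
  refine ⟨{p' | (∀ i, q.1 i + δ < p'.1 i ∧ p'.1 i < B) ∧ q.2 + 2 * δ < p'.2 ∧ p'.2 < B},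
    ?_, ⟨fun i => ⟨hδ1 i, hpB1 i⟩, hδ2, hpB2⟩, ?_, ?_, B, C + CT, A, 2 ^ (-δ), by positivity,
    by positivity, Real.rpow_lt_one_of_one_lt_of_neg (by norm_num) (by linarith), hB0, ?_⟩
  · have e : {p' : (Fin k → ℝ) × ℝ | (∀ i, q.1 i + δ < p'.1 i ∧ p'.1 i < B) ∧
        q.2 + 2 * δ < p'.2 ∧ p'.2 < B} = (⋂ i, ({p' | q.1 i + δ < p'.1 i} ∩ {p' | p'.1 i < B})) ∩
        ({p' | q.2 + 2 * δ < p'.2} ∩ {p' | p'.2 < B}) := by
      ext p'
      simp
    rw [e]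
    apply IsOpen.inter
    · apply isOpen_iInter_of_finite
      intro i
      have hc : Continuous (fun p' : (Fin k → ℝ) × ℝ => p'.1 i) :=
        (continuous_apply i).comp continuous_fst
      exact (isOpen_lt continuous_const hc).inter (isOpen_lt hc continuous_const)
    · exact (isOpen_lt continuous_const continuous_snd).inter
        (isOpen_lt continuous_snd continuous_const)
  · rintro p' ⟨h1, h2, _⟩
    exact ⟨q, hq, fun i => by linarith [(h1 i).1], by linarith⟩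
  · rintro p' ⟨h1, h2, _⟩
    exact ⟨fun i => by linarith [(h1 i).1, hg1 i], by linarith⟩
  · rintro z ⟨h1, h2, h3⟩
    have h1' : ∀ i, q.1 i + δ < (z.1 i).re ∧ (z.1 i).re < B := h1
    have h2' : q.2 + 2 * δ < z.2.re := h2
    have h3' : z.2.re < B := h3
    have hw : |z.2.re| ≤ B := by
      rw [abs_of_nonneg (by linarith)]
      exact h3'.le
    refine ⟨?_, ?_, ?_⟩
    · unfold rez
      rw [Prod.norm_mk, max_le_iff]
      constructor
      · rw [pi_norm_le_iff_of_nonneg hB0.le]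
        intro i
        rw [Real.norm_eq_abs, abs_of_nonneg (by linarith [(h1' i).1, hg1 i])]
        exact (h1' i).2.le
      · rw [Real.norm_eq_abs]
        exact hw
    · have := hT z.1 (fun i => by linarith [(h1' i).1, hg1 i])
      linarith
    · intro j
      have h4 := h j z.1 z.2 (fun i => (h1' i).1.le) (fun i => (h1' i).2.le) hw
      refine h4.trans ?_
      have h5 : (2 : ℝ) ^ ((j : ℝ) * (q.2 + δ - z.2.re)) ≤ (2 ^ (-δ)) ^ j := by
        rw [← Real.rpow_natCast _ j, ← Real.rpow_mul (by norm_num)]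
        apply Real.rpow_le_rpow_of_exponent_le (by norm_num)
        rw [mul_comm (-δ)]
        apply mul_le_mul_of_nonneg_left _ (Nat.cast_nonneg j)
        linarith
      have h6 : C ≤ C + CT := by linarith
      gcongr

/-- `(w - 1) ζ(w)` -/
noncomputable def Z1 : ℂ → ℂ := Function.update (fun w : ℂ => (w - 1) * riemannZeta w) 1 1

lemma Z1_diff : Differentiable ℂ Z1 := Pool.Agent.H448R2.GC.zeta_one_entire

lemma Z1_bound {w : ℂ} (hw : 1 / 2 ≤ w.re) : ‖Z1 w‖ ≤ 4 * (1 + ‖w‖) ^ 2 := by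
  have h0 := norm_nonneg w
  unfold Z1
  by_cases h : w = 1
  · subst h
    rw [Function.update_self, norm_one]
    norm_num
  · rw [Function.update_of_ne h, norm_mul]
    have h1 := Pool.Agent.H448R2.GC.X2.zeta_bd w (by linarith) h
    have h2 : 0 < ‖w - 1‖ := norm_pos_iff.2 (sub_ne_zero.2 h)
    have h3 : ‖w - 1‖ ≤ 1 + ‖w‖ := by
      have := norm_sub_le w 1
      rw [norm_one] at this
      linarith
    have h4 : ‖w‖ / w.re ≤ 2 * ‖w‖ := by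
      rw [div_le_iff₀ (by linarith)]
      nlinarith
    calc ‖w - 1‖ * ‖riemannZeta w‖ ≤ ‖w - 1‖ * (1 + 1 / ‖w - 1‖ + ‖w‖ / w.re) :=
          mul_le_mul_of_nonneg_left h1 h2.le
      _ = ‖w - 1‖ + 1 + ‖w - 1‖ * (‖w‖ / w.re) := by field_simp
      _ ≤ (1 + ‖w‖) + 1 + (1 + ‖w‖) * (2 * ‖w‖) := by
          gcongr
      _ ≤ _ := by nlinarith

/-- `σ_J(w)` -/
noncomputable def sJ {k : ℕ} (J : Finset (Fin k)) (z : (Fin k → ℂ) × ℂ) : ℂ :=
  z.2 - (J.card : ℂ) / 2 + ∑ j ∈ J, z.1 j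

noncomputable def PJ {k : ℕ} (z : (Fin k → ℂ) × ℂ) : ℂ :=
  ∏ J ∈ (univ : Finset (Finset (Fin k))).erase ∅, (sJ J z - 1)

/-- the continuation, with a polynomial factor `P` -/
noncomputable def Fx {k : ℕ} (M : ℕ) (P : (Fin k → ℂ) × ℂ → ℂ) (z : (Fin k → ℂ) × ℂ) : ℂ :=
  ((z.2 - 1) * ∑' j, EE M j z.1 z.2 + TT M z.1 * Z1 z.2) * P z

/-- the tube -/
def tube {k : ℕ} (U : Set ((Fin k → ℝ) × ℝ)) : Set ((Fin k → ℂ) × ℂ) := {z | rez z ∈ U}

lemma rez_cont {k : ℕ} : Continuous (rez (k := k)) := by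
  unfold rez
  apply Continuous.prodMk
  · apply continuous_pi
    intro i
    exact Complex.continuous_re.comp ((continuous_apply i).comp continuous_fst)
  · exact Complex.continuous_re.comp continuous_snd

lemma sJ_diff {k : ℕ} (J : Finset (Fin k)) : Differentiable ℂ (sJ J) := by
  unfold sJ
  fun_prop

lemma PJ_diff {k : ℕ} : Differentiable ℂ (PJ (k := k)) := by
  have h : DifferentiableOn ℂ (PJ (k := k)) Set.univ := by
    unfold PJ
    apply diffOn_prod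
    intro J _
    exact ((sJ_diff J).sub_const 1).differentiableOn
  exact differentiableOn_univ.1 h

theorem Fx_diff (k M : ℕ) (hM : 1 ≤ M) (P : (Fin k → ℂ) × ℂ → ℂ) (hP : Differentiable ℂ P) :
    DifferentiableOn ℂ (Fx (k := k) M P) (tube (Om k)) := by
  have hsub : tube (Om k) ⊆ DD k := by
    intro z hz i
    obtain ⟨U, _, h1, _, h2, _⟩ := loc k M hM (rez z) hz
    exact (h2 _ h1).1 i
  have hE : DifferentiableOn ℂ (fun z : (Fin k → ℂ) × ℂ => ∑' j, EE M j z.1 z.2) (tube (Om k)) := by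
    refine holo_tsum' (fun j => (EE_diff k M hM j).mono hsub) ?_
    intro z hz
    obtain ⟨U, hU1, hU2, hU3, _, R, C, A, r, hC, hr0, hr1, _, hU4⟩ := loc k M hM (rez z) hz
    refine ⟨rez ⁻¹' U ∩ {z' | ‖z'‖ < ‖z‖ + 1}, ?_, ?_, ?_,
      fun j => C * (1 + 2 * (‖z‖ + 1)) ^ A * r ^ j, ?_, ?_⟩
    · rintro z' ⟨h1, _⟩
      exact hU3 h1
    · exact (hU1.preimage rez_cont).inter (isOpen_lt continuous_norm continuous_const)
    · refine ⟨hU2, ?_⟩
      show ‖z‖ < ‖z‖ + 1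
      linarith
    · exact (summable_geometric_of_lt_one hr0.le hr1).mul_left _
    · rintro j z' ⟨h1, h2⟩
      have h2' : ‖z'‖ < ‖z‖ + 1 := h2
      refine ((hU4 z' h1).2.2 j).trans ?_
      show _ ≤ C * (1 + 2 * (‖z‖ + 1)) ^ A * r ^ j
      have h3 := norm_fst_le z'
      have h4 := norm_snd_le z'
      have h5 : 1 + ‖z'.1‖ + ‖z'.2‖ ≤ 1 + 2 * (‖z‖ + 1) := by linarith
      gcongr
  unfold Fx
  apply DifferentiableOn.mul
  · apply DifferentiableOn.add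
    · apply DifferentiableOn.mul _ hE
      exact (differentiable_snd.sub_const 1).differentiableOn
    · apply DifferentiableOn.mul
      · exact DifferentiableOn.comp (g := TT M) (f := fun z : (Fin k → ℂ) × ℂ => z.1) (TT_diff k M hM)
          differentiable_fst.differentiableOn (fun z hz => hsub hz)
      · exact (Z1_diff.comp differentiable_snd).differentiableOn
  · exact hP.differentiableOn

lemma PJ_bound {k : ℕ} (z : (Fin k → ℂ) × ℂ) :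
    ‖PJ z‖ ≤ ((k + 1) * (1 + ‖z.1‖ + ‖z.2‖)) ^ ((univ : Finset (Finset (Fin k))).erase ∅).card := by
  unfold PJ
  rw [norm_prod]
  have h1 : ∀ J ∈ (univ : Finset (Finset (Fin k))).erase ∅,
      ‖sJ J z - 1‖ ≤ (k + 1) * (1 + ‖z.1‖ + ‖z.2‖) := by
    intro J _
    have hJ : (J.card : ℝ) ≤ k := by
      have := card_le_univ J
      rw [Fintype.card_fin] at this
      exact_mod_cast this
    have h2 : ‖∑ j ∈ J, z.1 j‖ ≤ k * ‖z.1‖ := by
      refine (norm_sum_le _ _).trans ?_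
      calc ∑ j ∈ J, ‖z.1 j‖ ≤ ∑ _j ∈ J, ‖z.1‖ := sum_le_sum fun j _ => norm_le_pi_norm z.1 j
        _ = J.card * ‖z.1‖ := by rw [sum_const, nsmul_eq_mul]
        _ ≤ _ := mul_le_mul_of_nonneg_right hJ (norm_nonneg _)
    have h3 : ‖(J.card : ℂ) / 2‖ ≤ k := by
      rw [norm_div, Complex.norm_natCast]
      have : ‖(2 : ℂ)‖ = 2 := by norm_num
      rw [this]
      linarith [(Nat.cast_nonneg J.card : (0 : ℝ) ≤ J.card)]
    unfold sJ
    calc ‖z.2 - (J.card : ℂ) / 2 + ∑ j ∈ J, z.1 j - 1‖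
        ≤ ‖z.2 - (J.card : ℂ) / 2 + ∑ j ∈ J, z.1 j‖ + ‖(1 : ℂ)‖ := norm_sub_le _ _
      _ ≤ (‖z.2 - (J.card : ℂ) / 2‖ + ‖∑ j ∈ J, z.1 j‖) + ‖(1 : ℂ)‖ := by
          gcongr
          exact norm_add_le _ _
      _ ≤ ((‖z.2‖ + ‖(J.card : ℂ) / 2‖) + ‖∑ j ∈ J, z.1 j‖) + ‖(1 : ℂ)‖ := by
          gcongr
          exact norm_sub_le _ _
      _ ≤ ((‖z.2‖ + k) + k * ‖z.1‖) + 1 := by
          rw [norm_one]
          gcongr
      _ ≤ _ := by
          have := norm_nonneg z.1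
          have := norm_nonneg z.2
          have : (0 : ℝ) ≤ k := Nat.cast_nonneg k
          nlinarith
  calc _ ≤ ∏ _J ∈ (univ : Finset (Finset (Fin k))).erase ∅, ((k + 1) * (1 + ‖z.1‖ + ‖z.2‖)) :=
        prod_le_prod (fun _ _ => norm_nonneg _) h1
    _ = _ := by rw [prod_const]

theorem Fx_loc (k M : ℕ) (hM : 1 ≤ M) (P : (Fin k → ℂ) × ℂ → ℂ) (m : ℕ)
    (hP : ∀ z, ‖P z‖ ≤ ((k + 1) * (1 + ‖z.1‖ + ‖z.2‖)) ^ m) (p : (Fin k → ℝ) × ℝ) (hp : p ∈ Om k) :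
    ∃ U : Set ((Fin k → ℝ) × ℝ), U ∈ 𝓝 p ∧ ∃ (C : ℝ) (N : ℕ), 0 < C ∧
      ∀ z : (Fin k → ℂ) × ℂ, rez z ∈ U → ‖Fx M P z‖ ≤ C * (1 + ‖imz z‖) ^ N := by
  obtain ⟨U, hU1, hU2, hU3, hU5, R, C, A, r, hC, hr0, hr1, hR, hU4⟩ := loc k M hM p hp
  have h1r : 0 < (1 - r)⁻¹ := inv_pos.2 (by linarith)
  refine ⟨U, hU1.mem_nhds hU2, (C * (1 - r)⁻¹ + C * 4) * ((k + 1) ^ m) * (2 + 2 * R) ^ (A + 2 + m),
    A + 2 + m, by positivity, ?_⟩
  intro z hz
  obtain ⟨h1, h2, h3⟩ := hU4 z hz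
  obtain ⟨S, hS⟩ : ∃ S, S = 1 + ‖z.1‖ + ‖z.2‖ := ⟨_, rfl⟩
  have hS1 : 1 ≤ S := by rw [hS]; linarith [norm_nonneg z.1, norm_nonneg z.2]
  have hre : (1 / 2 : ℝ) < z.2.re := (hU5 _ hz).2
  have hsum : ‖∑' j, EE M j z.1 z.2‖ ≤ C * S ^ A * (1 - r)⁻¹ := by
    have h4 : HasSum (fun j : ℕ => C * S ^ A * r ^ j) (C * S ^ A * (1 - r)⁻¹) :=
      (hasSum_geometric_of_lt_one hr0.le hr1).mul_left _
    exact tsum_of_norm_bounded h4 (fun j => by rw [hS]; exact h3 j)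
  have hw1 : ‖z.2 - 1‖ ≤ S := by
    have := norm_sub_le z.2 1
    rw [norm_one] at this
    rw [hS]
    linarith [norm_nonneg z.1]
  have hZ : ‖Z1 z.2‖ ≤ 4 * S ^ 2 := by
    refine (Z1_bound hre.le).trans ?_
    have : 1 + ‖z.2‖ ≤ S := by rw [hS]; linarith [norm_nonneg z.1]
    gcongr
  have hPJ := hP z
  rw [← hS] at hPJ
  have hmain : ‖Fx M P z‖ ≤ (C * (1 - r)⁻¹ + C * 4) * (k + 1) ^ m * S ^ (A + 2 + m) := by
    unfold Fx
    rw [norm_mul]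
    have h5 : ‖(z.2 - 1) * ∑' j, EE M j z.1 z.2 + TT M z.1 * Z1 z.2‖ ≤
        (C * (1 - r)⁻¹ + C * 4) * S ^ (A + 2) := by
      refine (norm_add_le _ _).trans ?_
      rw [norm_mul, norm_mul]
      have e1 : ‖z.2 - 1‖ * ‖∑' j, EE M j z.1 z.2‖ ≤ C * (1 - r)⁻¹ * S ^ (A + 2) := by
        calc _ ≤ S * (C * S ^ A * (1 - r)⁻¹) := mul_le_mul hw1 hsum (norm_nonneg _) (by positivity)
          _ = C * (1 - r)⁻¹ * S ^ (A + 1) := by ring
          _ ≤ C * (1 - r)⁻¹ * S ^ (A + 2) := by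
              have : S ^ (A + 1) ≤ S ^ (A + 2) := pow_le_pow_right₀ hS1 (by omega)
              gcongr
      have e2 : ‖TT M z.1‖ * ‖Z1 z.2‖ ≤ C * 4 * S ^ (A + 2) := by
        calc _ ≤ C * (4 * S ^ 2) := mul_le_mul h2 hZ (norm_nonneg _) hC.le
          _ = C * 4 * S ^ 2 := by ring
          _ ≤ _ := by
              have : S ^ 2 ≤ S ^ (A + 2) := pow_le_pow_right₀ hS1 (by omega)
              gcongr
      calc _ ≤ C * (1 - r)⁻¹ * S ^ (A + 2) + C * 4 * S ^ (A + 2) := add_le_add e1 e2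
        _ = _ := by ring
    calc _ ≤ ((C * (1 - r)⁻¹ + C * 4) * S ^ (A + 2)) * ((k + 1) * S) ^ m :=
          mul_le_mul h5 hPJ (norm_nonneg _) (by positivity)
      _ = _ := by rw [mul_pow, pow_add S (A + 2) m]; ring
  have hSim : S ≤ (2 + 2 * R) * (1 + ‖imz z‖) := by
    have e1 : ‖z.1‖ ≤ ‖rez z‖ + ‖imz z‖ := by
      rw [pi_norm_le_iff_of_nonneg (by positivity)]
      intro i
      refine (Complex.norm_le_abs_re_add_abs_im _).trans ?_
      have e3 : |(z.1 i).re| ≤ ‖rez z‖ := (norm_le_pi_norm (rez z).1 i).trans (norm_fst_le (rez z))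
      have e4 : |(z.1 i).im| ≤ ‖imz z‖ := (norm_le_pi_norm (imz z).1 i).trans (norm_fst_le (imz z))
      linarith
    have e2 : ‖z.2‖ ≤ ‖rez z‖ + ‖imz z‖ := by
      refine (Complex.norm_le_abs_re_add_abs_im _).trans ?_
      have e3 : |z.2.re| ≤ ‖rez z‖ := norm_snd_le (rez z)
      have e4 : |z.2.im| ≤ ‖imz z‖ := norm_snd_le (imz z)
      linarith
    have e5 := norm_nonneg (imz z)
    rw [hS]
    nlinarith
  refine hmain.trans ?_
  calc _ ≤ (C * (1 - r)⁻¹ + C * 4) * (k + 1) ^ m * ((2 + 2 * R) * (1 + ‖imz z‖)) ^ (A + 2 + m) := by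
        gcongr
    _ = _ := by rw [mul_pow]; ring

theorem Fx_poly (k M : ℕ) (hM : 1 ≤ M) (P : (Fin k → ℂ) × ℂ → ℂ) (m : ℕ)
    (hP : ∀ z, ‖P z‖ ≤ ((k + 1) * (1 + ‖z.1‖ + ‖z.2‖)) ^ m)
    (K : Set ((Fin k → ℝ) × ℝ)) (hK : IsCompact K)
    (hKO : K ⊆ Om k) : ∃ (C : ℝ) (N : ℕ), ∀ z : (Fin k → ℂ) × ℂ, rez z ∈ K →
      ‖Fx M P z‖ ≤ C * (1 + ‖imz z‖) ^ N := by
  have key : ∃ (C : ℝ) (N : ℕ), 0 < C ∧ ∀ z : (Fin k → ℂ) × ℂ, rez z ∈ K →
      ‖Fx M P z‖ ≤ C * (1 + ‖imz z‖) ^ N := by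
    refine hK.induction_on (p := fun U => ∃ (C : ℝ) (N : ℕ), 0 < C ∧ ∀ z : (Fin k → ℂ) × ℂ,
      rez z ∈ U → ‖Fx M P z‖ ≤ C * (1 + ‖imz z‖) ^ N) ?_ ?_ ?_ ?_
    · exact ⟨1, 0, one_pos, fun z hz => absurd hz (Set.notMem_empty _)⟩
    · rintro s t hst ⟨C, N, hC, h⟩
      exact ⟨C, N, hC, fun z hz => h z (hst hz)⟩
    · rintro s t ⟨C1, N1, hC1, h1⟩ ⟨C2, N2, hC2, h2⟩
      refine ⟨C1 + C2, N1 + N2, by positivity, fun z hz => ?_⟩
      have h0 : 1 ≤ 1 + ‖imz z‖ := by linarith [norm_nonneg (imz z)]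
      rcases hz with hz | hz
      · refine (h1 z hz).trans ?_
        have : (1 + ‖imz z‖) ^ N1 ≤ (1 + ‖imz z‖) ^ (N1 + N2) := pow_le_pow_right₀ h0 (by omega)
        gcongr
        linarith
      · refine (h2 z hz).trans ?_
        have : (1 + ‖imz z‖) ^ N2 ≤ (1 + ‖imz z‖) ^ (N1 + N2) := pow_le_pow_right₀ h0 (by omega)
        gcongr
        linarith
    · intro p hp
      obtain ⟨U, hU, C, N, hC, h⟩ := Fx_loc k M hM P m hP p (hKO hp)
      exact ⟨U, mem_nhdsWithin_of_mem_nhds hU, C, N, hC, h⟩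
  obtain ⟨C, N, _, h⟩ := key
  exact ⟨C, N, h⟩

/-! ### the region of absolute convergence -/

/-- the multiple Dirichlet series -/
noncomputable def AM {k : ℕ} (M : ℕ) (s : Fin k → ℂ) (w : ℂ) : ℂ :=
  open Classical in ∑' d : ℕ, if IsFund d then
    ((kr d M : ℤ) : ℂ) * (d : ℂ) ^ (-w) * ∏ j, LL d (s j) else 0

/-- the function `F_M` on the region of absolute convergence -/
noncomputable def FM {k : ℕ} (M : ℕ) (z : (Fin k → ℂ) × ℂ) : ℂ :=
  (AM M z.1 z.2 - ∏ j, riemannZeta (z.1 j)) * ∏ J : Finset (Fin k), (sJ J z - 1)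

lemma LL_one {s : ℂ} (hs : 1 < s.re) : LL 1 s = riemannZeta s := by
  rw [zeta_eq_tsum_one_div_nat_cpow hs]
  unfold LL
  refine tsum_congr fun n => ?_
  rw [kr_one_left, Complex.cpow_neg]
  push_cast
  ring

lemma gd_summable {k : ℕ} (M : ℕ) (s : Fin k → ℂ) (hs : ∀ i, 1 < (s i).re) {w : ℂ} (hw : 1 < w.re) :
    Summable (fun d => ‖gd M s w d‖) ∧
    Summable (fun d => ‖((kr d M : ℤ) : ℂ) * (d : ℂ) ^ (-w) * ∏ j, LL d (s j)‖) := by
  obtain ⟨a, ha1, ha2⟩ : ∃ a > 1, ∀ i, a ≤ (s i).re := by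
    have h1 : ∀ᶠ ε : ℝ in 𝓝[>] 0, ∀ i, 1 + ε ≤ (s i).re := by
      rw [eventually_all]
      intro i
      have : ∀ᶠ ε : ℝ in 𝓝[>] 0, ε < (s i).re - 1 :=
        (eventually_lt_nhds (by linarith [hs i])).filter_mono nhdsWithin_le_nhds
      filter_upwards [this] with ε hε
      linarith
    obtain ⟨δ, h2, h3⟩ := (h1.and self_mem_nhdsWithin).exists
    have h3' : 0 < δ := h3
    exact ⟨1 + δ, by linarith, h2⟩
  obtain ⟨Z, hZ⟩ : ∃ Z, Z = ∑' n : ℕ, (n : ℝ) ^ (-a) := ⟨_, rfl⟩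
  have hZ0 : 0 ≤ Z := by rw [hZ]; exact tsum_nonneg fun _ => by positivity
  have hb : ∀ d : ℕ, ‖((kr d M : ℤ) : ℂ) * (d : ℂ) ^ (-w) * ∏ j, LL d (s j)‖ ≤
      (d : ℝ) ^ (-w.re) * Z ^ k := by
    intro d
    have e1 : ‖∏ j, LL d (s j)‖ ≤ Z ^ k := by
      rw [norm_prod]
      calc _ ≤ ∏ _i : Fin k, Z := prod_le_prod (fun _ _ => norm_nonneg _) (fun i _ => by
            rw [hZ]
            exact LL_norm d ha1 (ha2 i))
        _ = Z ^ k := by simp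
    have e2 : ‖((kr d M : ℤ) : ℂ) * (d : ℂ) ^ (-w)‖ ≤ (d : ℝ) ^ (-w.re) := by
      rw [norm_mul]
      rcases Nat.eq_zero_or_pos d with h | h
      · subst h
        rw [Nat.cast_zero, zero_cpow_neg hw, norm_zero, mul_zero]
        positivity
      · rw [nat_cpow_norm h]
        exact mul_le_of_le_one_left (by positivity) (kr_norm d M)
    rw [norm_mul]
    exact mul_le_mul e2 e1 (norm_nonneg _) (by positivity)
  have hsum : Summable (fun d : ℕ => (d : ℝ) ^ (-w.re) * Z ^ k) := (summ_rpow hw).mul_right _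
  refine ⟨Summable.of_nonneg_of_le (fun _ => norm_nonneg _) (fun d => ?_) hsum,
    Summable.of_nonneg_of_le (fun _ => norm_nonneg _) hb hsum⟩
  unfold gd
  split_ifs
  · have h7 : ∏ i, Ld d (s i) = ∏ i, LL d (s i) := prod_congr rfl fun i _ => Ld_eq d (hs i)
    rw [h7]
    exact hb d
  · rw [norm_zero]
    positivity

theorem AM_eq {k : ℕ} (M : ℕ) (s : Fin k → ℂ) (hs : ∀ i, 1 < (s i).re) {w : ℂ} (hw : 1 < w.re) :
    AM M s w - ∏ j, riemannZeta (s j) = ∑' d, gd M s w d := by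
  classical
  obtain ⟨h1, h2⟩ := gd_summable M s hs hw
  have h3 : ∀ d, (if IsFund d then ((kr d M : ℤ) : ℂ) * (d : ℂ) ^ (-w) * ∏ j, LL d (s j) else 0) =
      gd M s w d + if d = 1 then ∏ j, riemannZeta (s j) else 0 := by
    intro d
    unfold gd
    by_cases h4 : d = 1
    · subst h4
      rw [if_pos fund1, if_neg (by omega), if_pos rfl, kr_one_left]
      have : ∏ j, LL 1 (s j) = ∏ j, riemannZeta (s j) := prod_congr rfl fun j _ => LL_one (hs j)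
      rw [this]
      simp
    · rw [if_neg h4, add_zero]
      by_cases h5 : IsFund d
      · have h6 : d ≠ 0 := by
          rintro rfl
          exact not_fund0 h5
        rw [if_pos h5, if_pos ⟨h5, by omega⟩]
        have h7 : ∏ i, Ld d (s i) = ∏ i, LL d (s i) := prod_congr rfl fun i _ => Ld_eq d (hs i)
        rw [h7]
      · rw [if_neg h5, if_neg (by tauto)]
  unfold AM
  rw [tsum_congr h3, Summable.tsum_add h1.of_norm (summable_of_ne_finset_zero (s := {1}) (by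
    intro d hd
    rw [mem_singleton] at hd
    rw [if_neg hd])), tsum_ite_eq]
  ring

theorem Fx_eq (k M : ℕ) (P : (Fin k → ℂ) × ℂ → ℂ) (z : (Fin k → ℂ) × ℂ)
    (hz1 : ∀ i, 1 < (z.1 i).re) (hz2 : 1 < z.2.re) :
    Fx M P z = (z.2 - 1) * (AM M z.1 z.2 - ∏ j, riemannZeta (z.1 j)) * P z := by
  obtain ⟨h1, _⟩ := gd_summable M z.1 hz1 hz2
  have h0 : gd M z.1 z.2 0 = 0 := by
    unfold gd
    rw [if_neg (by omega)]
  have h2 : HasSum (fun j => AB M z.1 z.2 j) (∑' d, gd M z.1 z.2 d) := dyadic h1 h0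
  have h3 : Summable (fun n : ℕ => ‖(n : ℂ) ^ (-z.2)‖) := by
    have := LL_summable 1 hz2
    simpa [kr_one_left] using this
  have h4 : HasSum (fun j => ZZ z.2 (2 ^ j)) (riemannZeta z.2) := by
    have h5 := dyadic h3 (by rw [Nat.cast_zero]; exact zero_cpow_neg hz2)
    have h6 : ∑' n : ℕ, (n : ℂ) ^ (-z.2) = riemannZeta z.2 := by
      rw [← LL_one hz2]
      unfold LL
      refine tsum_congr fun n => ?_
      rw [kr_one_left]
      push_cast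
      ring
    rw [h6] at h5
    exact h5
  have h5 : ∑' j, EE M j z.1 z.2 = ∑' d, gd M z.1 z.2 d - TT M z.1 * riemannZeta z.2 := by
    unfold EE
    exact (h2.sub (h4.mul_left _)).tsum_eq
  have hne : z.2 ≠ 1 := by
    intro h
    rw [h] at hz2
    simp at hz2
  have h6 : Z1 z.2 = (z.2 - 1) * riemannZeta z.2 := by
    unfold Z1
    rw [Function.update_of_ne hne]
  unfold Fx
  rw [h5, h6, AM_eq M z.1 hz1 hz2]
  ring

theorem FM_eq (k M : ℕ) (z : (Fin k → ℂ) × ℂ) (hz1 : ∀ i, 1 < (z.1 i).re) (hz2 : 1 < z.2.re) :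
    Fx M PJ z = FM M z := by
  rw [Fx_eq k M PJ z hz1 hz2]
  unfold FM
  rw [← mul_prod_erase univ (fun J => sJ J z - 1) (mem_univ ∅)]
  have h7 : sJ ∅ z = z.2 := by
    unfold sJ
    simp
  rw [h7]
  unfold PJ
  ring

end Pool.Agent.W5h65.MD
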